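import Pool.Agent.Lib.MP_ac5134_an.KM.CovLe

/-!
# The covolume and the number of lattice points in the unit ball
-/

set_option autoImplicit false

namespace Pool.Agent.MPac5134.Lat

open Matrix MeasureTheory
open scoped ENNReal Pointwise

open scoped MatrixOrder in
private theorem blich_factor {ι : Type*} [Fintype ι] [DecidableEq ι] {A : Matrix ι ι ℝ}
    (hA : A.PosDef) : ∃ C : Matrix ι ι ℝ, A = Cᵀ * C ∧ C.det ≠ 0 := by
  obtain ⟨C, hC⟩ := CStarAlgebra.nonneg_iff_eq_star_mul_self.mp hA.posSemidef.nonneg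
  rw [star_eq_conjTranspose, conjTranspose_eq_transpose_of_trivial] at hC
  refine ⟨C, hC, ?_⟩
  intro h0
  have h1 := hA.det_pos
  rw [hC, det_mul, h0, mul_zero] at h1
  exact lt_irrefl _ h1

/-- the number of lattice points in a cube around the origin is at least the volume ratio -/
theorem blichfeldt {j : ℕ} (C : Matrix (Fin j) (Fin j) ℝ) (hC : C.det ≠ 0) (r : ℝ)
    (hr : 0 ≤ r) {E₀ : ℝ}
    (h : ∀ T : Finset (Fin j → ℤ), (∀ n ∈ T, ∀ i, |(C *ᵥ rv n) i| ≤ r) → (T.card : ℝ) ≤ E₀) :
    r ^ j ≤ E₀ * |C.det| := by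
  classical
  have hE0 : 0 ≤ E₀ := by
    have := h ∅ (by simp)
    simpa using this
  let b := Pi.basisFun ℝ (Fin j)
  have fund := ZSpan.isAddFundamentalDomain' b (volume : Measure (Fin j → ℝ))
  let f : (Fin j → ℝ) →ₗ[ℝ] (Fin j → ℝ) := Matrix.toLin' C
  have hdet : LinearMap.det f = C.det := LinearMap.det_toLin' C
  set s : Set (Fin j → ℝ) := f ⁻¹' Set.Icc (0 : Fin j → ℝ) (fun _ => r) with hs
  have hfm : Measurable f := (LinearMap.continuous_of_finiteDimensional f).measurable
  have hsm : MeasurableSet s := hfm measurableSet_Icc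
  have hvol : volume s = ENNReal.ofReal |C.det⁻¹| * ENNReal.ofReal (r ^ j) := by
    rw [hs, Measure.addHaar_preimage_linearMap _ (by rw [hdet]; exact hC), hdet,
      Real.volume_Icc_pi]
    congr 1
    simp only [Pi.zero_apply, sub_zero, Finset.prod_const, Finset.card_univ, Fintype.card_fin]
    rw [ENNReal.ofReal_pow hr]
  have hF : volume (ZSpan.fundamentalDomain b) = 1 := by
    rw [ZSpan.fundamentalDomain_pi_basisFun, volume_pi_pi]
    simp
  have hcount : Countable (Submodule.span ℤ (Set.range b)).toAddSubgroup :=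
    inferInstanceAs (Countable (Submodule.span ℤ (Set.range b)))
  have hmem : ∀ g : (Submodule.span ℤ (Set.range b)).toAddSubgroup,
      ∃ v : Fin j → ℤ, (g : Fin j → ℝ) = rv v := by
    intro g
    have hmem : (g : Fin j → ℝ) ∈ Submodule.span ℤ (Set.range b) := g.2
    rw [Module.Basis.mem_span_iff_repr_mem] at hmem
    choose v hv using hmem
    refine ⟨v, ?_⟩
    ext i
    have := hv i
    simp only [b, Pi.basisFun_repr] at this
    rw [← this]
    simp [rv]
  choose v hv using hmem
  have hvinj : Function.Injective v := by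
    intro g g' hgg
    apply Subtype.ext
    rw [hv g, hv g', hgg]
  have h1 := fund.measure_eq_tsum s
  have hgm : ∀ g : (Submodule.span ℤ (Set.range b)).toAddSubgroup, MeasurableSet (g +ᵥ s) :=
    fun g => hsm.const_vadd g
  have h2 : ∀ g : (Submodule.span ℤ (Set.range b)).toAddSubgroup,
      volume ((g +ᵥ s) ∩ ZSpan.fundamentalDomain b) =
      ∫⁻ x in ZSpan.fundamentalDomain b, (g +ᵥ s).indicator (fun _ => (1 : ℝ≥0∞)) x := by
    intro g
    rw [lintegral_indicator_const (hgm g), one_mul, Measure.restrict_apply (hgm g)]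
  have h3 : volume s = ∫⁻ x in ZSpan.fundamentalDomain b,
      ∑' g : (Submodule.span ℤ (Set.range b)).toAddSubgroup,
        (g +ᵥ s).indicator (fun _ => (1 : ℝ≥0∞)) x := by
    rw [h1, lintegral_tsum fun g => (measurable_const.indicator (hgm g)).aemeasurable]
    exact tsum_congr h2
  have hpt : ∀ x : Fin j → ℝ, ∑' g : (Submodule.span ℤ (Set.range b)).toAddSubgroup,
        (g +ᵥ s).indicator (fun _ => (1 : ℝ≥0∞)) x ≤ ENNReal.ofReal E₀ := by
    intro x
    rw [ENNReal.tsum_eq_iSup_sum]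
    refine iSup_le fun t => ?_
    obtain ⟨t', ht'⟩ : ∃ t' : Finset (Submodule.span ℤ (Set.range b)).toAddSubgroup,
        t' = t.filter (fun g => x ∈ g +ᵥ s) := ⟨_, rfl⟩
    have hsum : ∑ g ∈ t, (g +ᵥ s).indicator (fun _ => (1 : ℝ≥0∞)) x = (t'.card : ℝ≥0∞) := by
      rw [ht', Finset.card_filter]
      push_cast
      refine Finset.sum_congr rfl fun g _ => ?_
      by_cases hg : x ∈ g +ᵥ s
      · rw [Set.indicator_of_mem hg, if_pos hg]
      · rw [Set.indicator_of_notMem hg, if_neg hg]
    rw [hsum, ← ENNReal.ofReal_natCast]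
    apply ENNReal.ofReal_le_ofReal
    rcases t'.eq_empty_or_nonempty with h0 | ⟨g₀, hg₀⟩
    · rw [h0]; simpa using hE0
    · have hin : ∀ g ∈ t', f (x - rv (v g)) ∈ Set.Icc (0 : Fin j → ℝ) (fun _ => r) := by
        intro g hg
        rw [ht'] at hg
        have h4 := (Finset.mem_filter.1 hg).2
        obtain ⟨y, hy, hyx⟩ := Set.mem_vadd_set.1 h4
        have h5 : x - rv (v g) = y := by
          rw [← hyx, ← hv g]
          have : g +ᵥ y = (g : Fin j → ℝ) + y := rfl
          rw [this]
          abel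
        rw [h5]
        exact hy
      have h4 := h (t'.image (fun g => v g - v g₀)) (by
        intro n hn i
        obtain ⟨g, hg, rfl⟩ := Finset.mem_image.1 hn
        have h5 := hin g hg
        have h6 := hin g₀ hg₀
        have h7 : C *ᵥ rv (v g - v g₀) = f (x - rv (v g₀)) - f (x - rv (v g)) := by
          rw [← map_sub]
          show _ = C *ᵥ _
          congr 1
          rw [rv_sub]
          abel
        rw [h7, Pi.sub_apply]
        have a1 := h5.1 i
        have a2 := h5.2 i
        have a3 := h6.1 i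
        have a4 := h6.2 i
        simp only [Pi.zero_apply] at a1 a3
        rw [abs_le]
        constructor <;> linarith)
      rw [Finset.card_image_of_injective _ (fun g g' hgg => hvinj (sub_left_injective hgg))] at h4
      exact h4
  have h5 : volume s ≤ ENNReal.ofReal E₀ := by
    rw [h3]
    calc ∫⁻ x in ZSpan.fundamentalDomain b,
          ∑' g : (Submodule.span ℤ (Set.range b)).toAddSubgroup,
            (g +ᵥ s).indicator (fun _ => (1 : ℝ≥0∞)) x
        ≤ ∫⁻ _x in ZSpan.fundamentalDomain b, ENNReal.ofReal E₀ := lintegral_mono hpt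
      _ = ENNReal.ofReal E₀ := by
          rw [setLIntegral_const, hF, mul_one]
  rw [hvol, ← ENNReal.ofReal_mul (abs_nonneg _), ENNReal.ofReal_le_ofReal_iff hE0, abs_inv,
    inv_mul_eq_div, div_le_iff₀ (abs_pos.mpr hC)] at h5
  exact h5

/-- the determinant and the number of integer points in the unit ball -/
theorem det_ge_of_card (j : ℕ) (G : Matrix (Fin j) (Fin j) ℝ) (hG : G.PosDef) {E₀ : ℝ}
    (h : ∀ T : Finset (Fin j → ℤ), (∀ n ∈ T, qf G n ≤ 1) → (T.card : ℝ) ≤ E₀) :
    (1 / ((j : ℝ) + 1)) ^ (2 * j) ≤ E₀ ^ 2 * G.det := by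
  obtain ⟨C, hC, hC0⟩ := blich_factor hG
  have hj : (0:ℝ) ≤ j := Nat.cast_nonneg j
  have hdet : G.det = |C.det| ^ 2 := by
    rw [hC, det_mul, det_transpose, sq_abs, pow_two]
  have h1 := blichfeldt C hC0 (1 / ((j:ℝ) + 1)) (by positivity) (E₀ := E₀) (by
    intro T hT
    apply h T
    intro n hn
    rw [hC, qf_transpose_mul]
    calc ∑ i, (C *ᵥ rv n) i ^ 2 ≤ ∑ _i : Fin j, (1 / ((j:ℝ) + 1)) ^ 2 := by
          refine Finset.sum_le_sum fun i _ => ?_
          rw [← sq_abs]
          have := hT n hn i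
          gcongr
      _ = j * (1 / ((j:ℝ) + 1)) ^ 2 := by
          rw [Finset.sum_const, Finset.card_univ, Fintype.card_fin, nsmul_eq_mul]
      _ ≤ 1 := by
          rw [div_pow, one_pow, mul_one_div, div_le_one (by positivity)]
          nlinarith)
  calc (1 / ((j : ℝ) + 1)) ^ (2 * j) = ((1 / ((j : ℝ) + 1)) ^ j) ^ 2 := by
        rw [← pow_mul, mul_comm]
    _ ≤ (E₀ * |C.det|) ^ 2 := by gcongr
    _ = E₀ ^ 2 * G.det := by rw [mul_pow, hdet]

private theorem blich_val {r : ℕ} {ι : Type*} [Fintype ι] (G : Matrix (Fin r) (Fin r) ℝ)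
    (v : ι → Fin r → ℤ) (y : ι → ℝ) :
    y ⬝ᵥ (gram G v *ᵥ y) = (∑ i, y i • rv (v i)) ⬝ᵥ (G *ᵥ (∑ i, y i • rv (v i))) := by
  simp only [Matrix.mulVec_sum, Matrix.mulVec_smul, dotProduct_sum, sum_dotProduct, smul_dotProduct,
    dotProduct_smul, smul_eq_mul]
  simp only [dotProduct, Matrix.mulVec, gram, Matrix.of_apply, Finset.mul_sum]
  rw [Finset.sum_comm]
  refine Finset.sum_congr rfl fun i _ => Finset.sum_congr rfl fun j _ => ?_
  simp only [Finset.sum_mul, Finset.mul_sum]
  refine Finset.sum_congr rfl fun k _ => Finset.sum_congr rfl fun l _ => ?_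
  ring

/-- the covolumes of all subgroups and the number of integer points in the unit ball -/
theorem cov_ge_of_card {r : ℕ} {G : Matrix (Fin r) (Fin r) ℝ} (hG : G.PosDef) {E₀ : ℝ}
    (h : ∀ T : Finset (Fin r → ℤ), (∀ n ∈ T, qf G n ≤ 1) → (T.card : ℝ) ≤ E₀)
    (Λ : Submodule ℤ (Fin r → ℤ)) :
    (1 / ((r : ℝ) + 1)) ^ (2 * r) ≤ E₀ ^ 2 * cov G Λ := by
  classical
  obtain ⟨b, hb⟩ : ∃ b : Fin (Module.finrank ℤ Λ) → Fin r → ℤ,
      b = fun i => ((Module.finBasis ℤ Λ i : Λ) : Fin r → ℤ) := ⟨_, rfl⟩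
  have hlin : LinearIndependent ℤ b := by
    rw [hb]
    exact (Module.finBasis ℤ Λ).linearIndependent.map' Λ.subtype Λ.ker_subtype
  have h2 : (gram G b).PosDef := gram_posDef hG hlin
  have h7 : cov G Λ = (gram G b).det := by rw [hb]; rfl
  rw [h7]
  have hj : Module.finrank ℤ Λ ≤ r := by
    have h := Submodule.finrank_le Λ
    simpa using h
  have hinj : Function.Injective (fun y : Fin (Module.finrank ℤ Λ) → ℤ => ∑ i, y i • b i) := by
    intro y z hyz
    have h3 : ∑ i, (y i - z i) • b i = 0 := by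
      simp only [sub_smul, Finset.sum_sub_distrib]
      exact sub_eq_zero.2 hyz
    funext i
    exact sub_eq_zero.1 (Fintype.linearIndependent_iff.mp hlin _ h3 i)
  have h8 := det_ge_of_card (Module.finrank ℤ Λ) (gram G b) h2 (E₀ := E₀) (by
    intro T hT
    rw [← Finset.card_image_of_injective T hinj]
    apply h
    intro n hn
    obtain ⟨y, hy, rfl⟩ := Finset.mem_image.1 hn
    have h9 : qf (gram G b) y = qf G (∑ i, y i • b i) := by
      unfold qf
      rw [blich_val]
      have h10 : ∑ i, rv y i • rv (b i) = rv (∑ i, y i • b i) := by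
        funext k
        simp [rv, Finset.sum_apply]
      rw [h10]
    have h10 := hT y hy
    rw [h9] at h10
    exact h10)
  refine le_trans ?_ h8
  have hjr : ((Module.finrank ℤ Λ : ℕ) : ℝ) ≤ r := by exact_mod_cast hj
  have hr0 : (0 : ℝ) ≤ r := Nat.cast_nonneg r
  calc (1 / ((r : ℝ) + 1)) ^ (2 * r) ≤ (1 / ((r : ℝ) + 1)) ^ (2 * Module.finrank ℤ Λ) :=
        pow_le_pow_of_le_one (by positivity)
          (by rw [div_le_one (by positivity)]; linarith) (by omega)
    _ ≤ (1 / (((Module.finrank ℤ Λ : ℕ) : ℝ) + 1)) ^ (2 * Module.finrank ℤ Λ) := by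
        apply pow_le_pow_left₀ (by positivity)
        apply one_div_le_one_div_of_le (by positivity)
        linarith

end Pool.Agent.MPac5134.Lat
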