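import Pool.Agent.Lib.MP_ac5134_an.CS.Hoeff
import Pool.Agent.Lib.MP_ac5134_an.FR.Fourier

/-!
# Chang's theorem in `ZMod M`

The large spectrum of `T` lies in the cube spanned by a dissociated subset `Λ`, and `#Λ ≤ 8 m` when
`M ≤ 2^m #T`.
-/

open Finset

namespace Pool.Agent.MPac5134.CS

open Pool.Agent.MPac5134.FR

/-- no non-trivial relation with coefficients `-1, 0, 1` -/
def Dissoc {M : ℕ} (Λ : Finset (ZMod M)) : Prop :=
  ∀ p : ZMod M → ℤ, (∀ i ∈ Λ, p i = -1 ∨ p i = 0 ∨ p i = 1) →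
    ∑ i ∈ Λ, ((p i : ℤ) : ZMod M) * i = 0 → ∀ i ∈ Λ, p i = 0

private theorem chang_orth {M : ℕ} [NeZero M] (s : ZMod M) :
    ∑ x : ZMod M, ZMod.stdAddChar (N := M) (s * x) = if s = 0 then (M : ℂ) else 0 := by
  have h := AddChar.sum_mulShift s (ZMod.isPrimitive_stdAddChar M)
  simp only [mul_comm s]
  rw [h]
  split_ifs with h1
  · rw [ZMod.card]
  · simp

private theorem chang_char_sum {M : ℕ} [NeZero M] {ι : Type*} (s : Finset ι) (f : ι → ZMod M) :
    ZMod.stdAddChar (N := M) (∑ i ∈ s, f i) = ∏ i ∈ s, ZMod.stdAddChar (N := M) (f i) := by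
  classical
  induction s using Finset.induction_on with
  | empty => simp
  | insert a s ha ih => rw [sum_insert ha, prod_insert ha, AddChar.map_add_eq_mul, ih]

/-- the weights of the expansion of a Riesz product -/
private noncomputable def chw {M : ℕ} (u : ZMod M → ℂ) (a b : ℝ) (j : ℤ) (i : ZMod M) : ℂ :=
  if j = 0 then (a : ℂ) else if j = 1 then (b : ℂ) / 2 * u i else (b : ℂ) / 2 * (starRingEnd ℂ) (u i)

private theorem chang_fac {M : ℕ} [NeZero M] (u : ZMod M → ℂ) (a b : ℝ) (i x : ZMod M) :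
    ((a + b * (u i * ZMod.stdAddChar (N := M) (i * x)).re : ℝ) : ℂ) =
      ∑ j ∈ ({-1, 0, 1} : Finset ℤ), chw u a b j i *
        ZMod.stdAddChar (N := M) (((j : ℤ) : ZMod M) * i * x) := by
  have hs : ∑ j ∈ ({-1, 0, 1} : Finset ℤ), chw u a b j i *
        ZMod.stdAddChar (N := M) (((j : ℤ) : ZMod M) * i * x) =
      (b : ℂ) / 2 * (starRingEnd ℂ) (u i) * ZMod.stdAddChar (N := M) (-(i * x)) + (a +
        (b : ℂ) / 2 * u i * ZMod.stdAddChar (N := M) (i * x)) := by
    rw [sum_insert (by decide), sum_insert (by decide), sum_singleton]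
    unfold chw
    simp
  rw [hs]
  have h1 : ((u i * ZMod.stdAddChar (N := M) (i * x)).re : ℂ) =
      (u i * ZMod.stdAddChar (N := M) (i * x) +
        (starRingEnd ℂ) (u i * ZMod.stdAddChar (N := M) (i * x))) / 2 := by
    rw [Complex.add_conj]
    push_cast
    ring
  push_cast
  rw [h1, map_mul (starRingEnd ℂ), ← AddChar.map_neg_eq_conj]
  ring

theorem riesz {M : ℕ} [NeZero M] {Λ : Finset (ZMod M)} (hΛ : Dissoc Λ) (u : ZMod M → ℂ)
    (a b : ℝ) : ∑ x : ZMod M, ∏ i ∈ Λ, (a + b * (u i * ZMod.stdAddChar (N := M) (i * x)).re) =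
      M * a ^ Λ.card := by
  classical
  apply Complex.ofReal_injective
  rw [Complex.ofReal_sum]
  have h1 : ∀ x : ZMod M,
      ((∏ i ∈ Λ, (a + b * (u i * ZMod.stdAddChar (N := M) (i * x)).re) : ℝ) : ℂ) =
      ∑ p ∈ Fintype.piFinset (fun _ : Λ => ({-1, 0, 1} : Finset ℤ)),
        (∏ i : Λ, chw u a b (p i) i) *
          ZMod.stdAddChar (N := M) ((∑ i : Λ, ((p i : ℤ) : ZMod M) * i) * x) := by
    intro x
    rw [Complex.ofReal_prod, ← prod_coe_sort]
    have e1 : ∀ i : Λ, ((a + b * (u i * ZMod.stdAddChar (N := M) ((i : ZMod M) * x)).re : ℝ) : ℂ) =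
      ∑ j ∈ ({-1, 0, 1} : Finset ℤ), chw u a b j i *
        ZMod.stdAddChar (N := M) (((j : ℤ) : ZMod M) * i * x) := fun i => chang_fac u a b i x
    rw [prod_congr rfl fun i _ => e1 i, Finset.prod_univ_sum]
    refine sum_congr rfl fun p _ => ?_
    rw [prod_mul_distrib, sum_mul, chang_char_sum]
  simp only [h1]
  rw [sum_comm]
  have h2 : ∀ p ∈ Fintype.piFinset (fun _ : Λ => ({-1, 0, 1} : Finset ℤ)),
      ∑ x : ZMod M, (∏ i : Λ, chw u a b (p i) i) *
          ZMod.stdAddChar (N := M) ((∑ i : Λ, ((p i : ℤ) : ZMod M) * i) * x) =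
      if p = 0 then (M : ℂ) * (a : ℂ) ^ Λ.card else 0 := by
    intro p hp
    rw [← mul_sum, chang_orth]
    by_cases h0 : p = 0
    · rw [if_pos h0, h0]
      simp only [Pi.zero_apply, Int.cast_zero, zero_mul, sum_const_zero, if_true]
      have : ∀ i : Λ, chw u a b 0 i = (a : ℂ) := fun i => by unfold chw; simp
      simp only [this]
      rw [prod_const, card_univ, Fintype.card_coe]
      ring
    · rw [if_neg h0, if_neg, mul_zero]
      intro hs
      apply h0
      have hd := hΛ (fun i => if h : i ∈ Λ then p ⟨i, h⟩ else 0) (by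
        intro i hi
        simp only [hi, dif_pos]
        have := Fintype.mem_piFinset.1 hp ⟨i, hi⟩
        simpa using this) (by
        rw [← hs, ← sum_coe_sort Λ]
        refine sum_congr rfl fun i _ => ?_
        simp only [i.2, dif_pos, Subtype.coe_eta])
      funext i
      have := hd i i.2
      simpa using this
  rw [sum_congr rfl h2, sum_ite_eq']
  rw [if_pos]
  · push_cast
    ring
  · rw [Fintype.mem_piFinset]
    intro i
    simp

/-- a dissociated part of the large spectrum is small -/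
theorem dissoc_card {M : ℕ} [NeZero M] {T : Finset (ZMod M)} {m : ℕ}
    (hTm : M ≤ 2 ^ m * T.card) {Λ : Finset (ZMod M)} (hΛ : Dissoc Λ)
    (hsp : ∀ i ∈ Λ, (T.card : ℝ) ^ 2 ≤ 4 * F2 T i) : Λ.card ≤ 8 * m := by
  classical
  have hM : (0 : ℝ) < M := by exact_mod_cast Nat.pos_of_ne_zero (NeZero.ne M)
  have hTpos : 0 < T.card := by
    rcases Nat.eq_zero_or_pos T.card with h | h
    · rw [h, mul_zero] at hTm
      exact absurd hTm (by have := NeZero.pos M; omega)
    · exact h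
  have hT : (0 : ℝ) < T.card := by exact_mod_cast hTpos
  obtain ⟨S, hS⟩ : ∃ S : ZMod M → ℂ, S = fun i => ∑ t ∈ T, ZMod.stdAddChar (N := M) (i * t) :=
    ⟨_, rfl⟩
  obtain ⟨u, hu⟩ : ∃ u : ZMod M → ℂ, u = fun i => (starRingEnd ℂ) (S i) / (‖S i‖ : ℂ) := ⟨_, rfl⟩
  have hu1 : ∀ i, ‖u i‖ ≤ 1 := by
    intro i
    rw [hu]
    simp only [norm_div, RCLike.norm_conj, Complex.norm_real, norm_norm]
    exact div_self_le_one _
  obtain ⟨g, hg⟩ : ∃ g : ZMod M → ZMod M → ℝ,
      g = fun i x => (u i * ZMod.stdAddChar (N := M) (i * x)).re := ⟨_, rfl⟩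
  have hg1 : ∀ i x, |g i x| ≤ 1 := by
    intro i x
    rw [hg]
    refine (Complex.abs_re_le_norm _).trans ?_
    rw [norm_mul, AddChar.norm_apply, mul_one]
    exact hu1 i
  have hgS : ∀ i ∈ Λ, (T.card : ℝ) / 2 ≤ ∑ t ∈ T, g i t := by
    intro i hi
    have h1 : ∑ t ∈ T, g i t = ‖S i‖ := by
      rw [hg]
      simp only
      rw [← Complex.re_sum, ← mul_sum]
      have : ∑ t ∈ T, ZMod.stdAddChar (N := M) (i * t) = S i := by rw [hS]
      rw [this, hu]
      simp only
      have h2 : (starRingEnd ℂ) (S i) / (‖S i‖ : ℂ) * S i = (‖S i‖ : ℂ) := by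
        by_cases h0 : S i = 0
        · rw [h0]; simp
        · have h3 : (‖S i‖ : ℂ) ≠ 0 := by
            have := norm_ne_zero_iff.2 h0
            exact_mod_cast this
          rw [div_mul_eq_mul_div, div_eq_iff h3, mul_comm, Complex.mul_conj,
            Complex.normSq_eq_norm_sq]
          push_cast
          ring
      rw [h2, Complex.ofReal_re]
    rw [h1]
    have h2 := hsp i hi
    have h3 : F2 T i = ‖S i‖ ^ 2 := by rw [hS]; rfl
    rw [h3] at h2
    have h4 : ((T.card : ℝ) / 2) ^ 2 ≤ ‖S i‖ ^ 2 := by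
      rw [div_pow]
      linarith
    exact le_of_sq_le_sq h4 (norm_nonneg _) |> fun h => h
  -- the exponential sum
  have hup : ∑ x : ZMod M, Real.exp (1 / 2 * ∑ i ∈ Λ, g i x) ≤
      M * Real.exp ((Λ.card : ℝ) / 8) := by
    calc ∑ x : ZMod M, Real.exp (1 / 2 * ∑ i ∈ Λ, g i x)
        ≤ ∑ x : ZMod M, ∏ i ∈ Λ, (Real.cosh (1 / 2) + Real.sinh (1 / 2) * g i x) := by
          refine sum_le_sum fun x _ => ?_
          rw [mul_sum, Real.exp_sum]
          refine prod_le_prod (fun _ _ => (Real.exp_pos _).le) fun i _ => ?_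
          have := exp_le_cosh (θ := 1 / 2) (hg1 i x)
          rw [mul_comm (Real.sinh _)]
          exact this
      _ = M * Real.cosh (1 / 2) ^ Λ.card := by
          rw [hg]
          exact riesz hΛ u _ _
      _ ≤ M * Real.exp ((1 / 2) ^ 2 / 2) ^ Λ.card := by
          have h1 := Real.cosh_le_exp_half_sq (1 / 2)
          have h2 : 0 ≤ Real.cosh (1 / 2) := (Real.cosh_pos _).le
          gcongr
      _ = M * Real.exp ((Λ.card : ℝ) / 8) := by
          rw [← Real.exp_nat_mul]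
          congr 2
          ring
  have hlow : (T.card : ℝ) * Real.exp ((Λ.card : ℝ) / 4) ≤
      ∑ x : ZMod M, Real.exp (1 / 2 * ∑ i ∈ Λ, g i x) := by
    have h1 : (Λ.card : ℝ) * (T.card / 2) ≤ ∑ t ∈ T, ∑ i ∈ Λ, g i t := by
      rw [sum_comm]
      calc (Λ.card : ℝ) * (T.card / 2) = ∑ _i ∈ Λ, (T.card : ℝ) / 2 := by
            rw [sum_const, nsmul_eq_mul]
        _ ≤ _ := sum_le_sum hgS
    have h2 : ∀ t ∈ T, Real.exp ((Λ.card : ℝ) / 4) *
        (1 + (1 / 2 * ∑ i ∈ Λ, g i t - (Λ.card : ℝ) / 4)) ≤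
        Real.exp (1 / 2 * ∑ i ∈ Λ, g i t) := by
      intro t _
      have h3 := Real.add_one_le_exp (1 / 2 * ∑ i ∈ Λ, g i t - (Λ.card : ℝ) / 4)
      calc Real.exp ((Λ.card : ℝ) / 4) * (1 + (1 / 2 * ∑ i ∈ Λ, g i t - (Λ.card : ℝ) / 4))
          ≤ Real.exp ((Λ.card : ℝ) / 4) *
            Real.exp (1 / 2 * ∑ i ∈ Λ, g i t - (Λ.card : ℝ) / 4) := by
            gcongr
            linarith
        _ = _ := by rw [← Real.exp_add]; congr 1; ring
    calc (T.card : ℝ) * Real.exp ((Λ.card : ℝ) / 4)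
        ≤ ∑ t ∈ T, Real.exp ((Λ.card : ℝ) / 4) *
            (1 + (1 / 2 * ∑ i ∈ Λ, g i t - (Λ.card : ℝ) / 4)) := by
          rw [← mul_sum, sum_add_distrib, sum_sub_distrib, ← mul_sum, sum_const, sum_const,
            nsmul_eq_mul, nsmul_eq_mul, mul_comm]
          gcongr
          linarith
      _ ≤ ∑ t ∈ T, Real.exp (1 / 2 * ∑ i ∈ Λ, g i t) := sum_le_sum h2
      _ ≤ _ := sum_le_sum_of_subset_of_nonneg (subset_univ _) fun _ _ _ => (Real.exp_pos _).le
  have hTm' : (M : ℝ) ≤ 2 ^ m * T.card := by exact_mod_cast hTm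
  have h5 : (T.card : ℝ) * Real.exp ((Λ.card : ℝ) / 4) ≤
      T.card * (Real.exp m * Real.exp ((Λ.card : ℝ) / 8)) := by
    calc (T.card : ℝ) * Real.exp ((Λ.card : ℝ) / 4) ≤ M * Real.exp ((Λ.card : ℝ) / 8) :=
          hlow.trans hup
      _ ≤ (2 ^ m * T.card) * Real.exp ((Λ.card : ℝ) / 8) := by gcongr
      _ ≤ (Real.exp m * T.card) * Real.exp ((Λ.card : ℝ) / 8) := by
          have h6 : (2:ℝ) ^ m ≤ Real.exp m := by
            have h7 : (2:ℝ) ≤ Real.exp 1 := by
              have := Real.add_one_le_exp (1:ℝ)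
              linarith
            calc (2:ℝ) ^ m ≤ Real.exp 1 ^ m := by gcongr
              _ = Real.exp m := by rw [← Real.exp_nat_mul, mul_one]
          gcongr
      _ = _ := by ring
  have h6 := le_of_mul_le_mul_left h5 hT
  rw [← Real.exp_add, Real.exp_le_exp] at h6
  have h7 : (Λ.card : ℝ) ≤ 8 * m := by linarith
  exact_mod_cast h7

theorem valMinAbs_add_le {M : ℕ} (x y : ZMod M) :
    |(x + y).valMinAbs| ≤ |x.valMinAbs| + |y.valMinAbs| := by
  have h := ZMod.natAbs_valMinAbs_add_le x y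
  have h2 : ((x + y).valMinAbs.natAbs : ℤ) ≤ ((x.valMinAbs + y.valMinAbs).natAbs : ℤ) := by
    exact_mod_cast h
  rw [← Int.abs_eq_natAbs, ← Int.abs_eq_natAbs] at h2
  exact h2.trans (abs_add_le _ _)

theorem valMinAbs_sum_le {M : ℕ} {ι : Type*} (s : Finset ι) (f : ι → ZMod M) :
    |(∑ i ∈ s, f i).valMinAbs| ≤ ∑ i ∈ s, |(f i).valMinAbs| := by
  classical
  induction s using Finset.induction_on with
  | empty => simp
  | insert a s ha ih =>
    rw [sum_insert ha, sum_insert ha]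
    exact (valMinAbs_add_le _ _).trans (by linarith)

theorem valMinAbs_neg_abs {M : ℕ} [NeZero M] (x : ZMod M) :
    |(-x).valMinAbs| = |x.valMinAbs| := by
  rw [Int.abs_eq_natAbs, Int.abs_eq_natAbs, ZMod.natAbs_valMinAbs_neg]

/-- Chang's theorem, in the form used here. -/
theorem chang {M : ℕ} [NeZero M] {T : Finset (ZMod M)} {m : ℕ} (hTm : M ≤ 2 ^ m * T.card) :
    ∃ Λ : Finset (ZMod M), Λ.card ≤ 8 * m ∧
      ∀ y : ZMod M, ∀ r : ℤ, 0 ≤ r → (∀ i ∈ Λ, |(i * y).valMinAbs| ≤ r) →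
        ∀ ξ : ZMod M, (T.card : ℝ) ^ 2 ≤ 4 * F2 T ξ → |(ξ * y).valMinAbs| ≤ (8 * m + 1) * r := by
  classical
  obtain ⟨S, hS⟩ : ∃ S : Finset (ZMod M),
      S = univ.filter (fun ξ => (T.card : ℝ) ^ 2 ≤ 4 * F2 T ξ) := ⟨_, rfl⟩
  obtain ⟨Λ, hΛm, hΛmax⟩ := Finset.exists_max_image (S.powerset.filter Dissoc) Finset.card
    ⟨∅, by
      rw [mem_filter, mem_powerset]
      exact ⟨empty_subset _, fun p _ _ i hi => absurd hi (notMem_empty i)⟩⟩
  rw [mem_filter, mem_powerset] at hΛm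
  obtain ⟨hΛS, hΛd⟩ := hΛm
  have hcard : Λ.card ≤ 8 * m := dissoc_card hTm hΛd fun i hi => by
    have := hΛS hi
    rw [hS, mem_filter] at this
    exact this.2
  refine ⟨Λ, hcard, fun y r hr0 hr ξ hξ => ?_⟩
  have hcz : (Λ.card : ℤ) ≤ 8 * m := by exact_mod_cast hcard
  by_cases hξΛ : ξ ∈ Λ
  · have h1 := hr ξ hξΛ
    have hm0 : (0:ℤ) ≤ m := Nat.cast_nonneg m
    nlinarith
  · have hξS : ξ ∈ S := by
      rw [hS, mem_filter]
      exact ⟨mem_univ _, hξ⟩
    have hnot : ¬ Dissoc (insert ξ Λ) := by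
      intro hd
      have h1 := hΛmax (insert ξ Λ) (by
        rw [mem_filter, mem_powerset]
        refine ⟨?_, hd⟩
        intro i hi
        rcases mem_insert.1 hi with h | h
        · rw [h]; exact hξS
        · exact hΛS h)
      rw [card_insert_of_notMem hξΛ] at h1
      omega
    unfold Dissoc at hnot
    push Not at hnot
    obtain ⟨p, hp, hp0, j, hj, hpj⟩ := hnot
    rw [sum_insert hξΛ] at hp0
    have hpξ : p ξ ≠ 0 := by
      intro h0
      rw [h0, Int.cast_zero, zero_mul, zero_add] at hp0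
      have h1 := hΛd p (fun i hi => hp i (mem_insert_of_mem hi)) hp0
      rcases mem_insert.1 hj with h | h
      · rw [h] at hpj; exact hpj h0
      · exact hpj (h1 j h)
    have hsum : |(∑ i ∈ Λ, ((p i : ℤ) : ZMod M) * i * y).valMinAbs| ≤ 8 * m * r := by
      refine (valMinAbs_sum_le _ _).trans ?_
      calc ∑ i ∈ Λ, |(((p i : ℤ) : ZMod M) * i * y).valMinAbs| ≤ ∑ _i ∈ Λ, r := by
            refine sum_le_sum fun i hi => ?_
            have h1 := hr i hi
            rcases hp i (mem_insert_of_mem hi) with h | h | h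
            · rw [h]
              have : (((-1 : ℤ)) : ZMod M) * i * y = -(i * y) := by push_cast; ring
              rw [this, valMinAbs_neg_abs]
              exact h1
            · rw [h]
              simpa using hr0
            · rw [h]
              have : (((1 : ℤ)) : ZMod M) * i * y = i * y := by push_cast; ring
              rw [this]
              exact h1
        _ = Λ.card * r := by rw [sum_const, nsmul_eq_mul]
        _ ≤ 8 * m * r := by gcongr
    have hxy : |(ξ * y).valMinAbs| = |(∑ i ∈ Λ, ((p i : ℤ) : ZMod M) * i * y).valMinAbs| := by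
      rw [← sum_mul]
      have h2 : ∑ i ∈ Λ, ((p i : ℤ) : ZMod M) * i = -(((p ξ : ℤ) : ZMod M) * ξ) := by
        rw [eq_neg_iff_add_eq_zero, add_comm]
        exact hp0
      rw [h2]
      rcases hp ξ (mem_insert_self _ _) with h | h | h
      · rw [h]
        congr 2
        push_cast
        ring
      · exact absurd h hpξ
      · rw [h]
        have : -((((1 : ℤ)) : ZMod M) * ξ) * y = -(ξ * y) := by push_cast; ring
        rw [this, valMinAbs_neg_abs]
    rw [hxy]
    have hm0 : (0:ℤ) ≤ m := Nat.cast_nonneg m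
    nlinarith

end Pool.Agent.MPac5134.CS
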