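import Pool.Agent.Lib.MP_ac5134_an.CS.Smooth
import Pool.Agent.Lib.MP_ac5134_an.CS.Chang

/-!
# The quasi-polynomial Bogolyubov–Ruzsa theorem in `ZMod M`

If `M ≤ 2^q #A` then `2A - 2A` contains a Bohr set with at most `2^20 (q + 4)^5` frequencies and radius
`1/4` (Croot–Sisask, Sanders; the small radius is traded for the frequencies `2^j λ`).
-/

open Finset

namespace Pool.Agent.MPac5134.CS

open Pool.Agent.MPac5134.FR

/-- the number of frequencies -/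
def rk (q : ℕ) : ℕ := 2 ^ 20 * (q + 4) ^ 5

theorem char_sub_one_le {M : ℕ} [NeZero M] (z : ZMod M) :
    ‖ZMod.stdAddChar (N := M) z - 1‖ ≤ 2 * Real.pi * |(z.valMinAbs : ℝ)| / M := by
  have hM : (0 : ℝ) < M := by exact_mod_cast Nat.pos_of_ne_zero (NeZero.ne M)
  have h1 : ZMod.stdAddChar (N := M) z =
      Complex.exp (2 * Real.pi * Complex.I * ((z.valMinAbs : ℤ) : ℂ) / M) := by
    conv_lhs => rw [← ZMod.coe_valMinAbs z]
    rw [ZMod.stdAddChar_coe]
  rw [h1]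
  have h3 : (2 * Real.pi * Complex.I * ((z.valMinAbs : ℤ) : ℂ) / M) =
      Complex.I * ((2 * Real.pi * (z.valMinAbs : ℝ) / M : ℝ) : ℂ) := by
    push_cast
    ring
  rw [h3]
  refine (Real.norm_exp_I_mul_ofReal_sub_one_le).trans (le_of_eq ?_)
  rw [Real.norm_eq_abs, abs_div, abs_mul, abs_of_pos hM, abs_of_pos (by positivity)]

theorem abs_two_mul {M : ℕ} [NeZero M] {u : ZMod M} (h : 4 * |u.valMinAbs| ≤ M) :
    2 * |u.valMinAbs| ≤ |(2 * u).valMinAbs| := by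
  have h1 : (((2 * u.valMinAbs : ℤ)) : ZMod M) = (((2 * u).valMinAbs : ℤ) : ZMod M) := by
    rw [ZMod.coe_valMinAbs]
    push_cast
    simp
  have h2 : (2 * u.valMinAbs).natAbs ≤ M / 2 := by
    have h3 : ((2 * u.valMinAbs).natAbs : ℤ) = 2 * |u.valMinAbs| := by
      rw [← Int.abs_eq_natAbs, abs_mul]
      norm_num
    omega
  have h4 := ZMod.natAbs_min_of_le_div_two M _ _ h1 h2
  have h5 : ((2 * u.valMinAbs).natAbs : ℤ) ≤ ((2 * u).valMinAbs.natAbs : ℤ) := by exact_mod_cast h4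
  rw [← Int.abs_eq_natAbs, ← Int.abs_eq_natAbs, abs_mul] at h5
  simpa using h5

theorem dyadic {M : ℕ} [NeZero M] (n : ℕ) (u : ZMod M)
    (h : ∀ j < n + 1, 4 * |(2 ^ j * u).valMinAbs| ≤ M) : 4 * 2 ^ n * |u.valMinAbs| ≤ M := by
  induction n generalizing u with
  | zero =>
    have := h 0 (by norm_num)
    simpa using this
  | succ n ih =>
    have h1 := ih (2 * u) (by
      intro j hj
      have h2 := h (j + 1) (by omega)
      rw [pow_succ, mul_assoc] at h2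
      exact h2)
    have h0 := h 0 (by omega)
    rw [pow_zero, one_mul] at h0
    have h3 := abs_two_mul h0
    calc 4 * 2 ^ (n + 1) * |u.valMinAbs| = 4 * 2 ^ n * (2 * |u.valMinAbs|) := by ring
      _ ≤ 4 * 2 ^ n * |(2 * u).valMinAbs| := by gcongr
      _ ≤ M := h1

private theorem main_k {q l k : ℕ} (hl : l = q + 4) (hk : k = 6144 * l ^ 3) :
    4 * Real.exp (-(k * (1 / (32 * (l:ℝ))) ^ 2 / 2)) ≤ (1 / 2) ^ q / (32 * (l:ℝ)) := by
  have hl4 : (4:ℝ) ≤ l := by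
    have : 4 ≤ l := by omega
    exact_mod_cast this
  have hl0 : (0:ℝ) < l := by linarith
  have h1 : (k * (1 / (32 * (l:ℝ))) ^ 2 / 2) = 3 * l := by
    rw [hk]
    push_cast
    field_simp
    ring
  rw [h1]
  have h2 : (128 * (l:ℝ)) * 2 ^ q ≤ Real.exp (3 * l) := by
    have h3 : (l:ℝ) ≤ 2 ^ l := by exact_mod_cast (Nat.lt_two_pow_self (n := l)).le
    have h4 : (128 * (l:ℝ)) * 2 ^ q ≤ 2 ^ (3 * l) := by
      calc (128 * (l:ℝ)) * 2 ^ q ≤ (2 ^ 7 * 2 ^ l) * 2 ^ q := by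
            have : (128:ℝ) = 2 ^ 7 := by norm_num
            rw [this]
            gcongr
        _ = 2 ^ (7 + l + q) := by rw [← pow_add, ← pow_add]
        _ ≤ 2 ^ (3 * l) := pow_le_pow_right₀ (by norm_num) (by omega)
    refine h4.trans ?_
    have h5 : (2:ℝ) ≤ Real.exp 1 := by
      have := Real.add_one_le_exp (1:ℝ)
      linarith
    calc (2:ℝ) ^ (3 * l) ≤ Real.exp 1 ^ (3 * l) := by gcongr
      _ = Real.exp (3 * l) := by
        rw [← Real.exp_nat_mul]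
        push_cast
        ring_nf
  rw [Real.exp_neg, le_div_iff₀ (by positivity), one_div, inv_pow, ← div_eq_mul_inv,
    div_mul_eq_mul_div, div_le_iff₀ (Real.exp_pos _), inv_mul_eq_div, le_div_iff₀ (by positivity)]
  linarith

private theorem main_eta {q l : ℕ} (hl : l = q + 4) :
    ((1 / 2 : ℝ) ^ q / 4 + 2 * (1 / 4) ^ l) * 2 ^ q ≤ 1 / 2 := by
  have h1 : (1 / 4 : ℝ) ^ l = (1 / 2) ^ q * (1 / 2) ^ q * (1 / 4) ^ 4 := by
    rw [hl, pow_add, ← mul_pow]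
    norm_num
  have h2 : (1 / 2 : ℝ) ^ q * 2 ^ q = 1 := by rw [← mul_pow]; norm_num
  have h3 : (1 / 2 : ℝ) ^ q ≤ 1 := pow_le_one₀ (by norm_num) (by norm_num)
  rw [h1]
  calc ((1 / 2 : ℝ) ^ q / 4 + 2 * ((1 / 2) ^ q * (1 / 2) ^ q * (1 / 4) ^ 4)) * 2 ^ q
      = ((1 / 2 : ℝ) ^ q * 2 ^ q) * (1 / 4 + 2 * (1 / 2) ^ q * (1 / 4) ^ 4) := by ring
    _ = 1 / 4 + 2 * (1 / 2) ^ q * (1 / 4) ^ 4 := by rw [h2, one_mul]
    _ ≤ 1 / 2 := by linarith

/-- The quasi-polynomial Bogolyubov–Ruzsa theorem. -/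
theorem bogolyubov_cs {M : ℕ} [NeZero M] (A : Finset (ZMod M)) (q : ℕ) (hq : M ≤ 2 ^ q * A.card) :
    ∃ Γ : Finset (ZMod M), Γ.card ≤ rk q ∧
      ∀ x : ZMod M, (∀ ξ ∈ Γ, 4 * |(ξ * x).valMinAbs| ≤ M) →
        ∃ a ∈ A, ∃ b ∈ A, ∃ c ∈ A, ∃ d ∈ A, x = a + b - c - d := by
  classical
  have hM : (0 : ℝ) < M := by exact_mod_cast Nat.pos_of_ne_zero (NeZero.ne M)
  have hApos : 0 < A.card := by
    rcases Nat.eq_zero_or_pos A.card with h | h
    · rw [h, mul_zero] at hq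
      exact absurd hq (by have := NeZero.pos M; omega)
    · exact h
  have hA : A.Nonempty := card_pos.1 hApos
  have hc : (0 : ℝ) < A.card := by exact_mod_cast hApos
  have hMA : (M : ℝ) / A.card ≤ 2 ^ q := by
    rw [div_le_iff₀ hc]
    exact_mod_cast hq
  obtain ⟨l, hl⟩ : ∃ l : ℕ, l = q + 4 := ⟨_, rfl⟩
  obtain ⟨k, hk⟩ : ∃ k : ℕ, k = 6144 * l ^ 3 := ⟨_, rfl⟩
  obtain ⟨m, hm⟩ : ∃ m : ℕ, m = q * k + 1 := ⟨_, rfl⟩
  have hl4 : 4 ≤ l := by omega
  have hl0 : (0:ℝ) < l := by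
    have : 0 < l := by omega
    exact_mod_cast this
  have hk0 : 0 < k := by rw [hk]; positivity
  obtain ⟨f, hf⟩ : ∃ f : ZMod M → ℝ,
      f = fun w => if ∃ a ∈ A, ∃ b ∈ A, w = a + b then (1:ℝ) else 0 := ⟨_, rfl⟩
  have hf0 : ∀ x, 0 ≤ f x := by
    intro x; rw [hf]; simp only; split_ifs <;> norm_num
  have hf1 : ∀ x, f x ≤ 1 := by
    intro x; rw [hf]; simp only; split_ifs <;> norm_num
  obtain ⟨T, hTc, hTE⟩ := almost_periods hA hf0 hf1 k hk0 (u := 1 / (32 * (l:ℝ)))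
    (δ := (1 / 2) ^ q / (32 * (l:ℝ))) (by positivity) (by positivity) (main_k hl hk)
  have hTm : M ≤ 2 ^ m * T.card := by
    have h1 : M ^ k ≤ 2 ^ (q * k) * A.card ^ k := by
      rw [pow_mul, ← mul_pow]
      exact Nat.pow_le_pow_left hq k
    have h2 : M * A.card ^ k ≤ (2 ^ m * T.card) * A.card ^ k := by
      calc M * A.card ^ k ≤ 2 * M ^ k * T.card := hTc
        _ ≤ 2 * (2 ^ (q * k) * A.card ^ k) * T.card := by gcongr
        _ = (2 ^ m * T.card) * A.card ^ k := by rw [hm, pow_succ]; ring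
    exact Nat.le_of_mul_le_mul_right h2 (by positivity)
  have hTne : T.Nonempty := by
    rw [nonempty_iff_ne_empty]
    intro h
    rw [h, card_empty, mul_zero] at hTm
    have := NeZero.pos M
    omega
  have hE : ∀ w : ZMod M, ∀ s ∈ T, ∀ s' ∈ T,
      |dbl A f (w + s) - dbl A f (w + s')| ≤ 1 / (8 * l) := by
    intro w s hs s' hs'
    refine (hTE w s hs s' hs').trans ?_
    have h2 : (1 / 2 : ℝ) ^ q * 2 ^ q = 1 := by rw [← mul_pow]; norm_num
    calc 2 * (1 / (32 * (l:ℝ))) + 2 * ((1 / 2) ^ q / (32 * (l:ℝ))) * M / A.card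
        = 2 * (1 / (32 * (l:ℝ))) + 2 * ((1 / 2) ^ q / (32 * (l:ℝ))) * (M / A.card) := by ring
      _ ≤ 2 * (1 / (32 * (l:ℝ))) + 2 * ((1 / 2) ^ q / (32 * (l:ℝ))) * 2 ^ q := by gcongr
      _ = 2 * (1 / (32 * (l:ℝ))) + 2 * (1 / (32 * (l:ℝ))) * ((1 / 2) ^ q * 2 ^ q) := by ring
      _ = 1 / (8 * l) := by rw [h2]; field_simp; norm_num
  obtain ⟨Λ, hΛc, hΛ⟩ := chang hTm
  -- the number of frequencies of `Λ`
  have hm8 : 8 * m + 1 ≤ 2 ^ 16 * l ^ 4 := by
    have h1 : 1 ≤ l ^ 4 := Nat.one_le_pow _ _ (by omega)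
    have h3 : q * l ^ 3 ≤ l ^ 4 := by
      calc q * l ^ 3 ≤ l * l ^ 3 := Nat.mul_le_mul_right _ (by omega)
        _ = l ^ 4 := by ring
    have h4 : 8 * m + 1 = 49152 * (q * l ^ 3) + 9 := by rw [hm, hk]; ring
    rw [h4]
    calc 49152 * (q * l ^ 3) + 9 ≤ 49152 * l ^ 4 + 9 * l ^ 4 := by
          apply Nat.add_le_add
          · exact Nat.mul_le_mul_left _ h3
          · omega
      _ ≤ 2 ^ 16 * l ^ 4 := by
          rw [← add_mul]
          exact Nat.mul_le_mul_right _ (by norm_num)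
  refine ⟨(Λ ×ˢ range (10 * l)).image (fun p => 2 ^ p.2 * p.1), ?_, ?_⟩
  · calc ((Λ ×ˢ range (10 * l)).image (fun p : ZMod M × ℕ => 2 ^ p.2 * p.1)).card
        ≤ (Λ ×ˢ range (10 * l)).card := card_image_le
      _ = Λ.card * (10 * l) := by rw [card_product, card_range]
      _ ≤ (2 ^ 16 * l ^ 4) * (10 * l) := Nat.mul_le_mul_right _ (by omega)
      _ = 655360 * l ^ 5 := by ring
      _ ≤ 2 ^ 20 * l ^ 5 := Nat.mul_le_mul_right _ (by norm_num)
      _ = rk q := by unfold rk; rw [hl]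
  · intro x hx
    -- the elements of `Λ`
    obtain ⟨n, hn⟩ : ∃ n : ℕ, n + 1 = 10 * l := ⟨10 * l - 1, by omega⟩
    have hdy : ∀ i ∈ Λ, 4 * 2 ^ n * |(i * x).valMinAbs| ≤ M := by
      intro i hi
      apply dyadic
      intro j hj
      have h1 := hx (2 ^ j * i) (by
        rw [mem_image]
        exact ⟨(i, j), mem_product.2 ⟨hi, mem_range.2 (by omega)⟩, rfl⟩)
      rw [mul_assoc] at h1
      exact h1
    obtain ⟨r, hr⟩ : ∃ r : ℤ, r = (M : ℤ) / (4 * 2 ^ n) := ⟨_, rfl⟩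
    have h4n : (0:ℤ) < 4 * 2 ^ n := by positivity
    have hr0 : 0 ≤ r := by rw [hr]; exact Int.ediv_nonneg (by positivity) h4n.le
    have hrM : 4 * 2 ^ n * r ≤ M := by
      rw [hr]; exact Int.mul_ediv_self_le h4n.ne'
    have hri : ∀ i ∈ Λ, |(i * x).valMinAbs| ≤ r := by
      intro i hi
      rw [hr, Int.le_ediv_iff_mul_le h4n]
      have := hdy i hi
      linarith
    have hsp := hΛ x r hr0 hri
    -- the characters of the large spectrum
    have hη : ∀ ξ : ZMod M, (T.card : ℝ) ^ 2 ≤ 4 * F2 T ξ →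
        ‖ZMod.stdAddChar (N := M) (ξ * x) - 1‖ ≤ (1 / 2) ^ q / 4 := by
      intro ξ hξ
      refine (char_sub_one_le _).trans ?_
      have h1 := hsp ξ hξ
      have h2 : (2:ℝ) ^ (q + 5) * |((ξ * x).valMinAbs : ℝ)| ≤ M := by
        have h3 : (2:ℤ) ^ (q + 5) * |(ξ * x).valMinAbs| ≤ M := by
          have h5 : (2:ℤ) ^ (q + 5) * (8 * m + 1) ≤ 4 * 2 ^ n := by
            have h6 : 2 ^ (q + 5) * (8 * m + 1) ≤ 4 * 2 ^ n := by
              have h7 : l ^ 4 ≤ 2 ^ (4 * l) := by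
                rw [mul_comm 4 l, pow_mul]
                exact Nat.pow_le_pow_left (Nat.lt_two_pow_self (n := l)).le 4
              calc 2 ^ (q + 5) * (8 * m + 1) ≤ 2 ^ (q + 5) * (2 ^ 16 * 2 ^ (4 * l)) :=
                    Nat.mul_le_mul_left _ (hm8.trans (Nat.mul_le_mul_left _ h7))
                _ = 2 ^ (q + 5 + (16 + 4 * l)) := by rw [pow_add 2 (q + 5), pow_add 2 16]
                _ ≤ 2 ^ (2 + n) := Nat.pow_le_pow_right (by norm_num) (by omega)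
                _ = 4 * 2 ^ n := by rw [pow_add]; norm_num
            exact_mod_cast h6
          calc (2:ℤ) ^ (q + 5) * |(ξ * x).valMinAbs|
              ≤ (2:ℤ) ^ (q + 5) * ((8 * m + 1) * r) := by gcongr
            _ = ((2:ℤ) ^ (q + 5) * (8 * m + 1)) * r := by ring
            _ ≤ (4 * 2 ^ n) * r := by gcongr
            _ ≤ M := hrM
        exact_mod_cast h3
      have hpi : 2 * Real.pi ≤ 8 := by linarith [Real.pi_le_four]
      have h6 : (2:ℝ) ^ (q + 5) = 32 * 2 ^ q := by rw [pow_add]; norm_num; ring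
      rw [h6] at h2
      have h7 : (1 / 2 : ℝ) ^ q = 1 / 2 ^ q := by rw [one_div, one_div, inv_pow]
      rw [h7, div_le_iff₀ hM]
      have h8 : (0:ℝ) < 2 ^ q := by positivity
      calc 2 * Real.pi * |((ξ * x).valMinAbs : ℝ)| ≤ 8 * |((ξ * x).valMinAbs : ℝ)| := by gcongr
        _ = (1 / 2 ^ q / 4) * (32 * 2 ^ q * |((ξ * x).valMinAbs : ℝ)|) := by
            field_simp
            ring
        _ ≤ (1 / 2 ^ q / 4) * M := by gcongr
    have hvar := iter_var hA hTne hf0 hf1 l (η := (1 / 2) ^ q / 4) (by positivity) x hη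
    have hvar' : ((1 / 2 : ℝ) ^ q / 4 + 2 * (1 / 4) ^ l) * (M / A.card) ≤ 1 / 2 := by
      refine le_trans ?_ (main_eta hl)
      gcongr
    have hcl : ∀ y : ZMod M, |(sm T)^[l] (dbl A f) y - dbl A f y| ≤ 1 / 8 := by
      intro y
      refine (iter_close hTne hE l y).trans (le_of_eq ?_)
      field_simp
    have h00 : dbl A f 0 = 1 := by
      unfold dbl
      have : ∀ x ∈ A, avg A f (x + 0) = 1 := by
        intro x hx
        unfold avg
        have h1 : ∀ a ∈ A, f (x + 0 + a) = 1 := by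
          intro a ha
          rw [hf]
          simp only
          rw [if_pos]
          exact ⟨x, hx, a, ha, by ring⟩
        rw [sum_congr rfl h1, sum_const, nsmul_eq_mul, mul_one, div_self hc.ne']
      rw [sum_congr rfl this, sum_const, nsmul_eq_mul, mul_one, div_self hc.ne']
    have hpos : 0 < dbl A f x := by
      have a1 := abs_le.1 (hcl x)
      have a2 := abs_le.1 (hcl 0)
      have a3 := abs_le.1 (hvar.trans hvar')
      rw [h00] at a2
      linarith [a1.1, a1.2, a2.1, a2.2, a3.1, a3.2]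
    have h1 : 0 < ∑ x' ∈ A, avg A f (x' + x) := by
      by_contra hcon
      have : dbl A f x ≤ 0 := by
        unfold dbl
        exact div_nonpos_of_nonpos_of_nonneg (not_lt.1 hcon) hc.le
      linarith
    obtain ⟨c, hcA, hc1⟩ := exists_lt_of_sum_lt (f := fun _ => (0:ℝ)) (by simpa using h1)
    have h2 : 0 < ∑ a ∈ A, f (c + x + a) := by
      by_contra hcon
      have : avg A f (c + x) ≤ 0 := by
        unfold avg
        exact div_nonpos_of_nonpos_of_nonneg (not_lt.1 hcon) hc.le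
      linarith
    obtain ⟨d, hdA, hd1⟩ := exists_lt_of_sum_lt (f := fun _ => (0:ℝ)) (by simpa using h2)
    rw [hf] at hd1
    simp only at hd1
    by_cases hex : ∃ a ∈ A, ∃ b ∈ A, c + x + d = a + b
    · obtain ⟨a, ha, b, hb, hab⟩ := hex
      refine ⟨a, ha, b, hb, c, hcA, d, hdA, ?_⟩
      rw [← hab]
      ring
    · rw [if_neg hex] at hd1
      exact absurd hd1 (lt_irrefl _)

/-- the same in terms of boxes, with a prescribed number of frequencies -/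
theorem bogo_box_cs {M : ℕ} [NeZero M] (A : Finset (ZMod M)) (q r : ℕ) (hq : M ≤ 2 ^ q * A.card)
    (hr : rk q ≤ r) :
    ∃ ξ : Fin r → ℤ, ∀ n ∈ Box M ξ (1 / 4),
      ∃ a ∈ A, ∃ b ∈ A, ∃ c ∈ A, ∃ d ∈ A, ((n 0 : ℤ) : ZMod M) = a + b - c - d := by
  classical
  obtain ⟨Γ, hcard, hΓ⟩ := bogolyubov_cs A q hq
  have hM : (0 : ℝ) < M := by exact_mod_cast Nat.pos_of_ne_zero (NeZero.ne M)
  have hcr : Γ.card ≤ r := hcard.trans hr
  refine ⟨fun i => if h : (i : ℕ) < Γ.card then (((Γ.equivFin.symm ⟨i, h⟩ : Γ) : ZMod M).val : ℤ) else 0,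
    fun n hn => hΓ _ (fun γ hγ => ?_)⟩
  set j : Fin Γ.card := Γ.equivFin ⟨γ, hγ⟩ with hj
  have hjr : (j : ℕ) < r := lt_of_lt_of_le j.2 hcr
  have h1 := hn (Fin.succ ⟨j, hjr⟩)
  rw [lf_succ_idx] at h1
  have h2 : (j : ℕ) < Γ.card := j.2
  simp only [h2, dif_pos] at h1
  have h3 : Γ.equivFin.symm ⟨(j : ℕ), h2⟩ = ⟨γ, hγ⟩ := by
    rw [Equiv.symm_apply_eq]
  rw [h3] at h1
  set m : ℤ := n (Fin.succ ⟨(j : ℕ), hjr⟩) with hm
  set y : ℤ := (γ.val : ℤ) * n 0 - M * m with hy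
  have hyz : (((γ * ((n 0 : ℤ) : ZMod M)).valMinAbs : ℤ) : ZMod M) = (y : ZMod M) := by
    rw [ZMod.coe_valMinAbs, hy]
    push_cast
    rw [ZMod.natCast_zmod_val, ZMod.natCast_self, zero_mul, sub_zero]
  have hmin := ZMod.natAbs_min_of_le_div_two M _ y hyz (ZMod.natAbs_valMinAbs_le _)
  have hmin' : |(γ * ((n 0 : ℤ) : ZMod M)).valMinAbs| ≤ |y| := by
    rw [Int.abs_eq_natAbs, Int.abs_eq_natAbs]
    exact_mod_cast hmin
  have hy4 : 4 * |y| ≤ M := by
    have h4 : |(y : ℝ)| ≤ M / 4 := by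
      have e : (y : ℝ) = M * ((n 0 : ℝ) * ((γ.val : ℤ) : ℝ) / M - m) := by
        rw [hy]
        push_cast
        field_simp
      rw [e, abs_mul, abs_of_pos hM]
      calc (M : ℝ) * |(n 0 : ℝ) * ((γ.val : ℤ) : ℝ) / M - m| ≤ M * (1 / 4) :=
            mul_le_mul_of_nonneg_left h1 hM.le
        _ = M / 4 := by ring
    have h5 : (4 : ℝ) * |(y : ℝ)| ≤ M := by linarith
    exact_mod_cast h5
  linarith

end Pool.Agent.MPac5134.CS
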