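import Pool.Agent.Lib.MP_ac5134_an.AddQ1
import Pool.Agent.Lib.MP_ac5134_an.CS.Main

/-!
Elementary bounds for the quasi-polynomial version: the constants for the rank `2^20 (q + 4)^5 + 1`.
-/

namespace Pool.Agent.MPac5134.CS

open Pool.Agent.MPac5134

/-- `(c y)^(c y²)` is absorbed by `exp (δ x)` when `y ≤ c' x^(5/11)`. -/
theorem tower_bound_cs {c c' δ : ℝ} (hc : 1 ≤ c) (hc' : 0 ≤ c') (hδ : 0 < δ) :
    ∃ C : ℝ, 0 < C ∧ ∀ x : ℝ, 1 ≤ x → ∀ y : ℝ, 1 ≤ y → y ≤ c' * x ^ ((5:ℝ) / 11) →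
      (c * y) ^ (c * y ^ 2) ≤ C * Real.exp (δ * x) := by
  obtain ⟨C, hC0, hC⟩ := absorb (c := c * (c ^ ((1:ℝ)/10) * 10) * c' ^ ((21:ℝ)/10))
    (b := (105:ℝ)/110) (by positivity) (by norm_num) (by norm_num) hδ
  refine ⟨Real.exp C, Real.exp_pos C, ?_⟩
  intro x hx y hy hyx
  have hx0 : 0 < x := by linarith
  have hy0 : 0 < y := by linarith
  have hcy : 0 < c * y := by positivity
  rw [← Real.exp_add, Real.rpow_def_of_pos hcy, Real.exp_le_exp]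
  have h1 : Real.log (c * y) ≤ (c * y) ^ ((1:ℝ)/10) / (1/10) :=
    Real.log_le_rpow_div hcy.le (by norm_num)
  have h2 : (c * y) ^ ((1:ℝ)/10) / (1/10) = c ^ ((1:ℝ)/10) * 10 * y ^ ((1:ℝ)/10) := by
    rw [Real.mul_rpow (by linarith) hy0.le]; ring
  rw [h2] at h1
  have h3 : y ^ ((1:ℝ)/10) * y ^ 2 = y ^ ((21:ℝ)/10) := by
    rw [← Real.rpow_natCast y 2, ← Real.rpow_add hy0]; norm_num
  have h4 : y ^ ((21:ℝ)/10) ≤ c' ^ ((21:ℝ)/10) * x ^ ((105:ℝ)/110) := by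
    calc y ^ ((21:ℝ)/10) ≤ (c' * x ^ ((5:ℝ) / 11)) ^ ((21:ℝ)/10) :=
          Real.rpow_le_rpow hy0.le hyx (by norm_num)
      _ = c' ^ ((21:ℝ)/10) * x ^ ((105:ℝ)/110) := by
          rw [Real.mul_rpow hc' (by positivity), ← Real.rpow_mul hx0.le]
          norm_num
  calc Real.log (c * y) * (c * y ^ 2)
      ≤ (c ^ ((1:ℝ)/10) * 10 * y ^ ((1:ℝ)/10)) * (c * y ^ 2) := by gcongr
    _ = c * (c ^ ((1:ℝ)/10) * 10) * (y ^ ((1:ℝ)/10) * y ^ 2) := by ring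
    _ = c * (c ^ ((1:ℝ)/10) * 10) * y ^ ((21:ℝ)/10) := by rw [h3]
    _ ≤ c * (c ^ ((1:ℝ)/10) * 10) * (c' ^ ((21:ℝ)/10) * x ^ ((105:ℝ)/110)) := by gcongr
    _ = c * (c ^ ((1:ℝ)/10) * 10) * c' ^ ((21:ℝ)/10) * x ^ ((105:ℝ)/110) := by ring
    _ ≤ δ * x + C := hC x hx0.le
    _ = C + δ * x := by ring

/-- Products of powers of one base: the bound for all constants together. -/
theorem const_bound_cs {a₀ s F cc k : ℝ} (ha : 1 ≤ a₀) (hs : 0 ≤ s) (hF : 1 ≤ F) (hcc : 0 ≤ cc)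
    (hk : 1 ≤ k) :
    ∃ c : ℝ, 1 ≤ c ∧ ∀ (D q : ℕ), 1 ≤ D → 6 * D ^ 12 ≤ 2 ^ q →
      ∀ (R : ℕ), R = rk q + 1 → ∀ (J A : ℝ),
      J = (D:ℝ) ^ 5 * (8 * (R:ℝ)) ^ R → A = 4 ^ R * (D:ℝ) ^ 12 →
      s * ((a₀ * (R + 2)) ^ (a₀ * ((R:ℝ) + 1) ^ 2) * F ^ R * (J * A * cc + k)) * J ≤
        (c * ((R:ℝ) + 2)) ^ (c * ((R:ℝ) + 2) ^ 2) := by
  obtain ⟨c, hc⟩ : ∃ c : ℝ, c = 8 + a₀ + s + F + cc + k + 50 := ⟨_, rfl⟩
  refine ⟨c, by linarith, ?_⟩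
  intro D q hD hDq R hR J A hJ hA
  have hD' : (1:ℝ) ≤ D := by exact_mod_cast hD
  have hR1 : 1 ≤ R := by omega
  have hR' : (1:ℝ) ≤ R := by exact_mod_cast hR1
  have hqR : q ≤ R := by
    rw [hR]
    unfold rk
    calc q ≤ q + 4 := by omega
      _ = (q + 4) ^ 1 := (pow_one _).symm
      _ ≤ (q + 4) ^ 5 := Nat.pow_le_pow_right (by omega) (by norm_num)
      _ ≤ 2 ^ 20 * (q + 4) ^ 5 := Nat.le_mul_of_pos_left _ (by norm_num)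
      _ ≤ _ := by omega
  obtain ⟨t, ht⟩ : ∃ t : ℝ, t = c * (R + 2) := ⟨_, rfl⟩
  have hy3 : (3:ℝ) ≤ R + 2 := by linarith
  have hc0 : 0 ≤ c := by linarith
  have hct : c ≤ t := by rw [ht]; nlinarith
  have ht2 : 2 ≤ t := by linarith
  have ht1 : 1 ≤ t := by linarith
  have ht0 : 0 < t := by linarith
  have h2t : (2:ℝ) ^ q ≤ t ^ R := by
    calc (2:ℝ) ^ q ≤ t ^ q := pow_le_pow_left₀ (by norm_num) ht2 q
      _ ≤ t ^ R := pow_le_pow_right₀ ht1 hqR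
  have hD12 : (D:ℝ) ^ 12 ≤ t ^ R := by
    refine le_trans ?_ h2t
    have h1 : (6 * D ^ 12 : ℝ) ≤ 2 ^ q := by exact_mod_cast hDq
    have h2 : (0:ℝ) ≤ (D:ℝ) ^ 12 := by positivity
    linarith
  have hD5 : (D:ℝ) ^ 5 ≤ t ^ R := (pow_le_pow_right₀ hD' (by norm_num)).trans hD12
  have h8R : 8 * (R:ℝ) ≤ t := by rw [ht]; nlinarith
  have hst : s ≤ t := by linarith
  have hFt : F ≤ t := by linarith
  have hcct : cc ≤ t := by linarith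
  have hkt : k ≤ t := by linarith
  have h4t : (4:ℝ) ≤ t := by linarith
  have hJ1 : 1 ≤ J := by
    rw [hJ]
    exact one_le_mul_of_one_le_of_one_le (one_le_pow₀ hD') (one_le_pow₀ (by linarith))
  have hJt : J ≤ t ^ (2 * R) := by
    rw [hJ, two_mul, pow_add t R R]
    exact mul_le_mul hD5 (pow_le_pow_left₀ (by positivity) h8R R) (by positivity) (by positivity)
  have hAt : A ≤ t ^ (2 * R) := by
    rw [hA, two_mul, pow_add t R R]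
    exact mul_le_mul (pow_le_pow_left₀ (by norm_num) h4t R) hD12 (by positivity) (by positivity)
  have hA0 : 0 ≤ A := by rw [hA]; positivity
  have hEt : J * A * cc + k ≤ t ^ (4 * R + 2) := by
    have h1 : J * A * cc ≤ t ^ (4 * R + 1) := by
      calc J * A * cc ≤ t ^ (2 * R) * t ^ (2 * R) * t := by gcongr
        _ = t ^ (4 * R + 1) := by ring
    have h2 : k ≤ t ^ (4 * R + 1) := by
      refine hkt.trans ?_
      calc t = t ^ 1 := (pow_one t).symm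
        _ ≤ t ^ (4 * R + 1) := pow_le_pow_right₀ ht1 (by omega)
    calc J * A * cc + k ≤ 2 * t ^ (4 * R + 1) := by linarith
      _ ≤ t * t ^ (4 * R + 1) := by gcongr
      _ = _ := by ring
  have hFR : F ^ R ≤ t ^ R := pow_le_pow_left₀ (by linarith) hFt R
  have haR : (a₀ * ((R:ℝ) + 2)) ^ (a₀ * ((R:ℝ) + 1) ^ 2) ≤ t ^ (a₀ * ((R:ℝ) + 1) ^ 2) := by
    apply Real.rpow_le_rpow (by positivity) _ (by positivity)
    rw [ht]
    have : a₀ ≤ c := by linarith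
    gcongr
  have hJAk : 0 ≤ J * A * cc + k := by positivity
  have hexp : a₀ * ((R:ℝ) + 1) ^ 2 + ((1 + R + (4 * R + 2) + 2 * R : ℕ) : ℝ) ≤
      c * ((R:ℝ) + 2) ^ 2 := by
    push_cast
    have h1 : (1 + (R:ℝ) + (4 * R + 2) + 2 * R) ≤ 50 * (R + 2) ^ 2 := by nlinarith
    have h2 : a₀ * ((R:ℝ) + 1) ^ 2 ≤ a₀ * (R + 2) ^ 2 := by gcongr; linarith
    have h3 : (a₀ + 50) * ((R:ℝ) + 2) ^ 2 ≤ c * (R + 2) ^ 2 := by
      apply mul_le_mul_of_nonneg_right _ (by positivity)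
      linarith
    linarith
  calc s * ((a₀ * (R + 2)) ^ (a₀ * ((R:ℝ) + 1) ^ 2) * F ^ R * (J * A * cc + k)) * J
      ≤ t * (t ^ (a₀ * ((R:ℝ) + 1) ^ 2) * t ^ R * t ^ (4 * R + 2)) * t ^ (2 * R) := by
        gcongr
    _ = t ^ (a₀ * ((R:ℝ) + 1) ^ 2) * t ^ (1 + R + (4 * R + 2) + 2 * R) := by
        rw [pow_add t (1 + R + (4 * R + 2)) (2 * R), pow_add t (1 + R) (4 * R + 2),
          pow_add t 1 R, pow_one]
        ring
    _ = t ^ (a₀ * ((R:ℝ) + 1) ^ 2 + ((1 + R + (4 * R + 2) + 2 * R : ℕ) : ℝ)) := by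
        rw [Real.rpow_add ht0, Real.rpow_natCast]
    _ ≤ t ^ (c * ((R:ℝ) + 2) ^ 2) := Real.rpow_le_rpow_of_exponent_le ht1 hexp
    _ = _ := by rw [ht]

/-- the integers `D` and `q` for the doubling `exp (B x^(1/11))` -/
theorem exists_param {B x : ℝ} (hB : 1 ≤ B) (hx : 1 ≤ x) :
    ∃ D q : ℕ, 1 ≤ D ∧ Real.exp (B * x ^ ((1:ℝ) / 11)) ≤ D ∧ 6 * D ^ 12 ≤ 2 ^ q ∧
      ((rk q + 1 : ℕ) : ℝ) + 2 ≤ 2 ^ 21 * (24 * B + 27) ^ 5 * x ^ ((5:ℝ) / 11) := by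
  have hx0 : 0 < x := by linarith
  obtain ⟨z, hz⟩ : ∃ z : ℝ, z = x ^ ((1:ℝ) / 11) := ⟨_, rfl⟩
  have hz1 : 1 ≤ z := by rw [hz]; exact Real.one_le_rpow hx (by norm_num)
  rw [← hz]
  have hBz : 1 ≤ B * z := one_le_mul_of_one_le_of_one_le hB hz1
  have hL1 : 1 ≤ Real.exp (B * z) := Real.one_le_exp (by linarith)
  refine ⟨⌈Real.exp (B * z)⌉₊, ⌈(24 * B + 22) * z⌉₊, Nat.one_le_ceil_iff.mpr (by linarith),
    Nat.le_ceil _, ?_, ?_⟩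
  · have h1 : ((⌈Real.exp (B * z)⌉₊ : ℕ) : ℝ) ≤ 2 * Real.exp (B * z) := by
      have := (Nat.ceil_lt_add_one (by linarith : 0 ≤ Real.exp (B * z))).le
      linarith
    have h2 : (6:ℝ) * ((⌈Real.exp (B * z)⌉₊ : ℕ) : ℝ) ^ 12 ≤ 2 ^ ⌈(24 * B + 22) * z⌉₊ := by
      have h3 : (6:ℝ) * (2 * Real.exp (B * z)) ^ 12 ≤ Real.exp (11 + 12 * (B * z)) := by
        have h4 : (6:ℝ) * 2 ^ 12 ≤ Real.exp 11 := by
          have h5 : (2.7:ℝ) ≤ Real.exp 1 := by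
            have := Real.exp_one_gt_d9
            linarith
          calc (6:ℝ) * 2 ^ 12 ≤ 2.7 ^ 11 := by norm_num
            _ ≤ Real.exp 1 ^ 11 := by gcongr
            _ = Real.exp 11 := by rw [← Real.exp_nat_mul]; norm_num
        calc (6:ℝ) * (2 * Real.exp (B * z)) ^ 12 = (6 * 2 ^ 12) * Real.exp (B * z) ^ 12 := by
              rw [mul_pow]; ring
          _ ≤ Real.exp 11 * Real.exp (B * z) ^ 12 := by gcongr
          _ = Real.exp (11 + 12 * (B * z)) := by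
              rw [Real.exp_add, ← Real.exp_nat_mul]; norm_num
      have h6 : Real.exp (11 + 12 * (B * z)) ≤ 2 ^ ⌈(24 * B + 22) * z⌉₊ := by
        have h7 : (1:ℝ) / 2 ≤ Real.log 2 := by have := Real.log_two_gt_d9; linarith
        have h8 := Nat.le_ceil ((24 * B + 22) * z)
        have h9 : (2:ℝ) ^ ⌈(24 * B + 22) * z⌉₊ =
            Real.exp (⌈(24 * B + 22) * z⌉₊ * Real.log 2) := by
          rw [Real.exp_nat_mul, Real.exp_log (by norm_num)]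
        rw [h9, Real.exp_le_exp]
        calc 11 + 12 * (B * z) ≤ ((24 * B + 22) * z) * (1 / 2) := by nlinarith
          _ ≤ _ := by gcongr
      refine le_trans ?_ (h3.trans h6)
      gcongr
    exact_mod_cast h2
  · have h1 : ((⌈(24 * B + 22) * z⌉₊ : ℕ) : ℝ) + 4 ≤ (24 * B + 27) * z := by
      have := (Nat.ceil_lt_add_one (by positivity : 0 ≤ (24 * B + 22) * z)).le
      nlinarith
    have h2 : (1:ℝ) ≤ (((⌈(24 * B + 22) * z⌉₊ : ℕ) : ℝ) + 4) ^ 5 :=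
      one_le_pow₀ (by
        have : (0:ℝ) ≤ ((⌈(24 * B + 22) * z⌉₊ : ℕ) : ℝ) := Nat.cast_nonneg _
        linarith)
    have h3 : z ^ 5 = x ^ ((5:ℝ) / 11) := by
      rw [hz, ← Real.rpow_natCast, ← Real.rpow_mul hx0.le]
      norm_num
    unfold rk
    push_cast
    calc (1048576:ℝ) * (((⌈(24 * B + 22) * z⌉₊ : ℕ) : ℝ) + 4) ^ 5 + 1 + 2
        ≤ 2 ^ 21 * (((⌈(24 * B + 22) * z⌉₊ : ℕ) : ℝ) + 4) ^ 5 := by linarith
      _ ≤ 2 ^ 21 * ((24 * B + 27) * z) ^ 5 := by gcongr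
      _ = 2 ^ 21 * (24 * B + 27) ^ 5 * x ^ ((5:ℝ) / 11) := by rw [mul_pow, h3]; ring

theorem exists_param' {B : ℝ} (hB : 1 ≤ B) :
    ∃ c' : ℝ, 0 ≤ c' ∧ ∀ x : ℝ, 1 ≤ x → ∃ D q : ℕ, 1 ≤ D ∧
      Real.exp (B * x ^ ((1:ℝ) / 11)) ≤ D ∧ 6 * D ^ 12 ≤ 2 ^ q ∧
      ((rk q + 1 : ℕ) : ℝ) + 2 ≤ c' * x ^ ((5:ℝ) / 11) :=
  ⟨2 ^ 21 * (24 * B + 27) ^ 5, by positivity, fun _ hx => exists_param hB hx⟩

end Pool.Agent.MPac5134.CS
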