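import Pool.Agent.Lib.MP_ac5134_an.KM.Core
import Pool.Agent.Lib.MP_ac5134_an.CS.Blich

/-!
# The weak type bound for the number of lattice points, with a good dependence on the multiplicity `E₀`
-/

set_option autoImplicit false

namespace Pool.Agent.MPac5134.Lat

open Matrix Polynomial MeasureTheory

/-- The weak type bound, with a constant that is explicit in the rank and proportional to
`(E₀ + 1)^(1/d)`. -/
theorem core_explicit2 (d : ℕ) (hd : 1 ≤ d) {ε : ℝ} (hε : 0 < ε) : ∃ a₀ : ℝ, 1 ≤ a₀ ∧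
    ∀ (r : ℕ) (B E₀ : ℝ), 1 ≤ B → 0 ≤ E₀ →
    ∀ N : ℝ, 1 ≤ N → ∀ A : Matrix (Fin r) (Fin r) ℝ, A.PosDef → ∀ X₀ X₁ : Matrix (Fin d) (Fin r) ℝ,
    (∀ v : Fin r → ℝ, (X₁ *ᵥ v) ⬝ᵥ (X₁ *ᵥ v) ≤ 4 * N ^ 2 * (v ⬝ᵥ (A *ᵥ v))) →
    (∀ T : Finset (Fin r → ℤ), (∀ n ∈ T, qf (A + X₁ᵀ * X₁) n ≤ 1) → (T.card : ℝ) ≤ E₀) →
    ∀ a lam : ℝ, 0 < lam →
    volume {s : ℝ | s ∈ Set.Icc a (a + 1) ∧ ∃ T : Finset (Fin r → ℤ),
        (∀ n ∈ T, qf (formAt A X₀ X₁ s) n ≤ B) ∧ lam ≤ (T.card : ℝ)} ≤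
      ENNReal.ofReal (((a₀ * (r + 2)) ^ (a₀ * ((r : ℝ) + 1) ^ 2) * B ^ r *
        (E₀ + 1) ^ (1 / (d : ℝ))) * N ^ ε * lam ^ (-(1 / (d : ℝ)))) := by
  obtain ⟨cd₀, hcd₀, hsup₀⟩ := cov_sup d
  obtain ⟨A₀, hA₀, hnd⟩ := PolySys.nondiv_explicit.{0} (m := 2 * d) (by omega) hε
  set cd : ℝ := min cd₀ 1 with hcddef
  have hcd : 0 < cd := lt_min hcd₀ one_pos
  have hcd1 : cd ≤ 1 := min_le_right _ _
  have hcd₀' : cd ≤ cd₀ := min_le_left _ _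
  have hd0 : (0 : ℝ) < d := by exact_mod_cast hd
  refine ⟨A₀ + 4 + 81 * (3 / cd), by
    have : 0 < 3 / cd := by positivity
    linarith, ?_⟩
  intro r B E₀ hB hE N hN A hA X₀ X₁ h1 h2 a lam hlam
  have hr0 : (0 : ℝ) ≤ r := Nat.cast_nonneg r
  have h9 : (1 : ℝ) ≤ 9 ^ r := one_le_pow₀ (by norm_num)
  set cr0 : ℝ := (1 / (2 * (r : ℝ) + 1)) ^ r with hcr0def
  set cr : ℝ := (1 / ((r : ℝ) + 1)) ^ (2 * r) with hcrdef
  have hcr : 0 < cr := by positivity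
  set μ : ℝ := 1 / (E₀ + 1) ^ 2 with hμ
  have hE1 : 0 < E₀ + 1 := by positivity
  have hμ0 : 0 < μ := by positivity
  have hμ1 : μ ≤ 1 := by
    rw [hμ, div_le_one (by positivity)]
    exact one_le_pow₀ (by linarith)
  set ρ : ℝ := cd * (cr / (E₀ + 1) ^ 2) with hρ
  have hρ0 : 0 < ρ := by positivity
  have hN0 : 0 < N := by linarith
  have hqA : ∀ n, 0 ≤ qf A n := fun n => by
    have := hA.posSemidef.dotProduct_mulVec_nonneg (rv n)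
    simpa [qf] using this
  have hqs : ∀ n, qf (A + X₁ᵀ * X₁) n = qf A n + (X₁ *ᵥ rv n) ⬝ᵥ (X₁ *ᵥ rv n) := fun n => by
    rw [qf_add, qf_transpose_mul, dotProduct]
    congr 1
    exact Finset.sum_congr rfl fun i _ => by ring
  have hdp : ∀ x : Fin d → ℝ, 0 ≤ x ⬝ᵥ x := fun x => by
    rw [dotProduct]; exact Finset.sum_nonneg fun i _ => mul_self_nonneg _
  have hsh : ∀ v : Fin r → ℤ, v ≠ 0 → μ ≤ qf (A + X₁ᵀ * X₁) v := fun v hv => by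
    have h3 := short_of_card h2 (fun n => by rw [hqs]; exact add_nonneg (hqA n) (hdp _)) hv
    rwa [abs_of_nonneg hE] at h3
  have hsA : ∀ v : Fin r → ℤ, v ≠ 0 → μ / (5 * N ^ 2) ≤ qf A v := by
    intro v hv
    have h3 := hsh v hv
    rw [hqs] at h3
    have h4 := h1 (rv v)
    have h5 : qf A v = rv v ⬝ᵥ (A *ᵥ rv v) := rfl
    rw [← h5] at h4
    rw [div_le_iff₀ (by positivity)]
    have h6 : 1 ≤ N ^ 2 := one_le_pow₀ hN
    nlinarith [hqA v]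
  have hm1 : μ / (5 * N ^ 2) ≤ 1 := by
    rw [div_le_one (by positivity)]
    have h6 : 1 ≤ N ^ 2 := one_le_pow₀ hN
    linarith
  have hm0 : 0 < μ / (5 * N ^ 2) := by positivity
  -- the system
  obtain ⟨S, hS⟩ := exists_polySys hA X₀ X₁ (δ := cr0 * (μ / (5 * N ^ 2)) ^ r) (by positivity) (fun U s =>
    cov_lower (formAt_posDef hA X₀ X₁ s) hm0 hm1 (fun v hv => (hsA v hv).trans (qf_formAt_ge A X₀ X₁ s v)) _)
  have hA1 : (A + X₁ᵀ * X₁).PosDef := by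
    have h3 := formAt_posDef hA X₁ 0 0
    have h4 : formAt A X₁ 0 0 = A + X₁ᵀ * X₁ := by simp [formAt]
    rwa [h4] at h3
  have hρsup : ∀ U, ρ ≤ supOn (S.P U) a (a + 1) := by
    intro U
    obtain ⟨s, hs, h3⟩ := hsup₀ hA X₀ X₁ (lat U) a
    have h5 := cov_pos hA1 (lat U)
    have h4 : cr / (E₀ + 1) ^ 2 ≤ cov (A + X₁ᵀ * X₁) (lat U) := by
      rw [div_le_iff₀ (by positivity)]
      calc cr ≤ E₀ ^ 2 * cov (A + X₁ᵀ * X₁) (lat U) := cov_ge_of_card hA1 h2 (lat U)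
        _ ≤ (E₀ + 1) ^ 2 * cov (A + X₁ᵀ * X₁) (lat U) := by gcongr; linarith
        _ = _ := mul_comm _ _
    calc ρ ≤ cd₀ * cov (A + X₁ᵀ * X₁) (lat U) := by rw [hρ]; gcongr
      _ ≤ cov (formAt A X₀ X₁ s) (lat U) := h3
      _ = (S.P U).eval s := (hS U s).symm
      _ ≤ _ := le_supOn _ hs
  set η : ℝ := 9 ^ r * B ^ r / lam ^ 2 with hη
  have hη0 : 0 < η := by positivity
  have h5 := hnd r (9 ^ r) h9 _ S N hN (fun U s s' hss => by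
    rw [hS, hS]
    exact cov_slow hN hA X₀ X₁ h1 hss _) ρ a hρ0 hρsup η hη0
  refine (measure_mono ?_).trans (h5.trans (ENNReal.ofReal_le_ofReal ?_))
  · rintro s ⟨hs, T, hT, hlT⟩
    refine ⟨hs, ?_⟩
    obtain ⟨U, hU⟩ := card_le (formAt_posDef hA X₀ X₁ s) hB T hT
    refine ⟨U, ?_⟩
    rw [hS, hη, le_div_iff₀ (by positivity)]
    have h6 : lam ^ 2 ≤ (T.card : ℝ) ^ 2 := pow_le_pow_left₀ hlam.le hlT 2
    have h7 := cov_pos (formAt_posDef hA X₀ X₁ s) (lat U)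
    calc cov (formAt A X₀ X₁ s) (lat U) * lam ^ 2 ≤ cov (formAt A X₀ X₁ s) (lat U) * (T.card : ℝ) ^ 2 := by gcongr
      _ = (T.card : ℝ) ^ 2 * cov (formAt A X₀ X₁ s) (lat U) := mul_comm _ _
      _ ≤ _ := hU
  · have h6 : (η / ρ) ^ (1 / ((2 * d : ℕ) : ℝ)) =
        ((9 ^ r * B ^ r) / ρ) ^ (1 / ((2 * d : ℕ) : ℝ)) * lam ^ (-(1 / (d : ℝ))) := by
      have h7 : η / ρ = ((9 ^ r * B ^ r) / ρ) * (lam ^ 2)⁻¹ := by
        rw [hη]; field_simp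
      rw [h7, Real.mul_rpow (by positivity) (by positivity)]
      congr 1
      rw [← Real.rpow_natCast lam 2, ← Real.rpow_neg hlam.le, ← Real.rpow_mul hlam.le]
      congr 1
      push_cast
      field_simp
    rw [h6]
    -- the constant
    set Z1 : ℝ := 9 ^ r * B ^ r * (1 / cd) * ((r : ℝ) + 1) ^ (2 * r) with hZ1def
    have hZe : (9 ^ r * B ^ r) / ρ = Z1 * (E₀ + 1) ^ 2 := by
      rw [hρ, hcrdef, hZ1def, _root_.one_div_pow]
      field_simp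
    have hB1 : (1 : ℝ) ≤ B ^ r := one_le_pow₀ hB
    have hcd1' : 1 ≤ 1 / cd := by rw [le_div_iff₀ hcd]; linarith
    have hr1 : (1 : ℝ) ≤ ((r : ℝ) + 1) ^ (2 * r) := one_le_pow₀ (by linarith)
    have hZ1 : 1 ≤ Z1 :=
      one_le_mul_of_one_le_of_one_le (one_le_mul_of_one_le_of_one_le
        (one_le_mul_of_one_le_of_one_le h9 hB1) hcd1') hr1
    have hq1 : 1 / ((2 * d : ℕ) : ℝ) ≤ 1 := by
      have : (1 : ℝ) ≤ ((2 * d : ℕ) : ℝ) := by exact_mod_cast (by omega : 1 ≤ 2 * d)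
      rw [div_le_one (by linarith)]; exact this
    have hZle : ((9 ^ r * B ^ r) / ρ) ^ (1 / ((2 * d : ℕ) : ℝ)) ≤ Z1 * (E₀ + 1) ^ (1 / (d : ℝ)) := by
      rw [hZe, Real.mul_rpow (by linarith) (by positivity)]
      have e1 : ((E₀ + 1) ^ 2) ^ (1 / ((2 * d : ℕ) : ℝ)) = (E₀ + 1) ^ (1 / (d : ℝ)) := by
        rw [← Real.rpow_natCast (E₀ + 1) 2, ← Real.rpow_mul hE1.le]
        congr 1
        push_cast
        field_simp
      rw [e1]
      have e2 : Z1 ^ (1 / ((2 * d : ℕ) : ℝ)) ≤ Z1 := by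
        calc Z1 ^ (1 / ((2 * d : ℕ) : ℝ)) ≤ Z1 ^ (1 : ℝ) :=
              Real.rpow_le_rpow_of_exponent_le hZ1 hq1
          _ = Z1 := Real.rpow_one Z1
      gcongr
    set a₀ : ℝ := A₀ + 4 + 81 * (3 / cd) with ha₀
    have h3cd : 0 < 3 / cd := by positivity
    have hmain : 9 ^ r * (A₀ * (r + 2)) ^ (A₀ * ((r : ℝ) + 1) ^ 2) *
        (9 ^ r * (1 / cd) * ((r : ℝ) + 1) ^ (2 * r)) ≤
        (a₀ * (r + 2)) ^ (a₀ * ((r : ℝ) + 1) ^ 2) := by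
      have hY1 : 1 ≤ a₀ * ((r : ℝ) + 2) :=
        one_le_mul_of_one_le_of_one_le (by linarith) (by linarith)
      have e1 : (A₀ * ((r : ℝ) + 2)) ^ (A₀ * ((r : ℝ) + 1) ^ 2) ≤
          (a₀ * (r + 2)) ^ (A₀ * ((r : ℝ) + 1) ^ 2) := by
        apply Real.rpow_le_rpow (by positivity) _ (by positivity)
        have : A₀ ≤ a₀ := by linarith
        gcongr
      have e2 : (9 : ℝ) ^ r * (9 ^ r * (1 / cd) * ((r : ℝ) + 1) ^ (2 * r)) ≤
          (a₀ * (r + 2)) ^ (4 * ((r : ℝ) + 1) ^ 2) := by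
        have e3 : (1:ℝ) / cd ≤ a₀ * (r + 2) := by
          have e4 : 1 / cd ≤ 3 / cd := by gcongr; norm_num
          have e5 : 1 / cd ≤ a₀ := by linarith
          exact e5.trans (le_mul_of_one_le_right (by linarith) (by linarith))
        have e6 : (81 : ℝ) ^ r ≤ (a₀ * (r + 2)) ^ r := by
          apply pow_le_pow_left₀ (by norm_num)
          have e7 : (3:ℝ) ≤ 3 / cd := by rw [le_div_iff₀ hcd]; linarith
          have e8 : (81 : ℝ) ≤ a₀ := by linarith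
          exact e8.trans (le_mul_of_one_le_right (by linarith) (by linarith))
        have e9 : ((r : ℝ) + 1) ^ (2 * r) ≤ (a₀ * (r + 2)) ^ (2 * r) := by
          apply pow_le_pow_left₀ (by positivity)
          have : (1:ℝ) ≤ a₀ := by linarith
          nlinarith
        calc (9 : ℝ) ^ r * (9 ^ r * (1 / cd) * ((r : ℝ) + 1) ^ (2 * r))
            = 81 ^ r * ((1 / cd) * ((r : ℝ) + 1) ^ (2 * r)) := by
              rw [← mul_assoc, ← mul_assoc, ← mul_pow]; norm_num; ring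
          _ ≤ (a₀ * (r + 2)) ^ r * ((a₀ * (r + 2)) * (a₀ * (r + 2)) ^ (2 * r)) := by gcongr
          _ = (a₀ * (r + 2)) ^ (3 * r + 1) := by ring
          _ = (a₀ * (r + 2)) ^ ((3 * r + 1 : ℕ) : ℝ) := (Real.rpow_natCast _ _).symm
          _ ≤ (a₀ * (r + 2)) ^ (4 * ((r : ℝ) + 1) ^ 2) := by
            apply Real.rpow_le_rpow_of_exponent_le hY1
            push_cast
            nlinarith
      calc 9 ^ r * (A₀ * (r + 2)) ^ (A₀ * ((r : ℝ) + 1) ^ 2) *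
          (9 ^ r * (1 / cd) * ((r : ℝ) + 1) ^ (2 * r))
          = (A₀ * (r + 2)) ^ (A₀ * ((r : ℝ) + 1) ^ 2) *
            (9 ^ r * (9 ^ r * (1 / cd) * ((r : ℝ) + 1) ^ (2 * r))) := by ring
        _ ≤ (a₀ * (r + 2)) ^ (A₀ * ((r : ℝ) + 1) ^ 2) *
            (a₀ * (r + 2)) ^ (4 * ((r : ℝ) + 1) ^ 2) := by gcongr
        _ = (a₀ * (r + 2)) ^ ((A₀ + 4) * ((r : ℝ) + 1) ^ 2) := by
            rw [← Real.rpow_add (by positivity)]; congr 1; ring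
        _ ≤ _ := by
            apply Real.rpow_le_rpow_of_exponent_le hY1
            apply mul_le_mul_of_nonneg_right _ (by positivity)
            linarith
    have hlamp : 0 ≤ lam ^ (-(1 / (d : ℝ))) := by positivity
    calc 9 ^ r * (A₀ * (r + 2)) ^ (A₀ * ((r : ℝ) + 1) ^ 2) * N ^ ε *
          (((9 ^ r * B ^ r) / ρ) ^ (1 / ((2 * d : ℕ) : ℝ)) * lam ^ (-(1 / (d : ℝ))))
        ≤ 9 ^ r * (A₀ * (r + 2)) ^ (A₀ * ((r : ℝ) + 1) ^ 2) * N ^ ε *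
          ((Z1 * (E₀ + 1) ^ (1 / (d : ℝ))) * lam ^ (-(1 / (d : ℝ)))) := by gcongr
      _ = (9 ^ r * (A₀ * (r + 2)) ^ (A₀ * ((r : ℝ) + 1) ^ 2) *
          (9 ^ r * (1 / cd) * ((r : ℝ) + 1) ^ (2 * r))) * B ^ r *
            (E₀ + 1) ^ (1 / (d : ℝ)) * N ^ ε * lam ^ (-(1 / (d : ℝ))) := by rw [hZ1def]; ring
      _ ≤ _ := by gcongr

end Pool.Agent.MPac5134.Lat
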