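import Pool.Agent.Lib.MP_ac5134_an.CS.Weak

/-!
From the weak type estimate to the estimate at the exponent `1 + 1/d`.
-/

namespace Pool.Agent.MPac5134.CS

open MeasureTheory Matrix Pool.Agent.MPac5134
open scoped ENNReal Pointwise

variable {d : ℕ} {ι : Type*} [Fintype ι]

theorem crit_of_weak (hd : 0 < d) {N W : ℝ} (hN : 1 ≤ N) (hW : 0 ≤ W) (θ : ι → Cap d)
    (c : ι → Sp d) (hw : WeakBound N W θ c) :
    ∫⁻ x, ENNReal.ofReal (mult N θ c x ^ (1 + 1 / (d:ℝ))) ≤
      ENNReal.ofReal (16 * ((Nat.log 2 (Fintype.card ι) : ℕ) + 1) * W * N ^ (2 * d + 2)) := by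
  classical
  have hN0 : 0 < N := by linarith
  have hd1 : (1:ℝ) ≤ d := by exact_mod_cast hd
  have hd' : (0:ℝ) < d := by linarith
  obtain ⟨p, hp⟩ : ∃ p : ℝ, p = 1 + 1 / (d:ℝ) := ⟨_, rfl⟩
  rw [← hp]
  have hp1 : 1 ≤ p := by
    have : 0 < 1 / (d:ℝ) := by positivity
    linarith
  have hp2 : p ≤ 2 := by
    have : 1 / (d:ℝ) ≤ 1 := by rw [div_le_one hd']; exact hd1
    linarith
  obtain ⟨m, hm⟩ : ∃ m : ℕ, m = Nat.log 2 (Fintype.card ι) := ⟨_, rfl⟩
  rw [← hm]
  have hmeas : ∀ k : ℕ, MeasurableSet {x : Sp d | (2:ℝ) ^ k / 2 < mult N θ c x} := fun k =>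
    measurableSet_lt measurable_const (measurable_mult N θ c)
  have hpt : ∀ x : Sp d, ENNReal.ofReal (mult N θ c x ^ p) ≤
      ∑ k ∈ Finset.range (m + 1), ENNReal.ofReal (((2:ℝ) ^ (k + 1)) ^ p) *
        {x : Sp d | (2:ℝ) ^ k / 2 < mult N θ c x}.indicator (fun _ => (1:ℝ≥0∞)) x := by
    intro x
    rcases (mult_nonneg N θ c x).eq_or_lt with h | h
    · rw [← h, Real.zero_rpow (by linarith), ENNReal.ofReal_zero]
      exact bot_le
    · have h1 := mult_ge_one h
      obtain ⟨n, hn⟩ : ∃ n : ℕ, n = ⌊mult N θ c x⌋₊ := ⟨_, rfl⟩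
      have hn1 : 1 ≤ n := by rw [hn]; exact Nat.le_floor (by simpa using h1)
      have hnle : (n:ℝ) ≤ mult N θ c x := by rw [hn]; exact Nat.floor_le h.le
      have hnlt : mult N θ c x < n + 1 := by rw [hn]; exact Nat.lt_floor_add_one _
      have hncard : n ≤ Fintype.card ι := by
        have := hnle.trans (mult_le_card N θ c x)
        exact_mod_cast this
      obtain ⟨k, hk⟩ : ∃ k : ℕ, k = Nat.log 2 n := ⟨_, rfl⟩
      have hkm : k ≤ m := by rw [hk, hm]; exact Nat.log_mono_right hncard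
      have h2k : (2:ℝ) ^ k ≤ mult N θ c x := by
        refine le_trans ?_ hnle
        have : 2 ^ k ≤ n := by rw [hk]; exact Nat.pow_log_le_self 2 (by omega)
        exact_mod_cast this
      have h2k1 : mult N θ c x ≤ (2:ℝ) ^ (k + 1) := by
        refine hnlt.le.trans ?_
        have : n + 1 ≤ 2 ^ (k + 1) := by
          rw [hk]; exact Nat.lt_pow_succ_log_self (by norm_num) n
        exact_mod_cast this
      have hmem : x ∈ {x : Sp d | (2:ℝ) ^ k / 2 < mult N θ c x} := by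
        have h3 : (0:ℝ) < 2 ^ k := by positivity
        show (2:ℝ) ^ k / 2 < mult N θ c x
        linarith
      refine le_trans ?_ (Finset.single_le_sum (f := fun k => ENNReal.ofReal
        (((2:ℝ) ^ (k + 1)) ^ p) * {x : Sp d | (2:ℝ) ^ k / 2 < mult N θ c x}.indicator
          (fun _ => (1:ℝ≥0∞)) x) (fun _ _ => bot_le) (Finset.mem_range.2 (by omega : k < m + 1)))
      rw [Set.indicator_of_mem hmem, mul_one]
      apply ENNReal.ofReal_le_ofReal
      exact Real.rpow_le_rpow h.le h2k1 (by linarith)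
  refine (lintegral_mono hpt).trans ?_
  rw [lintegral_finsetSum _ fun k _ => (measurable_const.indicator (hmeas k)).const_mul _]
  calc ∑ k ∈ Finset.range (m + 1), ∫⁻ x : Sp d, ENNReal.ofReal (((2:ℝ) ^ (k + 1)) ^ p) *
        {x : Sp d | (2:ℝ) ^ k / 2 < mult N θ c x}.indicator (fun _ => (1:ℝ≥0∞)) x
      ≤ ∑ _k ∈ Finset.range (m + 1), ENNReal.ofReal (16 * (W * N ^ (2 * d + 2))) := by
        refine Finset.sum_le_sum fun k _ => ?_
        rw [lintegral_const_mul' _ _ ENNReal.ofReal_ne_top,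
          lintegral_indicator_const (hmeas k), one_mul]
        have h2 : (0:ℝ) < 2 ^ k / 2 := by positivity
        refine (mul_le_mul' le_rfl (hw _ h2)).trans ?_
        rw [← ENNReal.ofReal_mul (by positivity)]
        apply ENNReal.ofReal_le_ofReal
        rw [← hp]
        have h3 : ((2:ℝ) ^ (k + 1)) ^ p * (2 ^ k / 2 : ℝ) ^ (-p) = 4 ^ p := by
          rw [Real.rpow_neg h2.le, ← div_eq_mul_inv, ← Real.div_rpow (by positivity) h2.le]
          congr 1
          rw [pow_succ]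
          field_simp
          norm_num
        have h4 : (4:ℝ) ^ p ≤ 16 := by
          calc (4:ℝ) ^ p ≤ 4 ^ (2:ℝ) := Real.rpow_le_rpow_of_exponent_le (by norm_num) hp2
            _ = 16 := by norm_num
        have h5 : 0 ≤ W * N ^ (2 * d + 2) := by positivity
        calc ((2:ℝ) ^ (k + 1)) ^ p * (W * N ^ (2 * d + 2) * (2 ^ k / 2) ^ (-p))
            = (((2:ℝ) ^ (k + 1)) ^ p * (2 ^ k / 2 : ℝ) ^ (-p)) * (W * N ^ (2 * d + 2)) := by ring
          _ = 4 ^ p * (W * N ^ (2 * d + 2)) := by rw [h3]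
          _ ≤ _ := by gcongr
    _ = _ := by
        rw [Finset.sum_const, Finset.card_range, nsmul_eq_mul, ← ENNReal.ofReal_natCast,
          ← ENNReal.ofReal_mul (by positivity)]
        congr 1
        push_cast
        ring

/-- the logarithm of the number of tubes -/
theorem log_card_le (K : ℕ) {δ : ℝ} (hδ : 0 < δ) : ∃ C : ℝ, 1 ≤ C ∧ ∀ N : ℝ, 1 ≤ N → ∀ n : ℕ,
    (n:ℝ) ≤ K * 5 ^ d * N ^ d → ((Nat.log 2 n : ℕ) : ℝ) + 1 ≤ C * N ^ δ := by
  refine ⟨1 + 2 * (K * 5 ^ d + d / δ), by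
    have h1 : (0:ℝ) ≤ d := Nat.cast_nonneg d
    have : 0 ≤ 2 * (K * 5 ^ d + d / δ) := by positivity
    linarith, ?_⟩
  intro N hN n hn
  have hN0 : 0 < N := by linarith
  have hNδ : 1 ≤ N ^ δ := Real.one_le_rpow hN hδ.le
  have hd0 : (0:ℝ) ≤ d := Nat.cast_nonneg d
  have hC0 : (0:ℝ) ≤ K * 5 ^ d := by positivity
  have hmain : ((Nat.log 2 n : ℕ) : ℝ) ≤ 2 * (K * 5 ^ d + d / δ) * N ^ δ := by
    rcases Nat.eq_zero_or_pos n with h0 | hpos
    · rw [h0]
      simp only [Nat.log_zero_right, Nat.cast_zero]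
      positivity
    · have h1 : 2 ^ Nat.log 2 n ≤ n := Nat.pow_log_le_self 2 (by omega)
      have h2 : (2:ℝ) ^ Nat.log 2 n ≤ K * 5 ^ d * N ^ d := by
        refine le_trans ?_ hn
        exact_mod_cast h1
      have hK0 : (0:ℝ) < K * 5 ^ d * N ^ d := lt_of_lt_of_le (by positivity) h2
      have hNd : 0 < N ^ d := by positivity
      have hKp : (0:ℝ) < K * 5 ^ d := by
        by_contra h
        have : (K:ℝ) * 5 ^ d * N ^ d ≤ 0 :=
          mul_nonpos_of_nonpos_of_nonneg (not_lt.1 h) hNd.le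
        linarith
      have h3 : ((Nat.log 2 n : ℕ) : ℝ) * Real.log 2 ≤ Real.log (K * 5 ^ d) + d * Real.log N := by
        rw [← Real.log_pow, ← Real.log_pow, ← Real.log_mul hKp.ne' hNd.ne']
        exact Real.log_le_log (by positivity) h2
      have h4 : Real.log (K * 5 ^ d) ≤ K * 5 ^ d := by
        have := Real.log_le_sub_one_of_pos hKp
        linarith
      have h5 : Real.log N ≤ N ^ δ / δ := Real.log_le_rpow_div hN0.le hδ
      have hl2 : (1:ℝ) / 2 ≤ Real.log 2 := by have := Real.log_two_gt_d9; linarith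
      have h6 : (0:ℝ) ≤ ((Nat.log 2 n : ℕ) : ℝ) := Nat.cast_nonneg _
      have h7 : ((Nat.log 2 n : ℕ) : ℝ) * (1 / 2) ≤ K * 5 ^ d * N ^ δ + d * (N ^ δ / δ) := by
        calc ((Nat.log 2 n : ℕ) : ℝ) * (1 / 2) ≤ ((Nat.log 2 n : ℕ) : ℝ) * Real.log 2 := by gcongr
          _ ≤ Real.log (K * 5 ^ d) + d * Real.log N := h3
          _ ≤ K * 5 ^ d + d * (N ^ δ / δ) := by gcongr
          _ ≤ _ := by nlinarith
      calc ((Nat.log 2 n : ℕ) : ℝ) = 2 * (((Nat.log 2 n : ℕ) : ℝ) * (1 / 2)) := by ring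
        _ ≤ 2 * (K * 5 ^ d * N ^ δ + d * (N ^ δ / δ)) := by gcongr
        _ = _ := by ring
  calc ((Nat.log 2 n : ℕ) : ℝ) + 1 ≤ 2 * (K * 5 ^ d + d / δ) * N ^ δ + N ^ δ := by linarith
    _ = _ := by ring

end Pool.Agent.MPac5134.CS
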