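import Pool.Agent.Lib.MP_ac5134_an.CS.Struct

/-!
Every family of tubes splits into a part for which the norm inequality holds and a part without
additive structure.
-/

namespace Pool.Agent.MPac5134.CS

open MeasureTheory Matrix Pool.Agent.MPac5134
open scoped ENNReal Pointwise

variable {d : ℕ}

theorem addEnergy_le {α : Type*} [DecidableEq α] [AddCommGroup α] (G : Finset α) :
    G.addEnergy G ≤ G.card ^ 3 := by
  classical
  unfold Finset.addEnergy
  have h : ((((G ×ˢ G) ×ˢ G ×ˢ G)).filter
      (fun x : (α × α) × α × α => x.1.1 + x.2.1 = x.1.2 + x.2.2)).card ≤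
      ((G ×ˢ G) ×ˢ G).card := by
    apply Finset.card_le_card_of_injOn (fun x => (x.1, x.2.1))
    · intro x hx
      have hx' := (Finset.mem_filter.1 hx).1
      rw [Finset.mem_product, Finset.mem_product] at hx'
      obtain ⟨h1, h2⟩ := hx'
      simp only [Finset.coe_product, Set.mem_prod, Finset.mem_coe]
      rw [Finset.mem_product] at h2
      exact ⟨h1, h2.1⟩
    · intro x hx y hy hxy
      have hx' := (Finset.mem_filter.1 hx).2
      have hy' := (Finset.mem_filter.1 hy).2
      simp only [Prod.mk.injEq] at hxy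
      obtain ⟨h1, h2⟩ := hxy
      rw [h1, h2] at hx'
      have h3 : x.2.2 = y.2.2 := by
        have := hx'.symm.trans hy'
        exact add_left_cancel this
      exact Prod.ext h1 (Prod.ext h2 h3)
  refine h.trans (le_of_eq ?_)
  rw [Finset.card_product, Finset.card_product]
  ring

theorem eLpNorm_one_tube {ι : Type*} {N : ℝ} (hN : 1 ≤ N) (θ : ι → Cap d) (c : ι → Sp d)
    (i : ι) (p : ℝ≥0∞) (hp : 1 ≤ p) :
    eLpNorm ((tube N (θ i) (c i)).indicator (fun _ => (1:ℝ))) p volume =
      eLpNorm ((tube N (θ i) 0).indicator (fun _ => (1:ℝ))) p volume := by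
  have hN0 : 0 ≤ N := by linarith
  have hp0 : p ≠ 0 := by
    intro h; rw [h] at hp; simp at hp
  by_cases hpt : p = ⊤
  · rw [hpt]
    have hne : ∀ c : Sp d, volume (tube N (θ i) c) ≠ 0 := by
      intro c
      rw [volume_tube hN0]
      rw [Ne, ENNReal.ofReal_eq_zero, not_le]
      positivity
    rw [eLpNorm_exponent_top, eLpNorm_exponent_top,
      eLpNormEssSup_indicator_const_eq _ _ (hne _), eLpNormEssSup_indicator_const_eq _ _ (hne _)]
  · rw [eLpNorm_indicator_const (measurableSet_tube _ _ _) hp0 hpt,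
      eLpNorm_indicator_const (measurableSet_tube _ _ _) hp0 hpt, volume_tube hN0, volume_tube hN0]

theorem multOn_insert_sum {ι : Type*} (S : Finset ι) (N : ℝ) (θ : ι → Cap d) (c : ι → Sp d) :
    multOn S N θ c = ∑ i ∈ S, (tube N (θ i) (c i)).indicator (fun _ => (1:ℝ)) := by
  funext x
  unfold multOn
  rw [Finset.sum_apply]

/-- the trivial estimate -/
theorem trivial_norm {ι : Type*} [Fintype ι] {N : ℝ} (hN : 1 ≤ N) (θ : ι → Cap d) (c : ι → Sp d)
    (S : Finset ι) (p : ℝ≥0∞) (hp : 1 ≤ p) :
    eLpNorm (multOn S N θ c) p volume ≤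
      ENNReal.ofReal (Fintype.card ι) * eLpNorm (mult N θ (fun _ => 0)) p volume := by
  rw [multOn_insert_sum]
  refine (eLpNorm_sum_le (fun i _ => (measurable_const.indicator
    (measurableSet_tube _ _ _)).aestronglyMeasurable) hp).trans ?_
  calc ∑ i ∈ S, eLpNorm ((tube N (θ i) (c i)).indicator (fun _ => (1:ℝ))) p volume
      ≤ ∑ _i ∈ S, eLpNorm (mult N θ (fun _ => 0)) p volume := by
        refine Finset.sum_le_sum fun i _ => ?_
        rw [eLpNorm_one_tube hN θ c i p hp]
        apply eLpNorm_mono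
        intro x
        have h0 : 0 ≤ (tube N (θ i) 0).indicator (fun _ => (1:ℝ)) x :=
          Set.indicator_nonneg (fun _ _ => zero_le_one) _
        rw [Real.norm_of_nonneg h0, Real.norm_of_nonneg (mult_nonneg N θ _ x)]
        unfold mult
        exact Finset.single_le_sum (f := fun i => (tube N (θ i) 0).indicator (fun _ => (1:ℝ)) x)
          (fun i _ => Set.indicator_nonneg (fun _ _ => zero_le_one) _) (Finset.mem_univ i)
    _ = (S.card : ℝ≥0∞) * eLpNorm (mult N θ (fun _ => 0)) p volume := by
        rw [Finset.sum_const, nsmul_eq_mul]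
    _ ≤ _ := by
        refine mul_le_mul' ?_ le_rfl
        rw [ENNReal.ofReal_natCast]
        exact_mod_cast S.card_le_univ

theorem multOn_union {ι : Type*} [DecidableEq ι] {S S' : Finset ι} (h : Disjoint S S') (N : ℝ)
    (θ : ι → Cap d) (c : ι → Sp d) :
    multOn (S ∪ S') N θ c = multOn S N θ c + multOn S' N θ c := by
  funext x
  unfold multOn
  rw [Finset.sum_union h]
  rfl

theorem measurable_multOn {ι : Type*} (S : Finset ι) (N : ℝ) (θ : ι → Cap d) (c : ι → Sp d) :
    Measurable (multOn S N θ c) := by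
  unfold multOn
  refine Finset.measurable_sum S fun i _ => ?_
  exact (measurable_const (a := (1:ℝ))).indicator (measurableSet_tube _ _ _)

/-- the greedy decomposition -/
theorem greedy {ι : Type*} [Fintype ι] {N : ℝ} (θ : ι → Cap d) (c : ι → Sp d)
    {A thr X : ℝ} (hA : 0 ≤ A) (hthr : 0 < thr) (hX : (Fintype.card ι : ℝ) ≤ X * thr)
    (P : Finset ι → Prop)
    (hP : ∀ S, P S → ∀ p : ℝ≥0∞, 1 ≤ p → eLpNorm (multOn S N θ c) p volume ≤
      ENNReal.ofReal A * eLpNorm (mult N θ (fun _ => 0)) p volume) :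
    ∃ S : Finset ι, (∀ p : ℝ≥0∞, 1 ≤ p → eLpNorm (multOn S N θ c) p volume ≤
      ENNReal.ofReal (X * A) * eLpNorm (mult N θ (fun _ => 0)) p volume) ∧
      ∀ S' : Finset ι, Disjoint S S' → P S' → (S'.card : ℝ) ≤ thr := by
  classical
  obtain ⟨Q, hQ⟩ : ∃ Q : Finset ι → Prop, Q = fun S => ∃ j : ℕ, j * thr ≤ S.card ∧
    ∀ p : ℝ≥0∞, 1 ≤ p → eLpNorm (multOn S N θ c) p volume ≤
      ENNReal.ofReal (j * A) * eLpNorm (mult N θ (fun _ => 0)) p volume := ⟨_, rfl⟩
  obtain ⟨S, hS, hmax⟩ := Finset.exists_max_image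
    ((Finset.univ : Finset (Finset ι)).filter Q) Finset.card ⟨∅, by
      rw [Finset.mem_filter]
      refine ⟨Finset.mem_univ _, ?_⟩
      rw [hQ]
      refine ⟨0, by simp, fun p _ => ?_⟩
      have : multOn (∅ : Finset ι) N θ c = 0 := by
        funext x
        unfold multOn
        simp
      rw [this]
      simp⟩
  have hQS : Q S := (Finset.mem_filter.1 hS).2
  rw [hQ] at hQS
  obtain ⟨j, hj, hjp⟩ := hQS
  refine ⟨S, ?_, ?_⟩
  · intro p hp
    refine (hjp p hp).trans (mul_le_mul' (ENNReal.ofReal_le_ofReal ?_) le_rfl)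
    have h1 : (j:ℝ) * thr ≤ X * thr := by
      refine hj.trans (le_trans ?_ hX)
      exact_mod_cast S.card_le_univ
    have h2 : (j:ℝ) ≤ X := le_of_mul_le_mul_right h1 hthr
    gcongr
  · intro S' hdis hPS'
    by_contra hcon
    rw [not_le] at hcon
    have hcardU : (S ∪ S').card = S.card + S'.card := Finset.card_union_of_disjoint hdis
    have hS'pos : 0 < S'.card := by
      have : (0:ℝ) < S'.card := hthr.trans hcon
      exact_mod_cast this
    have hQ' : Q (S ∪ S') := by
      rw [hQ]
      refine ⟨j + 1, ?_, fun p hp => ?_⟩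
      · rw [hcardU]
        push_cast
        linarith
      · rw [multOn_union hdis]
        refine (eLpNorm_add_le (measurable_multOn _ _ _ _).aestronglyMeasurable
          (measurable_multOn _ _ _ _).aestronglyMeasurable hp).trans ?_
        have h1 := hjp p hp
        have h2 := hP S' hPS' p hp
        calc eLpNorm (multOn S N θ c) p volume + eLpNorm (multOn S' N θ c) p volume
            ≤ ENNReal.ofReal (j * A) * eLpNorm (mult N θ (fun _ => 0)) p volume +
              ENNReal.ofReal A * eLpNorm (mult N θ (fun _ => 0)) p volume := add_le_add h1 h2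
          _ = ENNReal.ofReal (((j + 1 : ℕ) : ℝ) * A) *
              eLpNorm (mult N θ (fun _ => 0)) p volume := by
              rw [← add_mul, ← ENNReal.ofReal_add (by positivity) hA]
              congr 2
              push_cast
              ring
    have h3 := hmax (S ∪ S') (Finset.mem_filter.2 ⟨Finset.mem_univ _, hQ'⟩)
    omega

end Pool.Agent.MPac5134.CS
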