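import Pool.Agent.Lib.MP_ac5134_an.CS.Main
import Pool.Agent.Lib.MP_ac5134_an.FR.Final

/-!
# Freiman's theorem with quasi-polynomial bounds, with a positive definite form on `ℤ^R`
-/

open Finset Matrix
open scoped Pointwise

namespace Pool.Agent.MPac5134.CS

open Pool.Agent.MPac5134.Lat Pool.Agent.MPac5134.FR

private theorem finalcs_plu {H : Type} [DecidableEq H] [AddCommGroup H] (G : Finset H)
    (hG : G.Nonempty) (D : ℕ) (hD : (G + G).card ≤ D * G.card) (m n : ℕ) :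
    (m • G - n • G).card ≤ D ^ (m + n) * G.card := by
  have h1 := pluennecke_ruzsa_inequality_nsmul_sub_nsmul_add hG G m n
  have hpos : (0 : ℚ≥0) < (G.card : ℚ≥0) := by exact_mod_cast hG.card_pos
  have h2 : ((G + G).card : ℚ≥0) / (G.card : ℚ≥0) ≤ (D : ℚ≥0) := by
    rw [div_le_iff₀ hpos]
    exact_mod_cast hD
  have h3 : ((m • G - n • G).card : ℚ≥0) ≤ (D : ℚ≥0) ^ (m + n) * (G.card : ℚ≥0) := by
    refine h1.trans ?_
    gcongr
  exact_mod_cast h3

private theorem finalcs_two {H : Type} [DecidableEq H] [AddCommGroup H] (G : Finset H) {a b : H}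
    (ha : a ∈ G) (hb : b ∈ G) : a + b ∈ 2 • G := by
  rw [two_nsmul]
  exact Finset.add_mem_add ha hb

/-- Freiman's theorem with rank `2^20 (q + 4)^5 + 1` when `6 D^12 ≤ 2^q`. -/
theorem freiman_cs (D q : ℕ) (hDq : 6 * D ^ 12 ≤ 2 ^ q) {σ : Type} [Fintype σ] [DecidableEq σ]
    (G : Finset (σ → ℤ)) (hG : G.Nonempty) (hD : (G + G).card ≤ D * G.card) :
    ∃ (Q : Matrix (Fin (rk q + 1)) (Fin (rk q + 1)) ℝ)
      (Ψ : Matrix σ (Fin (rk q + 1)) ℝ) (X : Finset (σ → ℤ)),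
      Q.PosDef ∧ X.card ≤ D ^ 5 * (8 * (rk q + 1)) ^ (rk q + 1) ∧
      (∀ g ∈ G, ∃ x ∈ X, ∃ n : Fin (rk q + 1) → ℤ, qf Q n ≤ 1 ∧
        ∀ i, (g i : ℝ) = x i + (Ψ *ᵥ rv n) i) ∧
      ∀ T : Finset (Fin (rk q + 1) → ℤ), (∀ n ∈ T, qf Q n ≤ 4) →
        (T.card : ℝ) ≤ 4 ^ (rk q + 1) * (D : ℝ) ^ 12 * G.card := by
  classical
  set r : ℕ := rk q with hr
  set K : ℕ := 8 * (r + 1) with hK
  have hGpos : 0 < G.card := hG.card_pos
  set M : ℕ := (6 • G - 6 • G).card with hM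
  have hMle : M ≤ D ^ 12 * G.card := finalcs_plu G hG D hD 6 6
  have hGM : G.card ≤ M := by
    refine (card_le_card_nsmul (n := 6) (by norm_num)).trans ?_
    refine card_le_card_sub_right ?_
    exact hG.nsmul
  have hM1 : 1 ≤ M := hGpos.trans_le hGM
  have : NeZero M := ⟨by omega⟩
  obtain ⟨G', hG'G, hGG', π, hπ⟩ := model G hG M le_rfl
  have hG'pos : 0 < G'.card := by omega
  have hG'ne : G'.Nonempty := Finset.card_pos.1 hG'pos
  have hinj : Set.InjOn π G' := by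
    intro x hx y hy hxy
    have h1 := (hπ (fun _ => x) (fun _ => y) (fun _ => hx) (fun _ => hy)).2 (by rw [hxy])
    funext i
    have h2 := congrFun h1 i
    simp only [Finset.sum_const, Finset.card_univ, Fintype.card_fin, Pi.smul_apply] at h2
    simpa using h2
  set A₀ : Finset (ZMod M) := G'.image π with hA₀
  have hA₀card : A₀.card = G'.card := Finset.card_image_of_injOn hinj
  have hA₀ne : A₀.Nonempty := hG'ne.image π
  have hMq : M ≤ 2 ^ q * A₀.card := by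
    calc M ≤ D ^ 12 * G.card := hMle
      _ ≤ D ^ 12 * (6 * G'.card) := Nat.mul_le_mul_left _ hGG'
      _ = (6 * D ^ 12) * A₀.card := by rw [hA₀card]; ring
      _ ≤ 2 ^ q * A₀.card := Nat.mul_le_mul_right _ hDq
  obtain ⟨ξ, hξ⟩ := bogo_box_cs A₀ q r hMq le_rfl
  have hB : ∀ n ∈ Box M ξ (1 / 4), ∃ a ∈ G', ∃ b ∈ G', ∃ c ∈ G', ∃ d ∈ G',
      ((n 0 : ℤ) : ZMod M) = π a + π b - π c - π d := by
    intro n hn
    obtain ⟨a, ha, b, hb, c, hc, d, hd, h⟩ := hξ n hn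
    obtain ⟨a', ha', rfl⟩ := Finset.mem_image.1 ha
    obtain ⟨b', hb', rfl⟩ := Finset.mem_image.1 hb
    obtain ⟨c', hc', rfl⟩ := Finset.mem_image.1 hc
    obtain ⟨d', hd', rfl⟩ := Finset.mem_image.1 hd
    exact ⟨a', ha', b', hb', c', hc', d', hd', h⟩
  obtain ⟨θ, hθ, hθval, hθinj⟩ := local_hom G' π hπ hB
  obtain ⟨Ψ, hΨ⟩ := extend hM1 hθ
  obtain ⟨Q, hQpos, hQ1, hQ4⟩ := exists_Q hM1 ξ
  have hK1 : 1 ≤ K := by omega
  obtain ⟨T, hTne, hTbox, hTcard, hTinj⟩ := bohr_lower hM1 hK1 ξ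
  have hKR : ((K : ℕ) : ℝ) = 8 * (r + 1) := by
    rw [hK]
    push_cast
    ring
  have hr0 : (0 : ℝ) ≤ r := Nat.cast_nonneg r
  have hKle : (1 : ℝ) / K ≤ 1 / 4 := by
    rw [hKR]
    apply one_div_le_one_div_of_le (by norm_num)
    linarith
  have h2K : (1 : ℝ) / K + 1 / K = 1 / (4 * (r + 1)) := by
    rw [hKR]
    field_simp
    norm_num
  have hsmall : (1 : ℝ) / (4 * (r + 1)) ≤ 1 / 4 := by
    apply one_div_le_one_div_of_le (by norm_num)
    linarith
  have hT4 : ∀ n ∈ T, n ∈ Box M ξ (1 / 4) := fun n hn => Box.mono hKle (hTbox n hn)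
  set P : Finset (σ → ℤ) := T.image θ with hP
  have hPcard : P.card = T.card := by
    apply Finset.card_image_of_injOn
    intro n hn n' hn' h
    exact hTinj n hn n' hn' (hθinj n (hT4 n hn) n' (hT4 n' hn') h)
  have hPne : P.Nonempty := hTne.image θ
  have hPsub : P ⊆ 2 • G - 2 • G := by
    intro z hz
    obtain ⟨n, hn, rfl⟩ := Finset.mem_image.1 hz
    obtain ⟨a, ha, b, hb, c, hc, d, hd, h⟩ := hθval n (hT4 n hn)
    rw [h]
    have h1 : a + b - c - d = (a + b) - (c + d) := by abel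
    rw [h1]
    exact Finset.sub_mem_sub (finalcs_two G (hG'G ha) (hG'G hb)) (finalcs_two G (hG'G hc) (hG'G hd))
  have hGPsub : G + P ⊆ 3 • G - 2 • G := by
    have h0 : 3 • G = G + 2 • G := succ_nsmul' G 2
    have h1 : G + (2 • G - 2 • G) = 3 • G - 2 • G := by
      rw [h0, add_sub_assoc]
    rw [← h1]
    exact Finset.add_subset_add_left hPsub
  have hGPcard : ((G + P).card : ℝ) ≤ ((D ^ 5 * K ^ (r + 1) : ℕ) : ℝ) * P.card := by
    have h1 : (G + P).card ≤ D ^ 5 * G.card :=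
      (Finset.card_le_card hGPsub).trans (finalcs_plu G hG D hD 3 2)
    have h2 : (G + P).card ≤ D ^ 5 * K ^ (r + 1) * P.card := by
      calc (G + P).card ≤ D ^ 5 * G.card := h1
        _ ≤ D ^ 5 * (T.card * K ^ (r + 1)) := Nat.mul_le_mul_left _ (hGM.trans hTcard)
        _ = D ^ 5 * K ^ (r + 1) * P.card := by rw [hPcard]; ring
    exact_mod_cast h2
  obtain ⟨X, _, hXcard, hXcov⟩ := ruzsa_covering_add hPne hGPcard
  refine ⟨Q, Ψ, X, hQpos, by exact_mod_cast hXcard, ?_, ?_⟩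
  · intro g hg
    obtain ⟨x, hx, y, hy, hxy⟩ := Finset.mem_add.1 (hXcov hg)
    obtain ⟨p, hp, p', hp', hpp⟩ := Finset.mem_sub.1 hy
    obtain ⟨n, hn, rfl⟩ := Finset.mem_image.1 hp
    obtain ⟨n', hn', rfl⟩ := Finset.mem_image.1 hp'
    have hbox : n - n' ∈ Box M ξ (1 / (4 * (r + 1))) := by
      have h1 := Box.add (hTbox n hn) (Box.neg (hTbox n' hn'))
      rw [h2K, ← sub_eq_add_neg] at h1
      exact h1
    have hadd : θ n = θ n' + θ (n - n') := by
      have h1 : n' + (n - n') = n := by abel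
      have h2 := hθ n' (n - n') (hT4 n' hn') (Box.mono hsmall hbox) (by rw [h1]; exact hT4 n hn)
      rw [h1] at h2
      exact h2
    refine ⟨x, hx, n - n', hQ1 _ hbox, fun i => ?_⟩
    rw [hΨ _ hbox i, ← hxy, ← hpp, hadd]
    simp only [Pi.add_apply, Pi.sub_apply]
    push_cast
    ring
  · intro S hS
    have h1 := box_card_le hM1 ξ (t := 1) le_rfl S fun n hn => hQ4 n (hS n hn)
    refine h1.trans ?_
    rw [mul_one]
    calc (4 : ℝ) ^ (r + 1) * M ≤ 4 ^ (r + 1) * ((D : ℝ) ^ 12 * G.card) := by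
          apply mul_le_mul_of_nonneg_left _ (by positivity)
          exact_mod_cast hMle
      _ = 4 ^ (r + 1) * (D : ℝ) ^ 12 * G.card := by ring

end Pool.Agent.MPac5134.CS
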