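import Mathlib

/-!
# Hoeffding's inequality on a power of a finite set
-/

open Finset

namespace Pool.Agent.MPac5134.CS

theorem exp_le_cosh {θ y : ℝ} (hy : |y| ≤ 1) :
    Real.exp (θ * y) ≤ Real.cosh θ + y * Real.sinh θ := by
  obtain ⟨h1, h2⟩ := abs_le.mp hy
  have h := convexOn_exp.2 (Set.mem_univ θ) (Set.mem_univ (-θ))
    (show 0 ≤ (1 + y) / 2 by linarith) (show 0 ≤ (1 - y) / 2 by linarith)
    (show (1 + y) / 2 + (1 - y) / 2 = 1 by ring)
  simp only [smul_eq_mul] at h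
  have e : (1 + y) / 2 * θ + (1 - y) / 2 * -θ = θ * y := by ring
  rw [e] at h
  rw [Real.cosh_eq, Real.sinh_eq]
  linarith

theorem mgf_le {α : Type*} (A : Finset α) (g : α → ℝ) (hg : ∀ a ∈ A, |g a| ≤ 1)
    (h0 : ∑ a ∈ A, g a = 0) (θ : ℝ) :
    ∑ a ∈ A, Real.exp (θ * g a) ≤ A.card * Real.exp (θ ^ 2 / 2) := by
  calc ∑ a ∈ A, Real.exp (θ * g a) ≤ ∑ a ∈ A, (Real.cosh θ + g a * Real.sinh θ) :=
        sum_le_sum fun a ha => exp_le_cosh (hg a ha)
    _ = A.card * Real.cosh θ := by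
        rw [sum_add_distrib, sum_const, nsmul_eq_mul, ← sum_mul, h0, zero_mul, add_zero]
    _ ≤ A.card * Real.exp (θ ^ 2 / 2) := by
        gcongr
        exact Real.cosh_le_exp_half_sq θ

theorem mgf_pow {α : Type*} [DecidableEq α] (A : Finset α) (g : α → ℝ) (θ : ℝ) (k : ℕ) :
    ∑ a ∈ Fintype.piFinset (fun _ : Fin k => A), Real.exp (θ * ∑ i, g (a i)) =
      (∑ a ∈ A, Real.exp (θ * g a)) ^ k := by
  have h := Finset.prod_univ_sum (fun _ : Fin k => A) (fun _ a => Real.exp (θ * g a))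
  rw [prod_const, card_univ, Fintype.card_fin] at h
  rw [h]
  refine sum_congr rfl fun a _ => ?_
  rw [mul_sum, Real.exp_sum]

private theorem hoeff_one {α : Type*} [DecidableEq α] (A : Finset α) (g : α → ℝ)
    (hg : ∀ a ∈ A, |g a| ≤ 1) (h0 : ∑ a ∈ A, g a = 0) (k : ℕ) {u : ℝ} (hu : 0 ≤ u) :
    ((((Fintype.piFinset (fun _ : Fin k => A)).filter
      (fun a => u * k ≤ ∑ i, g (a i))).card : ℕ) : ℝ) ≤
      (A.card : ℝ) ^ k * Real.exp (-(k * u ^ 2 / 2)) := by
  have h1 : ((((Fintype.piFinset (fun _ : Fin k => A)).filter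
      (fun a => u * k ≤ ∑ i, g (a i))).card : ℕ) : ℝ) * Real.exp (u * (u * k)) ≤
      ((A.card : ℝ) * Real.exp (u ^ 2 / 2)) ^ k := by
    calc ((((Fintype.piFinset (fun _ : Fin k => A)).filter
          (fun a => u * k ≤ ∑ i, g (a i))).card : ℕ) : ℝ) * Real.exp (u * (u * k))
        = ∑ a ∈ (Fintype.piFinset (fun _ : Fin k => A)).filter
          (fun a => u * k ≤ ∑ i, g (a i)), Real.exp (u * (u * k)) := by
            rw [sum_const, nsmul_eq_mul]
      _ ≤ ∑ a ∈ (Fintype.piFinset (fun _ : Fin k => A)).filter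
          (fun a => u * k ≤ ∑ i, g (a i)), Real.exp (u * ∑ i, g (a i)) := by
            refine sum_le_sum fun a ha => ?_
            have := (mem_filter.1 ha).2
            gcongr
      _ ≤ ∑ a ∈ Fintype.piFinset (fun _ : Fin k => A), Real.exp (u * ∑ i, g (a i)) :=
            sum_le_sum_of_subset_of_nonneg (filter_subset _ _) fun _ _ _ => (Real.exp_pos _).le
      _ = (∑ a ∈ A, Real.exp (u * g a)) ^ k := mgf_pow A g u k
      _ ≤ ((A.card : ℝ) * Real.exp (u ^ 2 / 2)) ^ k :=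
            pow_le_pow_left₀ (sum_nonneg fun _ _ => (Real.exp_pos _).le) (mgf_le A g hg h0 u) k
  have h2 : ((A.card : ℝ) * Real.exp (u ^ 2 / 2)) ^ k =
      ((A.card : ℝ) ^ k * Real.exp (-(k * u ^ 2 / 2))) * Real.exp (u * (u * k)) := by
    rw [mul_pow, ← Real.exp_nat_mul, mul_assoc, ← Real.exp_add]
    congr 2
    ring
  rw [h2] at h1
  exact le_of_mul_le_mul_right h1 (Real.exp_pos _)

/-- Hoeffding's inequality for sampling with replacement from a finite set. -/
theorem hoeffding {α : Type*} [DecidableEq α] (A : Finset α) (g : α → ℝ)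
    (hg : ∀ a ∈ A, |g a| ≤ 1) (h0 : ∑ a ∈ A, g a = 0) (k : ℕ) {u : ℝ} (hu : 0 ≤ u) :
    ((((Fintype.piFinset (fun _ : Fin k => A)).filter
      (fun a => u * k < |∑ i, g (a i)|)).card : ℕ) : ℝ) ≤
      2 * (A.card : ℝ) ^ k * Real.exp (-(k * u ^ 2 / 2)) := by
  have h1 := hoeff_one A g hg h0 k hu
  have h2 := hoeff_one A (fun a => -g a) (fun a ha => by rw [abs_neg]; exact hg a ha)
    (by rw [sum_neg_distrib, h0, neg_zero]) k hu
  have hsub : (Fintype.piFinset (fun _ : Fin k => A)).filter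
      (fun a => u * k < |∑ i, g (a i)|) ⊆
      (Fintype.piFinset (fun _ : Fin k => A)).filter (fun a => u * k ≤ ∑ i, g (a i)) ∪
      (Fintype.piFinset (fun _ : Fin k => A)).filter (fun a => u * k ≤ ∑ i, -g (a i)) := by
    intro a ha
    rw [mem_filter] at ha
    rw [mem_union, mem_filter, mem_filter]
    rcases lt_abs.1 ha.2 with h | h
    · exact Or.inl ⟨ha.1, h.le⟩
    · refine Or.inr ⟨ha.1, ?_⟩
      rw [sum_neg_distrib]
      exact h.le
  have h3 := (card_le_card hsub).trans (card_union_le _ _)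
  have h4 : ((((Fintype.piFinset (fun _ : Fin k => A)).filter
      (fun a => u * k < |∑ i, g (a i)|)).card : ℕ) : ℝ) ≤
      ((((Fintype.piFinset (fun _ : Fin k => A)).filter
      (fun a => u * k ≤ ∑ i, g (a i))).card : ℕ) : ℝ) +
      ((((Fintype.piFinset (fun _ : Fin k => A)).filter
      (fun a => u * k ≤ ∑ i, -g (a i))).card : ℕ) : ℝ) := by exact_mod_cast h3
  linarith

end Pool.Agent.MPac5134.CS
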