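import Pool.Agent.Lib.MP_ac5134_an.CS.Hoeff

/-!
# Croot–Sisask almost periods in `ZMod M`

`F x = (1/#A) ∑ a ∈ A, f (x + a)` for `0 ≤ f ≤ 1`.  Most `a ∈ A^k` are good: `(1/k) ∑ i, f (x + a i)` is
within `u` of `F x` for all but `δ M` of the `x`.  Some translate of the diagonal meets the good set in a
large set `T`, and `F (x + s)`, `F (x + s')` are within `2 u` of each other for all but `2 δ M` of the `x`,
for all `s, s' ∈ T`.
-/

open Finset

namespace Pool.Agent.MPac5134.CS

/-- `∑ a ∈ A, f (x + a) / #A` -/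
noncomputable def avg {M : ℕ} (A : Finset (ZMod M)) (f : ZMod M → ℝ) (x : ZMod M) : ℝ :=
  (∑ a ∈ A, f (x + a)) / A.card

theorem avg_nonneg {M : ℕ} (A : Finset (ZMod M)) {f : ZMod M → ℝ} (hf : ∀ x, 0 ≤ f x)
    (x : ZMod M) : 0 ≤ avg A f x :=
  div_nonneg (sum_nonneg fun _ _ => hf _) (Nat.cast_nonneg _)

theorem avg_le_one {M : ℕ} {A : Finset (ZMod M)} (hA : A.Nonempty) {f : ZMod M → ℝ}
    (hf : ∀ x, f x ≤ 1) (x : ZMod M) : avg A f x ≤ 1 := by
  have hc : (0:ℝ) < A.card := by exact_mod_cast hA.card_pos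
  unfold avg
  rw [div_le_one hc]
  calc ∑ a ∈ A, f (x + a) ≤ ∑ _a ∈ A, (1:ℝ) := sum_le_sum fun _ _ => hf _
    _ = A.card := by simp

open Classical in
/-- the exceptional set of a sample -/
noncomputable def badSet {M : ℕ} [NeZero M] (A : Finset (ZMod M)) (f : ZMod M → ℝ) (k : ℕ) (u : ℝ)
    (a : Fin k → ZMod M) : Finset (ZMod M) :=
  univ.filter (fun x => u * k < |∑ i, (f (x + a i) - avg A f x)|)

theorem mem_badSet {M : ℕ} [NeZero M] {A : Finset (ZMod M)} {f : ZMod M → ℝ} {k : ℕ} {u : ℝ}
    {a : Fin k → ZMod M} {x : ZMod M} :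
    x ∈ badSet A f k u a ↔ u * k < |∑ i, (f (x + a i) - avg A f x)| := by
  classical
  unfold badSet
  rw [mem_filter]
  simp

theorem sum_badSet {M : ℕ} [NeZero M] {A : Finset (ZMod M)} (hA : A.Nonempty) {f : ZMod M → ℝ}
    (hf0 : ∀ x, 0 ≤ f x) (hf1 : ∀ x, f x ≤ 1) (k : ℕ) {u : ℝ} (hu : 0 ≤ u) :
    ∑ a ∈ Fintype.piFinset (fun _ : Fin k => A), ((badSet A f k u a).card : ℝ) ≤
      M * (2 * (A.card : ℝ) ^ k * Real.exp (-(k * u ^ 2 / 2))) := by
  classical
  have hc : (0:ℝ) < A.card := by exact_mod_cast hA.card_pos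
  have h1 : ∑ a ∈ Fintype.piFinset (fun _ : Fin k => A), ((badSet A f k u a).card : ℝ) =
      ∑ x : ZMod M, ((((Fintype.piFinset (fun _ : Fin k => A)).filter
        (fun a => u * k < |∑ i, (f (x + a i) - avg A f x)|)).card : ℕ) : ℝ) := by
    have e1 : ∀ a : Fin k → ZMod M, ((badSet A f k u a).card : ℝ) =
        ∑ x : ZMod M, if u * k < |∑ i, (f (x + a i) - avg A f x)| then (1:ℝ) else 0 := by
      intro a
      rw [Finset.sum_boole]
      unfold badSet
      congr 2
    have e2 : ∀ x : ZMod M, ((((Fintype.piFinset (fun _ : Fin k => A)).filter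
        (fun a => u * k < |∑ i, (f (x + a i) - avg A f x)|)).card : ℕ) : ℝ) =
        ∑ a ∈ Fintype.piFinset (fun _ : Fin k => A),
          if u * k < |∑ i, (f (x + a i) - avg A f x)| then (1:ℝ) else 0 := by
      intro x
      rw [Finset.sum_boole]
    simp only [e1, e2]
    rw [sum_comm]
  rw [h1]
  calc ∑ x : ZMod M, ((((Fintype.piFinset (fun _ : Fin k => A)).filter
        (fun a => u * k < |∑ i, (f (x + a i) - avg A f x)|)).card : ℕ) : ℝ)
      ≤ ∑ _x : ZMod M, 2 * (A.card : ℝ) ^ k * Real.exp (-(k * u ^ 2 / 2)) := by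
        refine sum_le_sum fun x _ => ?_
        refine hoeffding A (fun a => f (x + a) - avg A f x) ?_ ?_ k hu
        · intro a _
          have h2 := hf0 (x + a)
          have h3 := hf1 (x + a)
          have h4 := avg_nonneg A hf0 x
          have h5 := avg_le_one hA hf1 x
          rw [abs_le]
          constructor <;> linarith
        · rw [sum_sub_distrib, sum_const, nsmul_eq_mul]
          unfold avg
          rw [mul_div_cancel₀ _ hc.ne', sub_self]
    _ = M * (2 * (A.card : ℝ) ^ k * Real.exp (-(k * u ^ 2 / 2))) := by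
        rw [sum_const, card_univ, ZMod.card, nsmul_eq_mul]

open Classical in
/-- the good samples -/
noncomputable def good {M : ℕ} [NeZero M] (A : Finset (ZMod M)) (f : ZMod M → ℝ) (k : ℕ)
    (u δ : ℝ) : Finset (Fin k → ZMod M) :=
  (Fintype.piFinset (fun _ : Fin k => A)).filter (fun a => ((badSet A f k u a).card : ℝ) ≤ δ * M)

theorem card_good {M : ℕ} [NeZero M] {A : Finset (ZMod M)} (hA : A.Nonempty) {f : ZMod M → ℝ}
    (hf0 : ∀ x, 0 ≤ f x) (hf1 : ∀ x, f x ≤ 1) (k : ℕ) {u δ : ℝ} (hu : 0 ≤ u) (hδ : 0 < δ)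
    (hk : 4 * Real.exp (-(k * u ^ 2 / 2)) ≤ δ) :
    A.card ^ k ≤ 2 * (good A f k u δ).card := by
  classical
  have hM : (0 : ℝ) < M := by exact_mod_cast Nat.pos_of_ne_zero (NeZero.ne M)
  have hc : (0:ℝ) < A.card := by exact_mod_cast hA.card_pos
  have h1 := sum_badSet hA hf0 hf1 k hu
  set P := Fintype.piFinset (fun _ : Fin k => A) with hP
  have hPc : P.card = A.card ^ k := by
    rw [hP, Fintype.card_piFinset]
    simp
  set Bd := P.filter (fun a => ¬ ((badSet A f k u a).card : ℝ) ≤ δ * M) with hBd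
  have h2 : (Bd.card : ℝ) * (δ * M) ≤ ∑ a ∈ P, ((badSet A f k u a).card : ℝ) := by
    calc (Bd.card : ℝ) * (δ * M) = ∑ _a ∈ Bd, δ * M := by rw [sum_const, nsmul_eq_mul]
      _ ≤ ∑ a ∈ Bd, ((badSet A f k u a).card : ℝ) := by
          refine sum_le_sum fun a ha => ?_
          exact (not_le.1 (mem_filter.1 ha).2).le
      _ ≤ _ := sum_le_sum_of_subset_of_nonneg (filter_subset _ _) fun _ _ _ => Nat.cast_nonneg _
  have h3 : (good A f k u δ).card + Bd.card = P.card := by
    unfold good
    exact card_filter_add_card_filter_not _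
  have h4 : 2 * (Bd.card : ℝ) ≤ (A.card : ℝ) ^ k := by
    have h5 : (Bd.card : ℝ) * (δ * M) ≤ M * ((A.card : ℝ) ^ k * (δ / 2)) := by
      refine (h2.trans h1).trans ?_
      have : 2 * (A.card : ℝ) ^ k * Real.exp (-(k * u ^ 2 / 2)) ≤ (A.card : ℝ) ^ k * (δ / 2) := by
        have h6 : Real.exp (-(k * u ^ 2 / 2)) ≤ δ / 4 := by linarith
        calc 2 * (A.card : ℝ) ^ k * Real.exp (-(k * u ^ 2 / 2))
            ≤ 2 * (A.card : ℝ) ^ k * (δ / 4) := by gcongr
          _ = _ := by ring
      gcongr
    have h7 : (2 * (Bd.card : ℝ)) * (δ * M / 2) ≤ (A.card : ℝ) ^ k * (δ * M / 2) := by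
      calc (2 * (Bd.card : ℝ)) * (δ * M / 2) = (Bd.card : ℝ) * (δ * M) := by ring
        _ ≤ _ := h5
        _ = _ := by ring
    exact le_of_mul_le_mul_right h7 (by positivity)
  have h5 : 2 * Bd.card ≤ A.card ^ k := by exact_mod_cast h4
  omega

/-- a translate of the diagonal meets a large subset of the power in many points -/
theorem exists_fibre {M : ℕ} [NeZero M] (k : ℕ) (L : Finset (Fin k → ZMod M)) :
    ∃ z : Fin k → ZMod M, M * L.card ≤
      M ^ k * ((univ : Finset (ZMod M)).filter (fun s => (fun i => z i - s) ∈ L)).card := by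
  classical
  by_contra hcon
  push Not at hcon
  have h1 : ∑ z : Fin k → ZMod M,
      ((univ : Finset (ZMod M)).filter (fun s => (fun i => z i - s) ∈ L)).card = M * L.card := by
    have e1 : ∀ z : Fin k → ZMod M,
        ((univ : Finset (ZMod M)).filter (fun s => (fun i => z i - s) ∈ L)).card =
        ∑ s : ZMod M, if (fun i => z i - s) ∈ L then 1 else 0 := by
      intro z
      rw [card_filter]
    simp only [e1]
    rw [sum_comm]
    have e2 : ∀ s : ZMod M, (∑ z : Fin k → ZMod M, if (fun i => z i - s) ∈ L then 1 else 0) =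
        L.card := by
      intro s
      rw [← card_filter]
      refine card_bij (fun z _ => fun i => z i - s) ?_ ?_ ?_
      · intro z hz
        exact (mem_filter.1 hz).2
      · intro z _ z' _ h
        funext i
        have := congrFun h i
        simpa using this
      · intro a ha
        refine ⟨fun i => a i + s, ?_, ?_⟩
        · rw [mem_filter]
          refine ⟨mem_univ _, ?_⟩
          simpa using ha
        · funext i
          simp
    simp only [e2]
    rw [sum_const, card_univ, ZMod.card, smul_eq_mul]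
  have hMk : 0 < M ^ k := pow_pos (Nat.pos_of_ne_zero (NeZero.ne M)) k
  have h2 : ∑ z : Fin k → ZMod M, M ^ k *
      ((univ : Finset (ZMod M)).filter (fun s => (fun i => z i - s) ∈ L)).card <
      ∑ _z : Fin k → ZMod M, M * L.card :=
    sum_lt_sum_of_nonempty ⟨fun _ => 0, mem_univ _⟩ fun z _ => hcon z
  rw [← mul_sum, h1, sum_const, card_univ, Fintype.card_fun, ZMod.card, Fintype.card_fin,
    smul_eq_mul] at h2
  exact lt_irrefl _ h2

/-- the double average `(1/#A²) ∑ x ∈ A, ∑ a ∈ A, f (x + y + a)` -/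
noncomputable def dbl {M : ℕ} (A : Finset (ZMod M)) (f : ZMod M → ℝ) (y : ZMod M) : ℝ :=
  (∑ x ∈ A, avg A f (x + y)) / A.card

theorem almost_periods {M : ℕ} [NeZero M] {A : Finset (ZMod M)} (hA : A.Nonempty)
    {f : ZMod M → ℝ} (hf0 : ∀ x, 0 ≤ f x) (hf1 : ∀ x, f x ≤ 1) (k : ℕ) (hk0 : 0 < k) {u δ : ℝ}
    (hu : 0 ≤ u) (hδ : 0 < δ) (hk : 4 * Real.exp (-(k * u ^ 2 / 2)) ≤ δ) :
    ∃ T : Finset (ZMod M), M * A.card ^ k ≤ 2 * M ^ k * T.card ∧
      ∀ w : ZMod M, ∀ s ∈ T, ∀ s' ∈ T,
        |dbl A f (w + s) - dbl A f (w + s')| ≤ 2 * u + 2 * δ * M / A.card := by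
  classical
  have hM : (0 : ℝ) < M := by exact_mod_cast Nat.pos_of_ne_zero (NeZero.ne M)
  have hc : (0:ℝ) < A.card := by exact_mod_cast hA.card_pos
  have hk0' : (0:ℝ) < k := by exact_mod_cast hk0
  obtain ⟨z, hz⟩ := exists_fibre k (good A f k u δ)
  refine ⟨(univ : Finset (ZMod M)).filter (fun s => (fun i => z i - s) ∈ good A f k u δ), ?_, ?_⟩
  · have h1 := card_good hA hf0 hf1 k hu hδ hk
    calc M * A.card ^ k ≤ M * (2 * (good A f k u δ).card) := Nat.mul_le_mul_left _ h1
      _ = 2 * (M * (good A f k u δ).card) := by ring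
      _ ≤ 2 * (M ^ k * ((univ : Finset (ZMod M)).filter
            (fun s => (fun i => z i - s) ∈ good A f k u δ)).card) := Nat.mul_le_mul_left _ hz
      _ = _ := by ring
  · intro w s hs s' hs'
    -- the exceptional sets
    have hone : ∀ t ∈ (univ : Finset (ZMod M)).filter
        (fun s => (fun i => z i - s) ∈ good A f k u δ), ∃ E : Finset (ZMod M),
        (E.card : ℝ) ≤ δ * M ∧ ∀ x, x ∉ E →
          |avg A f (x + w + t) - (∑ i, f (x + w + z i)) / k| ≤ u := by
      intro t ht
      have h1 := (mem_filter.1 ht).2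
      have h2 : (((badSet A f k u (fun i => z i - t)).card : ℕ) : ℝ) ≤ δ * M :=
        (mem_filter.1 h1).2
      refine ⟨(badSet A f k u (fun i => z i - t)).image (fun x => x - w - t), ?_, ?_⟩
      · refine le_trans ?_ h2
        exact_mod_cast card_image_le
      · intro x hx
        have h3 : x + w + t ∉ badSet A f k u (fun i => z i - t) := by
          intro h
          apply hx
          rw [mem_image]
          exact ⟨x + w + t, h, by ring⟩
        rw [mem_badSet, not_lt] at h3
        have h4 : ∑ i, (f (x + w + t + (z i - t)) - avg A f (x + w + t)) =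
            ∑ i, f (x + w + z i) - k * avg A f (x + w + t) := by
          rw [sum_sub_distrib, sum_const, card_univ, Fintype.card_fin, nsmul_eq_mul]
          congr 1
          refine sum_congr rfl fun i _ => ?_
          congr 1
          ring
        rw [h4] at h3
        have h5 : avg A f (x + w + t) - (∑ i, f (x + w + z i)) / k =
            -((∑ i, f (x + w + z i) - k * avg A f (x + w + t)) / k) := by
          field_simp
          ring
        rw [h5, abs_neg, abs_div, abs_of_pos hk0', div_le_iff₀ hk0']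
        exact h3
    obtain ⟨E, hE, hEx⟩ := hone s hs
    obtain ⟨E', hE', hEx'⟩ := hone s' hs'
    have hpt : ∀ x ∈ A, |avg A f (x + (w + s)) - avg A f (x + (w + s'))| ≤
        2 * u + ((if x ∈ E then (1:ℝ) else 0) + (if x ∈ E' then (1:ℝ) else 0)) := by
      intro x _
      have a1 := avg_nonneg A hf0 (x + (w + s))
      have a2 := avg_nonneg A hf0 (x + (w + s'))
      have a3 := avg_le_one hA hf1 (x + (w + s))
      have a4 := avg_le_one hA hf1 (x + (w + s'))
      have hle1 : |avg A f (x + (w + s)) - avg A f (x + (w + s'))| ≤ 1 := by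
        rw [abs_le]; constructor <;> linarith
      by_cases h : x ∈ E
      · rw [if_pos h]
        have : (0:ℝ) ≤ if x ∈ E' then (1:ℝ) else 0 := by split_ifs <;> norm_num
        linarith
      · by_cases h' : x ∈ E'
        · rw [if_neg h, if_pos h']
          linarith
        · rw [if_neg h, if_neg h']
          have b1 := hEx x h
          have b2 := hEx' x h'
          rw [add_assoc x w s] at b1
          rw [add_assoc x w s'] at b2
          have := abs_sub_le (avg A f (x + (w + s))) ((∑ i, f (x + w + z i)) / k)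
            (avg A f (x + (w + s')))
          rw [abs_sub_comm ((∑ i, f (x + w + z i)) / k)] at this
          linarith
    have hsum : |∑ x ∈ A, avg A f (x + (w + s)) - ∑ x ∈ A, avg A f (x + (w + s'))| ≤
        2 * u * A.card + 2 * (δ * M) := by
      rw [← sum_sub_distrib]
      calc |∑ x ∈ A, (avg A f (x + (w + s)) - avg A f (x + (w + s')))|
          ≤ ∑ x ∈ A, |avg A f (x + (w + s)) - avg A f (x + (w + s'))| := abs_sum_le_sum_abs _ _
        _ ≤ ∑ x ∈ A, (2 * u + ((if x ∈ E then (1:ℝ) else 0) + (if x ∈ E' then (1:ℝ) else 0))) :=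
            sum_le_sum hpt
        _ = 2 * u * A.card + ((∑ x ∈ A, if x ∈ E then (1:ℝ) else 0) +
              (∑ x ∈ A, if x ∈ E' then (1:ℝ) else 0)) := by
            rw [sum_add_distrib, sum_add_distrib, sum_const, nsmul_eq_mul]
            ring
        _ ≤ 2 * u * A.card + ((E.card : ℝ) + E'.card) := by
            have c1 : ∀ S : Finset (ZMod M), (∑ x ∈ A, if x ∈ S then (1:ℝ) else 0) ≤ S.card := by
              intro S
              rw [sum_boole]
              have : (A.filter (fun x => x ∈ S)).card ≤ S.card :=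
                card_le_card fun x hx => (mem_filter.1 hx).2
              exact_mod_cast this
            have c2 := c1 E
            have c3 := c1 E'
            linarith
        _ ≤ _ := by linarith
    unfold dbl
    rw [← sub_div, abs_div, abs_of_pos hc, div_le_iff₀ hc]
    calc |∑ x ∈ A, avg A f (x + (w + s)) - ∑ x ∈ A, avg A f (x + (w + s'))|
        ≤ 2 * u * A.card + 2 * (δ * M) := hsum
      _ = _ := by field_simp

end Pool.Agent.MPac5134.CS
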