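import Pool.Agent.Lib.MP_ac5134_an.CS.Periods
import Pool.Agent.Lib.MP_ac5134_an.FR.Fourier

/-!
# Averages over `T - T`, in physical space and in frequency space
-/

open Finset

namespace Pool.Agent.MPac5134.CS

open Pool.Agent.MPac5134.FR

/-- the average of `h` over `y + T - T` -/
noncomputable def sm {M : ℕ} (T : Finset (ZMod M)) (h : ZMod M → ℝ) (y : ZMod M) : ℝ :=
  (∑ s ∈ T, ∑ s' ∈ T, h (y + s - s')) / (T.card : ℝ) ^ 2

theorem sm_sub_le {M : ℕ} {T : Finset (ZMod M)} (hT : T.Nonempty) {g h : ZMod M → ℝ} {E : ℝ}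
    (hgh : ∀ y, |g y - h y| ≤ E) (y : ZMod M) : |sm T g y - sm T h y| ≤ E := by
  have hc : (0:ℝ) < T.card := by exact_mod_cast hT.card_pos
  unfold sm
  rw [← sub_div, abs_div, abs_of_pos (by positivity : (0:ℝ) < (T.card : ℝ) ^ 2),
    div_le_iff₀ (by positivity)]
  rw [← sum_sub_distrib]
  calc |∑ s ∈ T, (∑ s' ∈ T, g (y + s - s') - ∑ s' ∈ T, h (y + s - s'))|
      ≤ ∑ s ∈ T, |∑ s' ∈ T, g (y + s - s') - ∑ s' ∈ T, h (y + s - s')| :=
        abs_sum_le_sum_abs _ _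
    _ ≤ ∑ _s ∈ T, (T.card * E) := by
        refine sum_le_sum fun s _ => ?_
        rw [← sum_sub_distrib]
        calc |∑ s' ∈ T, (g (y + s - s') - h (y + s - s'))|
            ≤ ∑ s' ∈ T, |g (y + s - s') - h (y + s - s')| := abs_sum_le_sum_abs _ _
          _ ≤ ∑ _s' ∈ T, E := sum_le_sum fun _ _ => hgh _
          _ = T.card * E := by rw [sum_const, nsmul_eq_mul]
    _ = E * (T.card : ℝ) ^ 2 := by rw [sum_const, nsmul_eq_mul]; ring

theorem sm_close {M : ℕ} {T : Finset (ZMod M)} (hT : T.Nonempty) {h : ZMod M → ℝ} {E : ℝ}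
    (hE : ∀ w : ZMod M, ∀ s ∈ T, ∀ s' ∈ T, |h (w + s) - h (w + s')| ≤ E) (y : ZMod M) :
    |sm T h y - h y| ≤ E := by
  have hc : (0:ℝ) < T.card := by exact_mod_cast hT.card_pos
  have h1 : sm T h y - h y = (∑ s ∈ T, ∑ s' ∈ T, (h (y + s - s') - h y)) / (T.card : ℝ) ^ 2 := by
    unfold sm
    simp only [sum_sub_distrib, sum_const, nsmul_eq_mul]
    field_simp
  rw [h1, abs_div, abs_of_pos (by positivity : (0:ℝ) < (T.card : ℝ) ^ 2),
    div_le_iff₀ (by positivity)]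
  calc |∑ s ∈ T, ∑ s' ∈ T, (h (y + s - s') - h y)|
      ≤ ∑ s ∈ T, |∑ s' ∈ T, (h (y + s - s') - h y)| := abs_sum_le_sum_abs _ _
    _ ≤ ∑ _s ∈ T, (T.card * E) := by
        refine sum_le_sum fun s hs => ?_
        calc |∑ s' ∈ T, (h (y + s - s') - h y)|
            ≤ ∑ s' ∈ T, |h (y + s - s') - h y| := abs_sum_le_sum_abs _ _
          _ ≤ ∑ _s' ∈ T, E := by
              refine sum_le_sum fun s' hs' => ?_
              have h2 := hE (y - s') s hs s' hs'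
              have e1 : y - s' + s = y + s - s' := by ring
              have e2 : y - s' + s' = y := by ring
              rw [e1, e2] at h2
              exact h2
          _ = T.card * E := by rw [sum_const, nsmul_eq_mul]
    _ = E * (T.card : ℝ) ^ 2 := by rw [sum_const, nsmul_eq_mul]; ring

theorem iter_close {M : ℕ} {T : Finset (ZMod M)} (hT : T.Nonempty) {h : ZMod M → ℝ} {E : ℝ}
    (hE : ∀ w : ZMod M, ∀ s ∈ T, ∀ s' ∈ T, |h (w + s) - h (w + s')| ≤ E) (l : ℕ) (y : ZMod M) :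
    |(sm T)^[l] h y - h y| ≤ l * E := by
  induction l generalizing y with
  | zero => simp
  | succ l ih =>
    rw [Function.iterate_succ_apply']
    have h1 := sm_sub_le hT ih y
    have h2 := sm_close hT hE y
    have h3 := abs_sub_le (sm T ((sm T)^[l] h) y) (sm T h y) (h y)
    push_cast
    linarith

private theorem smooth_orth {M : ℕ} [NeZero M] (x : ZMod M) :
    ∑ ξ : ZMod M, ZMod.stdAddChar (N := M) (ξ * x) = if x = 0 then (M : ℂ) else 0 := by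
  have h := AddChar.sum_mulShift x (ZMod.isPrimitive_stdAddChar M)
  rw [h]
  split_ifs with h1
  · rw [ZMod.card]
  · simp

private theorem smooth_sq {M : ℕ} [NeZero M] (A : Finset (ZMod M)) (ξ : ZMod M) :
    (F2 A ξ : ℂ) = ∑ s ∈ A, ∑ s' ∈ A, ZMod.stdAddChar (N := M) (ξ * (s - s')) := by
  unfold F2
  have h1 : ((‖∑ a ∈ A, ZMod.stdAddChar (N := M) (ξ * a)‖ ^ 2 : ℝ) : ℂ) =
      (∑ a ∈ A, ZMod.stdAddChar (N := M) (ξ * a)) *
        (starRingEnd ℂ) (∑ a ∈ A, ZMod.stdAddChar (N := M) (ξ * a)) := by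
    rw [Complex.mul_conj, Complex.normSq_eq_norm_sq]
  rw [h1, map_sum, Finset.sum_mul_sum]
  refine Finset.sum_congr rfl fun a _ => Finset.sum_congr rfl fun b _ => ?_
  rw [← AddChar.map_neg_eq_conj, ← AddChar.map_add_eq_mul]
  congr 1
  ring

theorem sm_fourier {M : ℕ} [NeZero M] {T : Finset (ZMod M)} {h : ZMod M → ℝ} {c : ZMod M → ℂ}
    (hc : ∀ y, (h y : ℂ) = ∑ ξ, c ξ * ZMod.stdAddChar (N := M) (ξ * y)) (y : ZMod M) :
    (sm T h y : ℂ) = ∑ ξ, (c ξ * ((F2 T ξ / (T.card : ℝ) ^ 2 : ℝ) : ℂ)) *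
      ZMod.stdAddChar (N := M) (ξ * y) := by
  have h1 : (sm T h y : ℂ) = (∑ s ∈ T, ∑ s' ∈ T, (h (y + s - s') : ℂ)) / (T.card : ℂ) ^ 2 := by
    unfold sm
    push_cast
    rfl
  rw [h1]
  simp only [hc]
  have h2 : ∑ s ∈ T, ∑ s' ∈ T, ∑ ξ, c ξ * ZMod.stdAddChar (N := M) (ξ * (y + s - s')) =
      ∑ ξ, c ξ * ZMod.stdAddChar (N := M) (ξ * y) * (F2 T ξ : ℂ) := by
    have e1 : ∀ s ∈ T, ∑ s' ∈ T, ∑ ξ, c ξ * ZMod.stdAddChar (N := M) (ξ * (y + s - s')) =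
        ∑ ξ, ∑ s' ∈ T, c ξ * ZMod.stdAddChar (N := M) (ξ * (y + s - s')) := by
      intro s _
      rw [sum_comm]
    rw [sum_congr rfl e1, sum_comm]
    refine sum_congr rfl fun ξ _ => ?_
    rw [smooth_sq, mul_sum]
    refine sum_congr rfl fun s _ => ?_
    rw [mul_sum]
    refine sum_congr rfl fun s' _ => ?_
    rw [mul_assoc, ← AddChar.map_add_eq_mul]
    congr 2
    ring
  rw [h2, sum_div]
  refine sum_congr rfl fun ξ _ => ?_
  push_cast
  ring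

theorem iter_fourier {M : ℕ} [NeZero M] {T : Finset (ZMod M)} {h : ZMod M → ℝ} {c : ZMod M → ℂ}
    (hc : ∀ y, (h y : ℂ) = ∑ ξ, c ξ * ZMod.stdAddChar (N := M) (ξ * y)) (l : ℕ) (y : ZMod M) :
    ((sm T)^[l] h y : ℂ) = ∑ ξ, (c ξ * ((F2 T ξ / (T.card : ℝ) ^ 2 : ℝ) : ℂ) ^ l) *
      ZMod.stdAddChar (N := M) (ξ * y) := by
  induction l generalizing y with
  | zero => simpa using hc y
  | succ l ih =>
    rw [Function.iterate_succ_apply']
    rw [sm_fourier ih y]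
    refine sum_congr rfl fun ξ _ => ?_
    rw [pow_succ]
    ring

/-- the Fourier coefficients of the double average -/
noncomputable def coef {M : ℕ} [NeZero M] (A : Finset (ZMod M)) (f : ZMod M → ℝ) (ξ : ZMod M) :
    ℂ :=
  (∑ b, (f b : ℂ) * ZMod.stdAddChar (N := M) (ξ * (-b))) / M *
    ((∑ a ∈ A, ZMod.stdAddChar (N := M) (ξ * a)) / A.card) ^ 2

theorem dbl_fourier {M : ℕ} [NeZero M] (A : Finset (ZMod M)) (f : ZMod M → ℝ) (y : ZMod M) :
    (dbl A f y : ℂ) = ∑ ξ, coef A f ξ * ZMod.stdAddChar (N := M) (ξ * y) := by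
  classical
  have hM : (M : ℂ) ≠ 0 := by exact_mod_cast NeZero.ne M
  -- inversion
  have hinv : ∀ w : ZMod M, (f w : ℂ) =
      ∑ ξ, (∑ b, (f b : ℂ) * ZMod.stdAddChar (N := M) (ξ * (-b))) / M *
        ZMod.stdAddChar (N := M) (ξ * w) := by
    intro w
    have e1 : ∀ ξ : ZMod M, (∑ b, (f b : ℂ) * ZMod.stdAddChar (N := M) (ξ * (-b))) / M *
        ZMod.stdAddChar (N := M) (ξ * w) =
        ∑ b, (f b : ℂ) / M * ZMod.stdAddChar (N := M) (ξ * (w - b)) := by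
      intro ξ
      rw [sum_div, sum_mul]
      refine sum_congr rfl fun b _ => ?_
      have e2 : ξ * (w - b) = ξ * (-b) + ξ * w := by ring
      rw [e2, AddChar.map_add_eq_mul]
      ring
    simp only [e1]
    rw [sum_comm]
    have e3 : ∀ b : ZMod M, ∑ ξ : ZMod M, (f b : ℂ) / M *
        ZMod.stdAddChar (N := M) (ξ * (w - b)) = if w = b then (f b : ℂ) else 0 := by
      intro b
      rw [← mul_sum, smooth_orth]
      simp only [sub_eq_zero]
      split_ifs with h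
      · field_simp
      · simp
    simp only [e3]
    rw [sum_ite_eq]
    simp
  have h1 : (dbl A f y : ℂ) = (∑ x ∈ A, ∑ a ∈ A, (f (x + y + a) : ℂ)) / (A.card : ℂ) ^ 2 := by
    unfold dbl avg
    push_cast
    rw [← sum_div, div_div, sq]
  rw [h1]
  have h2 : ∑ x ∈ A, ∑ a ∈ A, (f (x + y + a) : ℂ) =
      ∑ ξ, (∑ b, (f b : ℂ) * ZMod.stdAddChar (N := M) (ξ * (-b))) / M *
        ZMod.stdAddChar (N := M) (ξ * y) *
        ((∑ a ∈ A, ZMod.stdAddChar (N := M) (ξ * a)) *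
          (∑ a ∈ A, ZMod.stdAddChar (N := M) (ξ * a))) := by
    have e0 : ∀ x ∈ A, ∑ a ∈ A, (f (x + y + a) : ℂ) =
        ∑ ξ, ∑ a ∈ A, (∑ b, (f b : ℂ) * ZMod.stdAddChar (N := M) (ξ * (-b))) / M *
          ZMod.stdAddChar (N := M) (ξ * (x + y + a)) := by
      intro x _
      rw [sum_comm]
      exact sum_congr rfl fun a _ => hinv _
    rw [sum_congr rfl e0, sum_comm]
    refine sum_congr rfl fun ξ _ => ?_
    rw [sum_mul_sum, mul_sum]
    refine sum_congr rfl fun x _ => ?_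
    rw [mul_sum]
    refine sum_congr rfl fun a _ => ?_
    have e2 : ξ * (x + y + a) = ξ * y + (ξ * x + ξ * a) := by ring
    rw [e2, AddChar.map_add_eq_mul, AddChar.map_add_eq_mul]
    ring
  rw [h2, sum_div]
  refine sum_congr rfl fun ξ _ => ?_
  unfold coef
  ring

theorem coef_le {M : ℕ} [NeZero M] {A : Finset (ZMod M)} {f : ZMod M → ℝ}
    (hf0 : ∀ x, 0 ≤ f x) (hf1 : ∀ x, f x ≤ 1) (ξ : ZMod M) :
    ‖coef A f ξ‖ ≤ F2 A ξ / (A.card : ℝ) ^ 2 := by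
  have hM : (0 : ℝ) < M := by exact_mod_cast Nat.pos_of_ne_zero (NeZero.ne M)
  have h1 : ‖∑ b, (f b : ℂ) * ZMod.stdAddChar (N := M) (ξ * (-b))‖ ≤ M := by
    calc ‖∑ b, (f b : ℂ) * ZMod.stdAddChar (N := M) (ξ * (-b))‖
        ≤ ∑ b, ‖(f b : ℂ) * ZMod.stdAddChar (N := M) (ξ * (-b))‖ := norm_sum_le _ _
      _ ≤ ∑ _b : ZMod M, (1:ℝ) := by
          refine sum_le_sum fun b _ => ?_
          rw [norm_mul, AddChar.norm_apply, mul_one, Complex.norm_real, Real.norm_eq_abs,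
            abs_of_nonneg (hf0 b)]
          exact hf1 b
      _ = M := by rw [sum_const, card_univ, ZMod.card, nsmul_eq_mul, mul_one]
  unfold coef F2
  rw [norm_mul, norm_div, norm_pow, norm_div, Complex.norm_natCast, Complex.norm_natCast, div_pow]
  have h2 : ‖∑ b, (f b : ℂ) * ZMod.stdAddChar (N := M) (ξ * (-b))‖ / (M:ℝ) ≤ 1 := by
    rw [div_le_one hM]; exact h1
  calc ‖∑ b, (f b : ℂ) * ZMod.stdAddChar (N := M) (ξ * (-b))‖ / (M:ℝ) *
        (‖∑ a ∈ A, ZMod.stdAddChar (N := M) (ξ * a)‖ ^ 2 / (A.card : ℝ) ^ 2)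
      ≤ 1 * (‖∑ a ∈ A, ZMod.stdAddChar (N := M) (ξ * a)‖ ^ 2 / (A.card : ℝ) ^ 2) := by gcongr
    _ = _ := one_mul _

theorem F2_le {M : ℕ} [NeZero M] (T : Finset (ZMod M)) (ξ : ZMod M) :
    F2 T ξ ≤ (T.card : ℝ) ^ 2 := by
  unfold F2
  have h : ‖∑ a ∈ T, ZMod.stdAddChar (N := M) (ξ * a)‖ ≤ T.card := by
    calc ‖∑ a ∈ T, ZMod.stdAddChar (N := M) (ξ * a)‖
        ≤ ∑ a ∈ T, ‖ZMod.stdAddChar (N := M) (ξ * a)‖ := norm_sum_le _ _
      _ = T.card := by simp [AddChar.norm_apply]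
  gcongr

/-- The iterated average varies little along elements which the large spectrum of `T` does not see. -/
theorem iter_var {M : ℕ} [NeZero M] {A T : Finset (ZMod M)} (hA : A.Nonempty) (hT : T.Nonempty)
    {f : ZMod M → ℝ} (hf0 : ∀ x, 0 ≤ f x) (hf1 : ∀ x, f x ≤ 1) (l : ℕ) {η : ℝ}
    (hη : 0 ≤ η) (y : ZMod M)
    (hy : ∀ ξ : ZMod M, (T.card : ℝ) ^ 2 ≤ 4 * F2 T ξ →
      ‖ZMod.stdAddChar (N := M) (ξ * y) - 1‖ ≤ η) :
    |(sm T)^[l] (dbl A f) y - (sm T)^[l] (dbl A f) 0| ≤ (η + 2 * (1 / 4) ^ l) * (M / A.card) := by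
  have hM : (0 : ℝ) < M := by exact_mod_cast Nat.pos_of_ne_zero (NeZero.ne M)
  have hc : (0:ℝ) < A.card := by exact_mod_cast hA.card_pos
  have hcT : (0:ℝ) < T.card := by exact_mod_cast hT.card_pos
  have h1 : (((sm T)^[l] (dbl A f) y - (sm T)^[l] (dbl A f) 0 : ℝ) : ℂ) =
      ∑ ξ, (coef A f ξ * ((F2 T ξ / (T.card : ℝ) ^ 2 : ℝ) : ℂ) ^ l) *
        (ZMod.stdAddChar (N := M) (ξ * y) - 1) := by
    rw [Complex.ofReal_sub, iter_fourier (dbl_fourier A f) l y,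
      iter_fourier (dbl_fourier A f) l 0, ← sum_sub_distrib]
    refine sum_congr rfl fun ξ _ => ?_
    rw [mul_zero, AddChar.map_zero_eq_one]
    ring
  have h2 : |(sm T)^[l] (dbl A f) y - (sm T)^[l] (dbl A f) 0| =
      ‖(((sm T)^[l] (dbl A f) y - (sm T)^[l] (dbl A f) 0 : ℝ) : ℂ)‖ := by
    rw [Complex.norm_real, Real.norm_eq_abs]
  rw [h2, h1]
  calc ‖∑ ξ, (coef A f ξ * ((F2 T ξ / (T.card : ℝ) ^ 2 : ℝ) : ℂ) ^ l) *
        (ZMod.stdAddChar (N := M) (ξ * y) - 1)‖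
      ≤ ∑ ξ, ‖(coef A f ξ * ((F2 T ξ / (T.card : ℝ) ^ 2 : ℝ) : ℂ) ^ l) *
        (ZMod.stdAddChar (N := M) (ξ * y) - 1)‖ := norm_sum_le _ _
    _ ≤ ∑ ξ, F2 A ξ / (A.card : ℝ) ^ 2 * (η + 2 * (1 / 4) ^ l) := by
        refine sum_le_sum fun ξ _ => ?_
        rw [norm_mul, norm_mul, norm_pow, Complex.norm_real, Real.norm_eq_abs]
        have h3 := coef_le (A := A) hf0 hf1 ξ
        have h4 : 0 ≤ F2 T ξ / (T.card : ℝ) ^ 2 := div_nonneg (F2_nonneg _ _) (by positivity)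
        have h5 : F2 T ξ / (T.card : ℝ) ^ 2 ≤ 1 := by
          rw [div_le_one (by positivity)]; exact F2_le T ξ
        have h6 : 0 ≤ F2 A ξ / (A.card : ℝ) ^ 2 := div_nonneg (F2_nonneg _ _) (by positivity)
        have h7 : (0:ℝ) ≤ 2 * (1 / 4) ^ l := by positivity
        rw [abs_of_nonneg h4]
        rw [mul_assoc]
        refine mul_le_mul h3 ?_ (by positivity) h6
        by_cases hs : (T.card : ℝ) ^ 2 ≤ 4 * F2 T ξ
        · have h8 := hy ξ hs
          have h9 : (F2 T ξ / (T.card : ℝ) ^ 2) ^ l ≤ 1 := pow_le_one₀ h4 h5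
          calc (F2 T ξ / (T.card : ℝ) ^ 2) ^ l * ‖ZMod.stdAddChar (N := M) (ξ * y) - 1‖
              ≤ 1 * η := mul_le_mul h9 h8 (norm_nonneg _) zero_le_one
            _ ≤ _ := by linarith
        · have h8 : F2 T ξ / (T.card : ℝ) ^ 2 ≤ 1 / 4 := by
            rw [div_le_iff₀ (by positivity)]
            linarith [not_le.1 hs]
          have h9 : (F2 T ξ / (T.card : ℝ) ^ 2) ^ l ≤ (1 / 4) ^ l := pow_le_pow_left₀ h4 h8 l
          have h10 : ‖ZMod.stdAddChar (N := M) (ξ * y) - 1‖ ≤ 2 := by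
            calc ‖ZMod.stdAddChar (N := M) (ξ * y) - 1‖
                ≤ ‖ZMod.stdAddChar (N := M) (ξ * y)‖ + ‖(1:ℂ)‖ := norm_sub_le _ _
              _ = 2 := by rw [AddChar.norm_apply, norm_one]; norm_num
          calc (F2 T ξ / (T.card : ℝ) ^ 2) ^ l * ‖ZMod.stdAddChar (N := M) (ξ * y) - 1‖
              ≤ (1 / 4) ^ l * 2 := mul_le_mul h9 h10 (norm_nonneg _) (by positivity)
            _ ≤ _ := by linarith
    _ = (η + 2 * (1 / 4) ^ l) * (M / A.card) := by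
        rw [← sum_mul, ← sum_div, parseval]
        field_simp

end Pool.Agent.MPac5134.CS
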