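import Pool.Agent.Lib.MP_ac5134_an.AddQ3
import Pool.Agent.Lib.MP_ac5134_an.CS.Crit

/-!
The Kakeya maximal inequality and the volume inequality for every set of tubes, with a loss that is
measured by the number of elements of a set of small doubling which contains the labels.
-/

namespace Pool.Agent.MPac5134.CS

open MeasureTheory Matrix Pool.Agent.MPac5134
open scoped ENNReal Pointwise

variable {d : ℕ}

/-- the set of the labels of the tubes in `S` -/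
noncomputable def labelsOn {ι : Type*} (S : Finset ι) (N : ℝ) (θ : ι → Cap d) (c : ι → Sp d) :
    Finset (Fin d ⊕ Fin (d + 1) → ℤ) := S.image (fun i => label N (θ i) (c i))

theorem one_le_dbg {B N : ℝ} (hB : 0 ≤ B) (hN : 1 ≤ N) : 1 ≤ dbg B N := by
  unfold dbg
  apply Real.one_le_exp
  have : 0 ≤ Real.log N := Real.log_nonneg hN
  positivity

theorem dbg_mono {B B' N : ℝ} (hN : 1 ≤ N) (h : B ≤ B') : dbg B N ≤ dbg B' N := by
  unfold dbg
  have : 0 ≤ Real.log N := Real.log_nonneg hN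
  gcongr

theorem cells_sub {ι : Type*} {K : ℕ} {N : ℝ} {θ : ι → Cap d}
    (h : ∀ z : Fin d → ℤ, ∀ s : Finset ι, (∀ i ∈ s, cell N (θ i) = z) → s.card ≤ K)
    (S : Finset ι) (z : Fin d → ℤ) (s : Finset {i // i ∈ S})
    (hs : ∀ i ∈ s, cell N (θ i) = z) : s.card ≤ K := by
  have h3 := h z (s.map (Function.Embedding.subtype _)) (by
    intro i hi
    rw [Finset.mem_map] at hi
    obtain ⟨j, hj, rfl⟩ := hi
    exact hs j hj)
  rwa [Finset.card_map] at h3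

theorem card_sub_le {ι : Type*} {K : ℕ} {N : ℝ} {θ : ι → Cap d} {c : ι → Sp d}
    (hover : ∀ z : Fin d → ℤ, ∀ s : Finset ι, (∀ i ∈ s, cell N (θ i) = z) → s.card ≤ K)
    (S : Finset ι) (H : Finset (Fin d ⊕ Fin (d + 1) → ℤ)) (hH : labelsOn S N θ c ⊆ H) :
    S.card ≤ K * H.card := by
  have h := card_le_labels (c := fun i : {i // i ∈ S} => c i) (cells_sub hover S) H (by
    intro i
    exact hH (Finset.mem_image_of_mem _ i.2))
  rwa [Fintype.card_coe] at h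

/-- the weak type estimate for sets of tubes -/
theorem weak_sub (hd : 0 < d) (K : ℕ) {B ε : ℝ} (hB : 1 ≤ B) (hε : 0 < ε) :
    ∃ C : ℝ, 1 ≤ C ∧ ∀ N : ℝ, 1 ≤ N → ∀ (ι : Type) (θ : ι → Cap d) (c : ι → Sp d),
      (∀ z : Fin d → ℤ, ∀ s : Finset ι, (∀ i ∈ s, cell N (θ i) = z) → s.card ≤ K) →
      ∀ S : Finset ι, S.Nonempty → ∀ H : Finset (Fin d ⊕ Fin (d + 1) → ℤ),
      labelsOn S N θ c ⊆ H → ((H + H).card : ℝ) ≤ dbg B N * H.card →
      WeakBound N (C * N ^ ε * ((H.card : ℝ) / S.card) ^ (1 / (d:ℝ)) * (S.card / N ^ d))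
        (fun i : {i // i ∈ S} => θ i) (fun i : {i // i ∈ S} => c i) := by
  obtain ⟨C, hC, h⟩ := add_weak_cs hd K hB hε
  refine ⟨C, hC, ?_⟩
  intro N hN ι θ c hover S hS H h1 h3
  have hne : Nonempty {i // i ∈ S} := by
    obtain ⟨i, hi⟩ := hS
    exact ⟨⟨i, hi⟩⟩
  have h4 := h N hN {i // i ∈ S} (fun i => θ i) (fun i => c i) (cells_sub hover S) H (by
    intro i
    exact h1 (Finset.mem_image_of_mem _ i.2)) h3
  rwa [Fintype.card_coe] at h4

/-- the estimate at the exponent `1 + 1/d` for sets of tubes -/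
theorem crit_sub (hd : 0 < d) (K : ℕ) {B ε : ℝ} (hB : 1 ≤ B) (hε : 0 < ε) :
    ∃ C : ℝ, 1 ≤ C ∧ ∀ N : ℝ, 1 ≤ N → ∀ (ι : Type) (θ : ι → Cap d) (c : ι → Sp d),
      (∀ z : Fin d → ℤ, ∀ s : Finset ι, (∀ i ∈ s, cell N (θ i) = z) → s.card ≤ K) →
      ∀ (S : Finset ι) (H : Finset (Fin d ⊕ Fin (d + 1) → ℤ)),
      labelsOn S N θ c ⊆ H → ((H + H).card : ℝ) ≤ dbg B N * H.card →
      ∫⁻ x, ENNReal.ofReal (multOn S N θ c x ^ (1 + 1 / (d:ℝ))) ≤
        ENNReal.ofReal (C * N ^ ε * ((H.card : ℝ) / S.card) ^ (1 / (d:ℝ)) *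
          (S.card * N ^ (d + 2))) := by
  have hε2 : 0 < ε / 2 := by positivity
  obtain ⟨C1, hC1, h1⟩ := weak_sub hd K hB hε2
  obtain ⟨C2, hC2, h2⟩ := log_card_le (d := d) K hε2
  refine ⟨16 * C2 * C1, by nlinarith, ?_⟩
  intro N hN ι θ c hover S H hSH hHH
  have hN0 : 0 < N := by linarith
  rcases S.eq_empty_or_nonempty with h0 | hne
  · subst h0
    have hd' : (0:ℝ) < d := by exact_mod_cast hd
    have e1 : ∀ x : Sp d, ENNReal.ofReal (multOn (∅ : Finset ι) N θ c x ^ (1 + 1 / (d:ℝ))) = 0 := by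
      intro x
      have : multOn (∅ : Finset ι) N θ c x = 0 := by unfold multOn; simp
      rw [this, Real.zero_rpow (by positivity), ENNReal.ofReal_zero]
    simp only [e1, lintegral_zero]
    exact bot_le
  have hw := h1 N hN ι θ c hover S hne H hSH hHH
  obtain ⟨Y, hY⟩ : ∃ Y : ℝ, Y = ((H.card : ℝ) / S.card) ^ (1 / (d:ℝ)) := ⟨_, rfl⟩
  have hY0 : 0 ≤ Y := by rw [hY]; positivity
  rw [← hY] at hw ⊢
  have hW0 : 0 ≤ C1 * N ^ (ε / 2) * Y * ((S.card : ℝ) / N ^ d) := by positivity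
  have h3 := crit_of_weak hd hN hW0 _ _ hw
  rw [← multOn_eq, Fintype.card_coe] at h3
  refine h3.trans (ENNReal.ofReal_le_ofReal ?_)
  have hcard := card_le hN (fun i : {i // i ∈ S} => θ i) (cells_sub hover S)
  rw [Fintype.card_coe] at hcard
  have h4 := h2 N hN S.card hcard
  have hNN : N ^ (2 * d + 2) = N ^ d * N ^ (d + 2) := by rw [← pow_add]; congr 1; omega
  have hNd : 0 < N ^ d := by positivity
  have h6 : N ^ (ε / 2) * N ^ (ε / 2) = N ^ ε := by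
    rw [← Real.rpow_add hN0]; congr 1; ring
  calc 16 * (((Nat.log 2 S.card : ℕ) : ℝ) + 1) * (C1 * N ^ (ε / 2) * Y *
        ((S.card : ℝ) / N ^ d)) * N ^ (2 * d + 2)
      ≤ 16 * (C2 * N ^ (ε / 2)) * (C1 * N ^ (ε / 2) * Y * ((S.card : ℝ) / N ^ d)) *
        N ^ (2 * d + 2) := by gcongr
    _ = 16 * C2 * C1 * (N ^ (ε / 2) * N ^ (ε / 2)) * Y * (((S.card : ℝ) / N ^ d * N ^ d) *
        N ^ (d + 2)) := by rw [hNN]; ring
    _ = _ := by rw [h6, div_mul_cancel₀ _ hNd.ne']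

theorem sum_volume_eq {ι : Type*} {N : ℝ} (hN : 0 ≤ N) (θ : ι → Cap d) (c : ι → Sp d)
    (S : Finset ι) : ∑ i ∈ S, volume (tube N (θ i) (c i)) =
      ENNReal.ofReal (S.card * N ^ (d + 2)) := by
  simp only [volume_tube hN, Finset.sum_const, nsmul_eq_mul]
  rw [ENNReal.ofReal_mul (by positivity), ENNReal.ofReal_natCast]

/-- The Kakeya maximal inequality and the volume inequality for sets of tubes. -/
theorem maximal_sub (hd : 0 < d) (K : ℕ) {B ε : ℝ} (hB : 1 ≤ B) (hε : 0 < ε) :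
    ∃ C : ℝ, 1 ≤ C ∧ ∀ N : ℝ, 1 ≤ N → ∀ (ι : Type) (θ : ι → Cap d) (c : ι → Sp d),
      (∀ z : Fin d → ℤ, ∀ s : Finset ι, (∀ i ∈ s, cell N (θ i) = z) → s.card ≤ K) →
      ∀ (S : Finset ι) (H : Finset (Fin d ⊕ Fin (d + 1) → ℤ)),
      labelsOn S N θ c ⊆ H → ((H + H).card : ℝ) ≤ dbg B N * H.card →
      eLpNorm (multOn S N θ c) (ENNReal.ofReal (1 + 1 / (d:ℝ))) volume ≤
        ENNReal.ofReal (C * N ^ ε * ((H.card : ℝ) / S.card) ^ (1 / ((d:ℝ) + 1))) *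
          (∑ i ∈ S, volume (tube N (θ i) (c i))) ^ ((d:ℝ) / (d + 1)) ∧
      ∑ i ∈ S, volume (tube N (θ i) (c i)) ≤
        ENNReal.ofReal (C * N ^ ε * ((H.card : ℝ) / S.card)) *
          volume (⋃ i ∈ S, tube N (θ i) (c i)) := by
  have hd1 : (1:ℝ) ≤ d := by exact_mod_cast hd
  have hd' : (0:ℝ) < d := by linarith
  have hεd : 0 < ε / d := by positivity
  obtain ⟨C1, hC1, h1⟩ := crit_sub hd K hB hεd
  have hK0 : (0:ℝ) ≤ K := Nat.cast_nonneg K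
  refine ⟨2 * (2 * (C1 * (K + 1))) ^ d, by
    have : 1 ≤ (2 * (C1 * ((K:ℝ) + 1))) ^ d := one_le_pow₀ (by nlinarith)
    linarith, ?_⟩
  intro N hN ι θ c hover S H hSH hHH
  have hN0 : 0 < N := by linarith
  rcases S.eq_empty_or_nonempty with h0 | hne
  · subst h0
    constructor
    · have : multOn (∅ : Finset ι) N θ c = 0 := by
        funext x
        unfold multOn
        simp
      rw [this, eLpNorm_zero]
      exact bot_le
    · rw [Finset.sum_empty]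
      exact bot_le
  have hSpos : (0:ℝ) < S.card := by exact_mod_cast hne.card_pos
  have hNε : 1 ≤ N ^ (ε / d) := Real.one_le_rpow hN hεd.le
  have hNe : (N ^ (ε / d)) ^ d = N ^ ε := by
    rw [← Real.rpow_natCast, ← Real.rpow_mul hN0.le]
    congr 1
    field_simp
  obtain ⟨Δ, hΔ⟩ : ∃ Δ : ℝ, Δ = (H.card : ℝ) / S.card := ⟨_, rfl⟩
  have hSH' : (S.card : ℝ) ≤ K * H.card := by exact_mod_cast card_sub_le hover S H hSH
  have hΔ1 : 1 ≤ ((K:ℝ) + 1) * Δ := by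
    rw [hΔ, ← mul_div_assoc, le_div_iff₀ hSpos]
    have : (0:ℝ) ≤ H.card := Nat.cast_nonneg _
    linarith
  have hΔ0 : 0 < Δ := by
    by_contra h
    have : ((K:ℝ) + 1) * Δ ≤ 0 := mul_nonpos_of_nonneg_of_nonpos (by linarith) (not_lt.1 h)
    linarith
  have h2 := h1 N hN ι θ c hover S H hSH hHH
  rw [← hΔ] at h2 ⊢
  have hdinv : 0 ≤ 1 / (d:ℝ) := by positivity
  have hdinv1 : 1 / (d:ℝ) ≤ 1 := by rw [div_le_one hd']; exact hd1
  -- the constant for the critical estimate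
  obtain ⟨B₂, hB₂⟩ : ∃ B₂ : ℝ, B₂ = C1 * N ^ (ε / d) * (((K:ℝ) + 1) * Δ) ^ (1 / (d:ℝ)) :=
    ⟨_, rfl⟩
  have hB₂1 : 1 ≤ B₂ := by
    rw [hB₂]
    exact one_le_mul_of_one_le_of_one_le (one_le_mul_of_one_le_of_one_le hC1 hNε)
      (Real.one_le_rpow hΔ1 hdinv)
  have hle : C1 * N ^ (ε / d) * Δ ^ (1 / (d:ℝ)) ≤ B₂ := by
    rw [hB₂]
    have : Δ ^ (1 / (d:ℝ)) ≤ (((K:ℝ) + 1) * Δ) ^ (1 / (d:ℝ)) :=
      Real.rpow_le_rpow hΔ0.le (le_mul_of_one_le_left hΔ0.le (by linarith)) hdinv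
    gcongr
  have h2' : ∫⁻ x, ENNReal.ofReal (multOn S N θ c x ^ (1 + 1 / (d:ℝ))) ≤
      ENNReal.ofReal (B₂ * (S.card * N ^ (d + 2))) := by
    refine h2.trans (ENNReal.ofReal_le_ofReal ?_)
    gcongr
  have hΔd : (Δ ^ (1 / (d:ℝ))) ^ d = Δ := by
    rw [← Real.rpow_natCast, ← Real.rpow_mul hΔ0.le]
    have : 1 / (d:ℝ) * d = 1 := by field_simp
    rw [this, Real.rpow_one]
  have hKd : (((K:ℝ) + 1) ^ (1 / (d:ℝ))) ≤ K + 1 := by
    calc ((K:ℝ) + 1) ^ (1 / (d:ℝ)) ≤ ((K:ℝ) + 1) ^ (1:ℝ) :=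
          Real.rpow_le_rpow_of_exponent_le (by linarith) hdinv1
      _ = K + 1 := Real.rpow_one _
  have hB₂d : 2 * (2 * B₂) ^ d ≤ 2 * (2 * (C1 * (K + 1))) ^ d * N ^ ε * Δ := by
    have e1 : B₂ ≤ (C1 * (K + 1)) * N ^ (ε / d) * Δ ^ (1 / (d:ℝ)) := by
      rw [hB₂, Real.mul_rpow (by linarith) hΔ0.le]
      calc C1 * N ^ (ε / d) * (((K:ℝ) + 1) ^ (1 / (d:ℝ)) * Δ ^ (1 / (d:ℝ)))
          ≤ C1 * N ^ (ε / d) * ((K + 1) * Δ ^ (1 / (d:ℝ))) := by gcongr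
        _ = _ := by ring
    calc 2 * (2 * B₂) ^ d ≤
          2 * (2 * ((C1 * (K + 1)) * N ^ (ε / d) * Δ ^ (1 / (d:ℝ)))) ^ d := by gcongr
      _ = 2 * (2 * (C1 * (K + 1))) ^ d * (N ^ (ε / d)) ^ d * (Δ ^ (1 / (d:ℝ))) ^ d := by
          rw [mul_assoc (2 * (2 * (C1 * ((K:ℝ) + 1))) ^ d), ← mul_pow, mul_assoc 2, ← mul_pow]
          congr 2
          ring
      _ = _ := by rw [hNe, hΔd]
  constructor
  · have hp0 : ENNReal.ofReal (1 + 1 / (d:ℝ)) ≠ 0 := by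
      rw [Ne, ENNReal.ofReal_eq_zero, not_le]; positivity
    have hpr : (ENNReal.ofReal (1 + 1 / (d:ℝ))).toReal = 1 + 1 / (d:ℝ) :=
      ENNReal.toReal_ofReal (by positivity)
    have e1 : 1 / (1 + 1 / (d:ℝ)) = (d:ℝ) / (d + 1) := by field_simp
    have e2 : 0 ≤ (d:ℝ) / (d + 1) := by positivity
    have e3 : (d:ℝ) / (d + 1) ≤ 1 := by rw [div_le_one (by positivity)]; linarith
    have hCN : 1 ≤ C1 * N ^ (ε / d) := one_le_mul_of_one_le_of_one_le hC1 hNε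
    have e4 : (Δ ^ (1 / (d:ℝ))) ^ ((d:ℝ) / (d + 1)) = Δ ^ (1 / ((d:ℝ) + 1)) := by
      rw [← Real.rpow_mul hΔ0.le]
      congr 1
      field_simp
    have e5 : C1 * N ^ (ε / d) ≤ 2 * (2 * (C1 * (K + 1))) ^ d * N ^ ε := by
      calc C1 * N ^ (ε / d) ≤ (C1 * N ^ (ε / d)) ^ d := le_self_pow₀ hCN (by omega)
        _ = C1 ^ d * N ^ ε := by rw [mul_pow, hNe]
        _ ≤ _ := by
            have h3 : C1 ^ d ≤ (2 * (C1 * (K + 1))) ^ d :=
              pow_le_pow_left₀ (by linarith) (by nlinarith) d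
            have h4 : 0 ≤ (2 * (C1 * ((K:ℝ) + 1))) ^ d := by positivity
            have h5 : C1 ^ d ≤ 2 * (2 * (C1 * (K + 1))) ^ d := by linarith
            gcongr
    rw [multOn_eq, eLpNorm_mult N _ _ hp0 ENNReal.ofReal_ne_top, hpr, e1, ← multOn_eq,
      sum_volume_eq hN0.le]
    calc (∫⁻ x, ENNReal.ofReal (multOn S N θ c x ^ (1 + 1 / (d:ℝ)))) ^ ((d:ℝ) / (d + 1))
        ≤ (ENNReal.ofReal (C1 * N ^ (ε / d) * Δ ^ (1 / (d:ℝ)) * (S.card * N ^ (d + 2)))) ^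
            ((d:ℝ) / (d + 1)) := ENNReal.rpow_le_rpow h2 e2
      _ = ENNReal.ofReal (C1 * N ^ (ε / d) * Δ ^ (1 / (d:ℝ))) ^ ((d:ℝ) / (d + 1)) *
            ENNReal.ofReal (S.card * N ^ (d + 2)) ^ ((d:ℝ) / (d + 1)) := by
          rw [ENNReal.ofReal_mul (by positivity), ENNReal.mul_rpow_of_nonneg _ _ e2]
      _ ≤ ENNReal.ofReal (2 * (2 * (C1 * (K + 1))) ^ d * N ^ ε * Δ ^ (1 / ((d:ℝ) + 1))) *
            ENNReal.ofReal (S.card * N ^ (d + 2)) ^ ((d:ℝ) / (d + 1)) := by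
          refine mul_le_mul' ?_ le_rfl
          rw [ENNReal.ofReal_rpow_of_nonneg (by positivity) e2]
          apply ENNReal.ofReal_le_ofReal
          rw [Real.mul_rpow (by linarith) (by positivity), e4]
          have e6 : (C1 * N ^ (ε / d)) ^ ((d:ℝ) / (d + 1)) ≤ C1 * N ^ (ε / d) := by
            calc (C1 * N ^ (ε / d)) ^ ((d:ℝ) / (d + 1)) ≤ (C1 * N ^ (ε / d)) ^ (1:ℝ) :=
                  Real.rpow_le_rpow_of_exponent_le hCN e3
              _ = _ := Real.rpow_one _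
          have e7 := e6.trans e5
          gcongr
  · have h3 := union_of_crit hd hN hB₂1 (fun i : {i // i ∈ S} => θ i)
      (fun i : {i // i ∈ S} => c i) (by
        rw [← multOn_eq, Fintype.card_coe]
        exact h2')
    have hU : (⋃ i : {i // i ∈ S}, tube N (θ i) (c i)) = ⋃ i ∈ S, tube N (θ i) (c i) := by
      ext y; simp
    rw [hU] at h3
    have hsum : ∑ i : {i // i ∈ S}, volume (tube N (θ i) (c i)) =
        ∑ i ∈ S, volume (tube N (θ i) (c i)) :=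
      Finset.sum_coe_sort S fun i => volume (tube N (θ i) (c i))
    rw [hsum] at h3
    exact h3.trans (mul_le_mul' (ENNReal.ofReal_le_ofReal hB₂d) le_rfl)

end Pool.Agent.MPac5134.CS
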