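import Pool.Agent.Lib.MP_ac5134_an.CS.Decomp

/-!
The decomposition of a family of tubes into a part with the norm inequality and a part without
additive structure, for the doubling `exp (B (1 + log N)^(1/11))`.
-/

namespace Pool.Agent.MPac5134.CS

open MeasureTheory Matrix Pool.Agent.MPac5134
open scoped ENNReal Pointwise

variable {d : ℕ}

/-- the labels of the tubes in `S` are contained in a set of small doubling with at most `L |S|`
elements -/
def Structured {ι : Type*} (L N : ℝ) (θ : ι → Cap d) (c : ι → Sp d) (S : Finset ι) : Prop :=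
  SmallDoubling L (S.card : ℝ) (labelsOn S N θ c)

theorem SmallDoubling.mono {L L' M M' : ℝ} {G G' : Finset (Fin d ⊕ Fin (d + 1) → ℤ)}
    (h : SmallDoubling L M G) (hL0 : 0 ≤ L) (hL : L ≤ L') (hM : M ≤ M') (hM0 : 0 ≤ M)
    (hG : G' ⊆ G) : SmallDoubling L' M' G' := by
  obtain ⟨H, h1, h2, h3⟩ := h
  refine ⟨H, hG.trans h1, h2.trans ?_, h3.trans ?_⟩
  · exact mul_le_mul hL hM hM0 (hL0.trans hL)
  · exact mul_le_mul_of_nonneg_right hL (Nat.cast_nonneg _)

/-- the doubling is smaller than any power of `N` -/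
theorem dbg_le_const (B : ℝ) (hB : 0 ≤ B) {δ : ℝ} (hδ : 0 < δ) :
    ∃ C : ℝ, 1 ≤ C ∧ ∀ N : ℝ, 1 ≤ N → dbg B N ≤ C * N ^ δ := by
  obtain ⟨C, hC, h⟩ := absorb (c := B) (b := (1:ℝ) / 11) hB (by norm_num) (by norm_num) hδ
  refine ⟨Real.exp (δ + C), Real.one_le_exp (by positivity), ?_⟩
  intro N hN
  have hN0 : 0 < N := by linarith
  have hlog : 0 ≤ Real.log N := Real.log_nonneg hN
  have h1 := h (1 + Real.log N) (by linarith)
  unfold dbg
  rw [Real.rpow_def_of_pos hN0, ← Real.exp_add, Real.exp_le_exp]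
  calc B * (1 + Real.log N) ^ ((1:ℝ) / 11) ≤ δ * (1 + Real.log N) + C := h1
    _ = δ + C + Real.log N * δ := by ring

/-- the norm inequality for structured sets of tubes -/
theorem norm_structured (hd : 0 < d) (K : ℕ) {B κ ε : ℝ} (hB : 1 ≤ B) (hκ : 0 < κ) (hε : 0 < ε) :
    ∃ A₀ : ℝ, 1 ≤ A₀ ∧ ∀ N : ℝ, 1 ≤ N → ∀ (ι : Type) [Fintype ι] (θ : ι → Cap d) (c : ι → Sp d),
      IsCapFamily K κ N θ → ∀ S : Finset ι, Structured (dbg B N) N θ c S →
      ∀ p : ℝ≥0∞, 1 ≤ p → eLpNorm (multOn S N θ c) p volume ≤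
        ENNReal.ofReal (A₀ * N ^ ε) * eLpNorm (mult N θ (fun _ => 0)) p volume := by
  have hε2 : 0 < ε / 2 := by positivity
  have hd' : (0:ℝ) < d := by exact_mod_cast hd
  have hd1 : (1:ℝ) ≤ d := by exact_mod_cast hd
  obtain ⟨C1, hC1, h1⟩ := weak_sub (d := d) hd K hB hε2
  obtain ⟨C2, hC2, h2⟩ := norm_sub (d := d) hd K hκ
  obtain ⟨C3, hC3, h3⟩ := dbg_le_const B (by linarith) hε2
  have hk1 : (1:ℝ) ≤ (K + 1) * 5 ^ d := by
    have : (0:ℝ) ≤ K := Nat.cast_nonneg K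
    exact one_le_mul_of_one_le_of_one_le (by linarith) (one_le_pow₀ (by norm_num))
  refine ⟨C2 * (C1 * C3 * ((K + 1) * 5 ^ d)), one_le_mul_of_one_le_of_one_le hC2
    (one_le_mul_of_one_le_of_one_le (one_le_mul_of_one_le_of_one_le hC1 hC3) hk1), ?_⟩
  intro N hN ι _ θ c hfam S hst p hp
  have hN0 : 0 < N := by linarith
  have hNε : 1 ≤ N ^ (ε / 2) := Real.one_le_rpow hN hε2.le
  have hNd : 0 < N ^ d := by positivity
  have h6 : N ^ (ε / 2) * N ^ (ε / 2) = N ^ ε := by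
    rw [← Real.rpow_add hN0]; congr 1; ring
  rcases S.eq_empty_or_nonempty with h0 | hne
  · subst h0
    have : multOn (∅ : Finset ι) N θ c = 0 := by
      funext x
      unfold multOn
      simp
    rw [this, eLpNorm_zero]
    exact bot_le
  obtain ⟨H, hH1, hH2, hH3⟩ := hst
  have hSpos : (0:ℝ) < S.card := by exact_mod_cast hne.card_pos
  have hw := h1 N hN ι θ c hfam.overlap S hne H hH1 hH3
  have hcard := card_le hN (fun i : {i // i ∈ S} => θ i) (cells_sub hfam.overlap S)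
  rw [Fintype.card_coe] at hcard
  have hfr : (S.card : ℝ) / N ^ d ≤ (K + 1) * 5 ^ d := by
    rw [div_le_iff₀ hNd]
    refine hcard.trans ?_
    have h5 : (0:ℝ) ≤ 5 ^ d * N ^ d := by positivity
    nlinarith
  have hL1 : 1 ≤ dbg B N := one_le_dbg (by linarith) hN
  have hratio : ((H.card : ℝ) / S.card) ^ (1 / (d:ℝ)) ≤ C3 * N ^ (ε / 2) := by
    calc ((H.card : ℝ) / S.card) ^ (1 / (d:ℝ)) ≤ dbg B N ^ (1 / (d:ℝ)) := by
          apply Real.rpow_le_rpow (by positivity) _ (by positivity)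
          rw [div_le_iff₀ hSpos]
          exact hH2
      _ ≤ dbg B N ^ (1:ℝ) := Real.rpow_le_rpow_of_exponent_le hL1 (by
          rw [div_le_one hd']; exact hd1)
      _ = dbg B N := Real.rpow_one _
      _ ≤ C3 * N ^ (ε / 2) := h3 N hN
  have hw' : WeakBound N (C1 * C3 * N ^ ε * ((K + 1) * 5 ^ d)) (fun i : {i // i ∈ S} => θ i)
      (fun i : {i // i ∈ S} => c i) := hw.mono hN0.le (by
        calc C1 * N ^ (ε / 2) * ((H.card : ℝ) / S.card) ^ (1 / (d:ℝ)) * (S.card / N ^ d)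
            ≤ C1 * N ^ (ε / 2) * (C3 * N ^ (ε / 2)) * ((K + 1) * 5 ^ d) := by gcongr
          _ = C1 * C3 * (N ^ (ε / 2) * N ^ (ε / 2)) * ((K + 1) * 5 ^ d) := by ring
          _ = _ := by rw [h6])
  have hNε1 : 1 ≤ N ^ ε := Real.one_le_rpow hN hε.le
  have hW : 1 ≤ C1 * C3 * N ^ ε * ((K + 1) * 5 ^ d) :=
    one_le_mul_of_one_le_of_one_le (one_le_mul_of_one_le_of_one_le
      (one_le_mul_of_one_le_of_one_le hC1 hC3) hNε1) hk1
  refine (h2 N hN ι θ c hfam S _ hW hw' p hp).trans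
    (mul_le_mul' (ENNReal.ofReal_le_ofReal (le_of_eq ?_)) le_rfl)
  ring

theorem dbg_pow (B N : ℝ) (k : ℕ) : dbg B N ^ k = dbg (k * B) N := by
  unfold dbg
  rw [← Real.exp_nat_mul]
  congr 1
  ring

theorem mul_dbg_le {a B N : ℝ} (ha : 0 ≤ a) (hN : 1 ≤ N) : a * dbg B N ≤ dbg (B + a) N := by
  have hlog : 0 ≤ Real.log N := Real.log_nonneg hN
  have hz : 1 ≤ (1 + Real.log N) ^ ((1:ℝ) / 11) := Real.one_le_rpow (by linarith) (by norm_num)
  have h1 : a ≤ Real.exp (a * (1 + Real.log N) ^ ((1:ℝ) / 11)) := by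
    have h2 : a * 1 ≤ a * (1 + Real.log N) ^ ((1:ℝ) / 11) := by gcongr
    have h3 := Real.add_one_le_exp (a * (1 + Real.log N) ^ ((1:ℝ) / 11))
    linarith
  unfold dbg
  rw [add_mul, Real.exp_add, mul_comm]
  gcongr

/-- the doubling is smaller than any power of `N` -/
theorem dbg_le_rpow (B : ℝ) (hB : 0 ≤ B) {δ : ℝ} (hδ : 0 < δ) :
    ∃ N₀ : ℝ, 1 ≤ N₀ ∧ ∀ N : ℝ, N₀ ≤ N → dbg B N ≤ N ^ δ := by
  obtain ⟨C, hC, h⟩ := absorb (c := B) (b := (1:ℝ) / 11) hB (by norm_num) (by norm_num)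
    (show 0 < δ / 2 by positivity)
  refine ⟨Real.exp ((δ / 2 + C) / (δ / 2)), Real.one_le_exp (by positivity), ?_⟩
  intro N hN
  have hN0 : 0 < N := lt_of_lt_of_le (Real.exp_pos _) hN
  have hlog : (δ / 2 + C) / (δ / 2) ≤ Real.log N := (Real.le_log_iff_exp_le hN0).2 hN
  have hlog0 : 0 ≤ Real.log N := le_trans (by positivity) hlog
  rw [div_le_iff₀ (by positivity)] at hlog
  have h1 := h (1 + Real.log N) (by linarith)
  unfold dbg
  rw [Real.rpow_def_of_pos hN0, Real.exp_le_exp]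
  calc B * (1 + Real.log N) ^ ((1:ℝ) / 11) ≤ δ / 2 * (1 + Real.log N) + C := h1
    _ = (δ / 2 + C) + δ / 2 * Real.log N := by ring
    _ ≤ Real.log N * (δ / 2) + δ / 2 * Real.log N := by linarith
    _ = Real.log N * δ := by ring

theorem labels_eq {ι : Type*} [Fintype ι] (N : ℝ) (θ : ι → Cap d) (c : ι → Sp d) :
    labelsOn Finset.univ N θ c = labels N θ c := rfl

/-- The decomposition. -/
theorem decomposition (hd : 0 < d) (K : ℕ) {B κ ε : ℝ} (hB : 1 ≤ B) (hκ : 0 < κ) (hε : 0 < ε) :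
    ∃ C : ℝ, 1 ≤ C ∧ ∀ N : ℝ, 1 ≤ N → ∀ (ι : Type) [Fintype ι] [DecidableEq ι] (θ : ι → Cap d)
      (c : ι → Sp d), IsCapFamily K κ N θ →
      ∃ S : Finset ι,
        (SmallDoubling (dbg B N) (N ^ d) (labels N θ c) → S = Finset.univ) ∧
        (∀ p : ℝ≥0∞, 1 ≤ p → eLpNorm (multOn S N θ c) p volume ≤
          ENNReal.ofReal (C * N ^ ε) * eLpNorm (mult N θ (fun _ => 0)) p volume) ∧
        (∀ S' : Finset ι, Disjoint S S' → Structured (dbg B N) N θ c S' →
          (S'.card : ℝ) ≤ N ^ (d - ε / 2)) ∧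
        (((labelsOn Sᶜ N θ c).addEnergy (labelsOn Sᶜ N θ c) : ℕ) : ℝ) ≤
          N ^ (3 * d) / dbg B N := by
  obtain ⟨k₀, hk₀⟩ : ∃ k₀ : ℝ, k₀ = (K + 1) * 5 ^ d := ⟨_, rfl⟩
  have hk1 : 1 ≤ k₀ := by
    rw [hk₀]
    have : (0:ℝ) ≤ K := Nat.cast_nonneg K
    exact one_le_mul_of_one_le_of_one_le (by linarith) (one_le_pow₀ (by norm_num))
  obtain ⟨c₀, hc₀⟩ : ∃ c₀ : ℝ, c₀ = 2 * k₀ ^ 3 := ⟨_, rfl⟩
  have hc₀1 : 1 ≤ c₀ := by
    rw [hc₀]
    have : 1 ≤ k₀ ^ 3 := one_le_pow₀ hk1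
    linarith
  obtain ⟨a₁, ha₁⟩ : ∃ a₁ : ℝ, a₁ = 2 ^ 95 * c₀ ^ 36 := ⟨_, rfl⟩
  have ha₁0 : 0 ≤ a₁ := by rw [ha₁]; positivity
  obtain ⟨B₁, hB₁⟩ : ∃ B₁ : ℝ, B₁ = 36 * B + (a₁ + 1 / κ) := ⟨_, rfl⟩
  have hκi : 0 ≤ 1 / κ := by positivity
  have hBB₁ : B ≤ B₁ := by rw [hB₁]; linarith
  have hB₁1 : 1 ≤ B₁ := hB.trans hBB₁
  have hε2 : 0 < ε / 2 := by positivity
  obtain ⟨A₀, hA₀, hnorm⟩ := norm_structured hd K hB₁1 hκ hε2
  obtain ⟨N₀, hN₀, hbig⟩ := dbg_le_rpow (4 * B₁) (by linarith) hε2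
  have hN₀0 : 0 < N₀ := by linarith
  refine ⟨k₀ * A₀ + k₀ * N₀ ^ d, by
    have h1 : 1 ≤ k₀ * A₀ := one_le_mul_of_one_le_of_one_le hk1 hA₀
    have h2 : 0 ≤ k₀ * N₀ ^ d := by positivity
    linarith, ?_⟩
  intro N hN ι _ _ θ c hfam
  have hN0 : 0 < N := by linarith
  have hNε : 1 ≤ N ^ ε := Real.one_le_rpow hN hε.le
  have hNε2 : 1 ≤ N ^ (ε / 2) := Real.one_le_rpow hN hε2.le
  have hNd : 0 < N ^ d := by positivity
  have hkN : 0 ≤ k₀ * N₀ ^ d := by positivity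
  have hkA : 0 ≤ k₀ * A₀ := by positivity
  have hL1 : 1 ≤ dbg B N := one_le_dbg (by linarith) hN
  have hL1' : 1 ≤ dbg B₁ N := one_le_dbg (by linarith) hN
  have hcardι : (Fintype.card ι : ℝ) ≤ k₀ * N ^ d := by
    refine (card_le hN θ hfam.overlap).trans ?_
    rw [hk₀]
    have h5 : (0:ℝ) ≤ 5 ^ d * N ^ d := by positivity
    nlinarith
  have hempty : ∀ S' : Finset ι, Disjoint (Finset.univ : Finset ι) S' →
      (S'.card : ℝ) ≤ N ^ (d - ε / 2) := by
    intro S' h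
    have : S' = ∅ := by
      rw [← Finset.subset_empty, ← Finset.compl_univ]
      exact Finset.subset_compl_iff_disjoint_left.2 h
    rw [this]
    simp only [Finset.card_empty, Nat.cast_zero]
    positivity
  have hempty2 : (((labelsOn (Finset.univ : Finset ι)ᶜ N θ c).addEnergy
      (labelsOn (Finset.univ : Finset ι)ᶜ N θ c) : ℕ) : ℝ) ≤ N ^ (3 * d) / dbg B N := by
    have : labelsOn (Finset.univ : Finset ι)ᶜ N θ c = ∅ := by
      unfold labelsOn
      rw [Finset.compl_univ, Finset.image_empty]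
    rw [this]
    simp only [Finset.addEnergy_empty_left, Nat.cast_zero]
    positivity
  by_cases hsd : SmallDoubling (dbg B N) (N ^ d) (labels N θ c)
  · -- all tubes
    have hst : Structured (dbg B₁ N) N θ c Finset.univ := by
      obtain ⟨H, h1, h2, h3⟩ := hsd
      refine ⟨H, by rw [labels_eq]; exact h1, ?_, h3.trans (by
        have := dbg_mono hN hBB₁
        gcongr)⟩
      have hm := hfam.many
      have h4 : N ^ d ≤ (1 / κ) * Fintype.card ι := by
        rw [one_div, ← div_eq_inv_mul, le_div_iff₀ hκ]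
        linarith
      rw [Finset.card_univ]
      calc (H.card : ℝ) ≤ dbg B N * N ^ d := h2
        _ ≤ dbg B N * ((1 / κ) * Fintype.card ι) := by gcongr
        _ = (1 / κ * dbg B N) * Fintype.card ι := by ring
        _ ≤ dbg (B + 1 / κ) N * Fintype.card ι := by
            have := mul_dbg_le (B := B) hκi hN
            gcongr
        _ ≤ dbg B₁ N * Fintype.card ι := by
            have := dbg_mono hN (show B + 1 / κ ≤ B₁ by rw [hB₁]; linarith)
            gcongr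
    refine ⟨Finset.univ, fun _ => rfl, ?_, fun S' h _ => hempty S' h, hempty2⟩
    intro p hp
    refine (hnorm N hN ι θ c hfam _ hst p hp).trans
      (mul_le_mul' (ENNReal.ofReal_le_ofReal ?_) le_rfl)
    have h1 : N ^ (ε / 2) ≤ N ^ ε := Real.rpow_le_rpow_of_exponent_le hN (by linarith)
    have h2 : A₀ ≤ k₀ * A₀ := le_mul_of_one_le_left (by linarith) hk1
    have h3 : A₀ ≤ k₀ * A₀ + k₀ * N₀ ^ d := by linarith
    exact mul_le_mul h3 h1 (by positivity) (by linarith)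
  by_cases hNN : N < N₀
  · -- small `N`
    refine ⟨Finset.univ, fun _ => rfl, ?_, fun S' h _ => hempty S' h, hempty2⟩
    intro p hp
    refine (trivial_norm hN θ c _ p hp).trans (mul_le_mul' (ENNReal.ofReal_le_ofReal ?_) le_rfl)
    calc (Fintype.card ι : ℝ) ≤ k₀ * N ^ d := hcardι
      _ ≤ k₀ * N₀ ^ d := by gcongr
      _ ≤ (k₀ * A₀ + k₀ * N₀ ^ d) * 1 := by linarith
      _ ≤ _ := by gcongr
  rw [not_lt] at hNN
  -- the greedy decomposition
  have hthr0 : 0 < N ^ ((d:ℝ) - ε / 2) := Real.rpow_pos_of_pos hN0 _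
  have hNsplit : N ^ (ε / 2) * N ^ ((d:ℝ) - ε / 2) = N ^ d := by
    rw [← Real.rpow_add hN0, ← Real.rpow_natCast]
    congr 1
    ring
  obtain ⟨S, hS1, hS2⟩ := greedy θ c (A := A₀ * N ^ (ε / 2)) (thr := N ^ ((d:ℝ) - ε / 2))
    (X := k₀ * N ^ (ε / 2)) (by positivity) hthr0 (by
      rw [mul_assoc, hNsplit]
      exact hcardι) (Structured (dbg B₁ N) N θ c) (fun S hS p hp =>
        hnorm N hN ι θ c hfam S hS p hp)
  refine ⟨S, fun h => absurd h hsd, ?_, ?_, ?_⟩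
  · intro p hp
    refine (hS1 p hp).trans (mul_le_mul' (ENNReal.ofReal_le_ofReal ?_) le_rfl)
    have h6 : N ^ (ε / 2) * N ^ (ε / 2) = N ^ ε := by
      rw [← Real.rpow_add hN0]; congr 1; ring
    calc k₀ * N ^ (ε / 2) * (A₀ * N ^ (ε / 2)) = k₀ * A₀ * (N ^ (ε / 2) * N ^ (ε / 2)) := by ring
      _ = k₀ * A₀ * N ^ ε := by rw [h6]
      _ ≤ _ := by gcongr; linarith
  · intro S' hdis hst
    refine hS2 S' hdis ?_
    exact SmallDoubling.mono hst (by linarith) (dbg_mono hN hBB₁) le_rfl (Nat.cast_nonneg _)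
      subset_rfl
  · -- the energy
    by_contra hcon
    rw [not_le] at hcon
    obtain ⟨G, hG⟩ : ∃ G : Finset (Fin d ⊕ Fin (d + 1) → ℤ), G = labelsOn Sᶜ N θ c := ⟨_, rfl⟩
    rw [← hG] at hcon
    obtain ⟨E, hE⟩ : ∃ E : ℕ, E = G.addEnergy G := ⟨_, rfl⟩
    rw [← hE] at hcon
    have hL0 : 0 < dbg B N := by linarith
    have hN3 : N ^ (3 * d) = (N ^ d) ^ 3 := by rw [← pow_mul]; congr 1; ring
    rw [div_lt_iff₀ hL0] at hcon
    have hE0 : (0:ℝ) < E := by
      have h1 : (0:ℝ) < E * dbg B N := lt_trans (by positivity) hcon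
      by_contra h
      have h2 : (E:ℝ) * dbg B N ≤ 0 := mul_nonpos_of_nonpos_of_nonneg (not_lt.1 h) hL0.le
      linarith
    have hGne : G.Nonempty := by
      rw [Finset.nonempty_iff_ne_empty]
      intro h
      rw [h] at hE
      simp only [Finset.addEnergy_empty_left] at hE
      rw [hE] at hE0
      simp at hE0
    have hGc : (G.card : ℝ) ≤ k₀ * N ^ d := by
      refine le_trans ?_ hcardι
      have h1 : G.card ≤ Fintype.card ι := by
        rw [hG]
        unfold labelsOn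
        exact Finset.card_image_le.trans (Finset.card_le_univ _)
      exact_mod_cast h1
    obtain ⟨D, hD⟩ : ∃ D : ℕ, D = ⌈k₀ ^ 3 * dbg B N⌉₊ := ⟨_, rfl⟩
    have hkL : 1 ≤ k₀ ^ 3 * dbg B N := one_le_mul_of_one_le_of_one_le (one_le_pow₀ hk1) hL1
    have hD1 : 1 ≤ D := by rw [hD]; exact Nat.one_le_ceil_iff.mpr (by linarith)
    have hDge : k₀ ^ 3 * dbg B N ≤ D := by rw [hD]; exact Nat.le_ceil _
    have hDle : (D:ℝ) ≤ c₀ * dbg B N := by
      have := (Nat.ceil_lt_add_one (by linarith : 0 ≤ k₀ ^ 3 * dbg B N)).le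
      rw [hD, hc₀]
      linarith
    have hGE : G.card ^ 3 ≤ D * G.addEnergy G := by
      have h1 : ((G.card : ℝ)) ^ 3 ≤ D * E := by
        calc ((G.card : ℝ)) ^ 3 ≤ (k₀ * N ^ d) ^ 3 := by gcongr
          _ = k₀ ^ 3 * (N ^ d) ^ 3 := by ring
          _ ≤ k₀ ^ 3 * (E * dbg B N) := by
              rw [← hN3]
              gcongr
          _ = (k₀ ^ 3 * dbg B N) * E := by ring
          _ ≤ D * E := by gcongr
      rw [hE] at h1
      exact_mod_cast h1
    obtain ⟨G', hG'G, hGG', hG'2⟩ := BSG.bsg_explicit D G hGne hGE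
    have hEe : (128 * D ^ 2 * (4096 * (2 * D) ^ 8) ^ 2) ^ 2 + 16 * D = bsgNat D := rfl
    rw [hEe] at hGG' hG'2
    have hbsg : ((bsgNat D : ℕ) : ℝ) ≤ dbg B₁ N := by
      refine (bsgNat_le hD1).trans ?_
      calc (2:ℝ) ^ 95 * (D:ℝ) ^ 36 ≤ 2 ^ 95 * (c₀ * dbg B N) ^ 36 := by gcongr
        _ = a₁ * dbg B N ^ 36 := by rw [ha₁, mul_pow]; ring
        _ = a₁ * dbg ((36:ℕ) * B) N := by rw [dbg_pow]
        _ ≤ dbg ((36:ℕ) * B + a₁) N := mul_dbg_le ha₁0 hN
        _ ≤ dbg B₁ N := dbg_mono hN (by rw [hB₁]; push_cast; linarith)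
    obtain ⟨S', hS'⟩ : ∃ S' : Finset ι,
        S' = Sᶜ.filter (fun i => label N (θ i) (c i) ∈ G') := ⟨_, rfl⟩
    have hG'S' : G'.card ≤ S'.card := by
      have h3 : G' ⊆ S'.image (fun i => label N (θ i) (c i)) := by
        intro g hg
        have h4 := hG'G hg
        rw [hG] at h4
        unfold labelsOn at h4
        rw [Finset.mem_image] at h4
        obtain ⟨i, hi, hig⟩ := h4
        rw [Finset.mem_image]
        refine ⟨i, ?_, hig⟩
        rw [hS', Finset.mem_filter]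
        exact ⟨hi, by rw [hig]; exact hg⟩
      exact (Finset.card_le_card h3).trans Finset.card_image_le
    have hst : Structured (dbg B₁ N) N θ c S' := by
      refine ⟨G', ?_, ?_, ?_⟩
      · intro g hg
        unfold labelsOn at hg
        rw [Finset.mem_image] at hg
        obtain ⟨i, hi, rfl⟩ := hg
        rw [hS'] at hi
        exact (Finset.mem_filter.1 hi).2
      · have h5 : (G'.card : ℝ) ≤ S'.card := by exact_mod_cast hG'S'
        refine h5.trans (le_mul_of_one_le_left (Nat.cast_nonneg _) hL1')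
      · have h5 : ((G' + G').card : ℝ) ≤ bsgNat D * G'.card := by exact_mod_cast hG'2
        refine h5.trans ?_
        gcongr
    have hdis : Disjoint S S' := by
      rw [hS']
      exact Finset.disjoint_of_subset_right (Finset.filter_subset _ _) disjoint_compl_right
    have h7 := hS2 S' hdis hst
    have h8 : (G.card : ℝ) ≤ dbg B₁ N * N ^ ((d:ℝ) - ε / 2) := by
      have h9 : (G.card : ℝ) ≤ bsgNat D * G'.card := by exact_mod_cast hGG'
      have h10 : (G'.card : ℝ) ≤ S'.card := by exact_mod_cast hG'S'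
      calc (G.card : ℝ) ≤ bsgNat D * G'.card := h9
        _ ≤ dbg B₁ N * G'.card := by gcongr
        _ ≤ dbg B₁ N * N ^ ((d:ℝ) - ε / 2) := by
            have := h10.trans h7
            gcongr
    have h11 : (E:ℝ) ≤ (G.card : ℝ) ^ 3 := by
      rw [hE]
      exact_mod_cast addEnergy_le G
    have h12 := hbig N hNN
    rw [show (4:ℝ) * B₁ = ((4:ℕ) : ℝ) * B₁ by norm_num, ← dbg_pow] at h12
    have h13 : (N ^ d) ^ 3 < (N ^ d) ^ 3 := by
      calc (N ^ d) ^ 3 < E * dbg B N := by rw [← hN3]; exact hcon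
        _ ≤ (dbg B₁ N * N ^ ((d:ℝ) - ε / 2)) ^ 3 * dbg B₁ N := by
            have h14 := dbg_mono hN hBB₁
            have h15 : (E:ℝ) ≤ (dbg B₁ N * N ^ ((d:ℝ) - ε / 2)) ^ 3 :=
              h11.trans (pow_le_pow_left₀ (Nat.cast_nonneg _) h8 3)
            gcongr
        _ = dbg B₁ N ^ 4 * (N ^ ((d:ℝ) - ε / 2)) ^ 3 := by ring
        _ ≤ N ^ (ε / 2) * (N ^ ((d:ℝ) - ε / 2)) ^ 3 := by gcongr
        _ ≤ (N ^ (ε / 2)) ^ 3 * (N ^ ((d:ℝ) - ε / 2)) ^ 3 := by
            have : N ^ (ε / 2) ≤ (N ^ (ε / 2)) ^ 3 := le_self_pow₀ hNε2 (by norm_num)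
            gcongr
        _ = (N ^ d) ^ 3 := by rw [← mul_pow, hNsplit]
    exact lt_irrefl _ h13

/-- The norm inequality for families whose labels are contained in a set of small doubling. -/
theorem norm_main (hd : 0 < d) (K : ℕ) {B κ ε : ℝ} (hB : 1 ≤ B) (hκ : 0 < κ) (hε : 0 < ε) :
    ∃ C : ℝ, 1 ≤ C ∧ ∀ N : ℝ, 1 ≤ N → ∀ (ι : Type) [Fintype ι] (θ : ι → Cap d) (c : ι → Sp d),
      IsCapFamily K κ N θ → ∀ H : Finset (Fin d ⊕ Fin (d + 1) → ℤ), labels N θ c ⊆ H →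
      ((H + H).card : ℝ) ≤ dbg B N * H.card →
      ∀ p : ℝ≥0∞, 1 ≤ p → eLpNorm (mult N θ c) p volume ≤
        ENNReal.ofReal (C * N ^ ε * ((H.card : ℝ) / N ^ d) ^
          (min (1 / (d * p.toReal)) (1 - 1 / p.toReal))) *
          eLpNorm (mult N θ (fun _ => 0)) p volume := by
  have hd' : (0:ℝ) < d := by exact_mod_cast hd
  have hd1 : (1:ℝ) ≤ d := by exact_mod_cast hd
  obtain ⟨C1, hC1, h1⟩ := add_weak_cs (d := d) hd K hB hε
  obtain ⟨C2, hC2, h2⟩ := weak_to_norm (d := d) hd K hκ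
  have hK0 : (0:ℝ) ≤ K := Nat.cast_nonneg K
  obtain ⟨k₀, hk₀⟩ : ∃ k₀ : ℝ, k₀ = (K + 1) * 5 ^ d := ⟨_, rfl⟩
  have hk1 : 1 ≤ k₀ := by
    rw [hk₀]
    exact one_le_mul_of_one_le_of_one_le (by linarith) (one_le_pow₀ (by norm_num))
  obtain ⟨b, hb⟩ : ∃ b : ℝ, b = (K + 1) * (1 + 1 / κ) := ⟨_, rfl⟩
  have hκi : 0 ≤ 1 / κ := by positivity
  have hb1 : 1 ≤ b := by
    rw [hb]
    exact one_le_mul_of_one_le_of_one_le (by linarith) (by linarith)
  have hCk : 1 ≤ C1 * (b * k₀) := one_le_mul_of_one_le_of_one_le hC1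
    (one_le_mul_of_one_le_of_one_le hb1 hk1)
  refine ⟨C2 * (C1 * (b * k₀)), one_le_mul_of_one_le_of_one_le hC2 hCk, ?_⟩
  intro N hN ι _ θ c hfam H hH hHH p hp
  have hN0 : 0 < N := by linarith
  have hNε : 1 ≤ N ^ ε := Real.one_le_rpow hN hε.le
  have hNd : 0 < N ^ d := by positivity
  have hι : (0:ℝ) < Fintype.card ι := lt_of_lt_of_le (by positivity) hfam.many
  have hne : Nonempty ι := by
    rw [← Fintype.card_pos_iff]
    exact_mod_cast hι
  have hlab : ∀ i, label N (θ i) (c i) ∈ H := by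
    intro i
    apply hH
    unfold labels
    exact Finset.mem_image_of_mem _ (Finset.mem_univ i)
  have hw := h1 N hN ι θ c hfam.overlap H hlab hHH
  obtain ⟨X, hX⟩ : ∃ X : ℝ, X = (H.card : ℝ) / N ^ d := ⟨_, rfl⟩
  have hcardH : (Fintype.card ι : ℝ) ≤ K * H.card := by
    exact_mod_cast card_le_labels hfam.overlap H hlab
  have hbX : 1 ≤ b * X := by
    have h4 : N ^ d ≤ 1 / κ * Fintype.card ι := by
      rw [one_div, ← div_eq_inv_mul, le_div_iff₀ hκ]
      linarith [hfam.many]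
    have h5 : N ^ d ≤ b * H.card := by
      calc N ^ d ≤ 1 / κ * Fintype.card ι := h4
        _ ≤ 1 / κ * (K * H.card) := by gcongr
        _ ≤ (1 + 1 / κ) * ((K + 1) * H.card) := by
            gcongr
            · linarith
            · linarith
        _ = b * H.card := by rw [hb]; ring
    rw [hX, ← mul_div_assoc, le_div_iff₀ hNd]
    linarith
  have hX0 : 0 < X := by
    by_contra h
    have : b * X ≤ 0 := mul_nonpos_of_nonneg_of_nonpos (by linarith) (not_lt.1 h)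
    linarith
  have hdinv : 0 ≤ 1 / (d:ℝ) := by positivity
  -- the weak type constant
  have hfr : (Fintype.card ι : ℝ) / N ^ d ≤ k₀ := by
    rw [div_le_iff₀ hNd]
    refine (card_le hN θ hfam.overlap).trans ?_
    rw [hk₀]
    have h5 : (0:ℝ) ≤ 5 ^ d * N ^ d := by positivity
    nlinarith
  have hιH : ((H.card : ℝ) / Fintype.card ι) ^ (1 / (d:ℝ)) * ((Fintype.card ι : ℝ) / N ^ d) ≤
      k₀ * (b * X) ^ (1 / (d:ℝ)) := by
    obtain ⟨u, hu⟩ : ∃ u : ℝ, u = (Fintype.card ι : ℝ) / N ^ d := ⟨_, rfl⟩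
    have hu0 : 0 < u := by rw [hu]; positivity
    have e1 : (H.card : ℝ) / Fintype.card ι = X / u := by
      rw [hX, hu]
      field_simp
    rw [e1, ← hu]
    rw [← hu] at hfr
    rcases le_or_gt 1 u with hu1 | hu1
    · calc (X / u) ^ (1 / (d:ℝ)) * u ≤ (b * X) ^ (1 / (d:ℝ)) * k₀ := by
            have h5 : X / u ≤ b * X := by
              calc X / u ≤ X := div_le_self hX0.le hu1
                _ ≤ b * X := le_mul_of_one_le_left hX0.le hb1
            have h6 : (X / u) ^ (1 / (d:ℝ)) ≤ (b * X) ^ (1 / (d:ℝ)) :=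
              Real.rpow_le_rpow (by positivity) h5 hdinv
            exact mul_le_mul h6 hfr hu0.le (by positivity)
        _ = _ := by ring
    · have h5 : u ≤ u ^ (1 / (d:ℝ)) := by
        calc u = u ^ (1:ℝ) := (Real.rpow_one u).symm
          _ ≤ u ^ (1 / (d:ℝ)) := Real.rpow_le_rpow_of_exponent_ge hu0 hu1.le (by
              rw [div_le_one hd']; exact hd1)
      calc (X / u) ^ (1 / (d:ℝ)) * u ≤ (X / u) ^ (1 / (d:ℝ)) * u ^ (1 / (d:ℝ)) := by gcongr
        _ = X ^ (1 / (d:ℝ)) := by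
            rw [← Real.mul_rpow (by positivity) hu0.le, div_mul_cancel₀ _ hu0.ne']
        _ ≤ (b * X) ^ (1 / (d:ℝ)) := by
            apply Real.rpow_le_rpow hX0.le _ hdinv
            exact le_mul_of_one_le_left hX0.le hb1
        _ ≤ k₀ * (b * X) ^ (1 / (d:ℝ)) := le_mul_of_one_le_left (by positivity) hk1
  obtain ⟨W, hW⟩ : ∃ W : ℝ, W = C1 * N ^ ε * (k₀ * (b * X) ^ (1 / (d:ℝ))) := ⟨_, rfl⟩
  have hW1 : 1 ≤ W := by
    rw [hW]
    exact one_le_mul_of_one_le_of_one_le (one_le_mul_of_one_le_of_one_le hC1 hNε)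
      (one_le_mul_of_one_le_of_one_le hk1 (Real.one_le_rpow hbX hdinv))
  have hww : WeakBound N W θ c := hw.mono hN0.le (by
    rw [hW]
    calc C1 * N ^ ε * ((H.card : ℝ) / Fintype.card ι) ^ (1 / (d:ℝ)) *
          ((Fintype.card ι : ℝ) / N ^ d)
        = C1 * N ^ ε * (((H.card : ℝ) / Fintype.card ι) ^ (1 / (d:ℝ)) *
          ((Fintype.card ι : ℝ) / N ^ d)) := by ring
      _ ≤ _ := by gcongr)
  refine (h2 N hN ι θ c hfam W hW1 hww p hp).trans
    (mul_le_mul' (ENNReal.ofReal_le_ofReal ?_) le_rfl)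
  rw [← hX]
  obtain ⟨s, hs⟩ : ∃ s : ℝ, s = min (1 / p.toReal) (d * (1 - 1 / p.toReal)) := ⟨_, rfl⟩
  obtain ⟨q, hq⟩ : ∃ q : ℝ, q = min (1 / (d * p.toReal)) (1 - 1 / p.toReal) := ⟨_, rfl⟩
  have hsq : s / d = q := by
    rw [hs, hq, ← min_div_div_right hd'.le]
    congr 1
    · rw [div_div, mul_comm]
    · field_simp
  have hs01 : 0 ≤ s ∧ s ≤ 1 := by
    by_cases hpt : p = ⊤
    · rw [hs, hpt]; simp
    · have hr1 : 1 ≤ p.toReal := by
        have := ENNReal.toReal_mono hpt hp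
        simpa using this
      have hr0 : 0 < p.toReal := by linarith
      have h7 : 1 / p.toReal ≤ 1 := by rw [div_le_one hr0]; exact hr1
      constructor
      · rw [hs]
        exact le_min (by positivity) (mul_nonneg hd'.le (by linarith))
      · rw [hs]
        exact (min_le_left _ _).trans h7
  have hq0 : 0 ≤ q := by rw [← hsq]; exact div_nonneg hs01.1 hd'.le
  have hq1 : q ≤ 1 := by
    rw [← hsq]
    exact (div_le_one hd').2 (hs01.2.trans hd1)
  rw [← hs, ← hq]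
  have hWs : W ^ s ≤ C1 * (b * k₀) * N ^ ε * X ^ q := by
    have hCN : 1 ≤ C1 * N ^ ε := one_le_mul_of_one_le_of_one_le hC1 hNε
    have e1 : W ^ s = (C1 * N ^ ε) ^ s * (k₀ ^ s * (b ^ q * X ^ q)) := by
      have e0 : ((b * X) ^ (1 / (d:ℝ))) ^ s = b ^ q * X ^ q := by
        rw [← Real.rpow_mul (by positivity), ← Real.mul_rpow (by linarith) hX0.le]
        congr 1
        rw [← hsq]
        ring
      have hkk : 0 ≤ k₀ := by linarith
      rw [hW, Real.mul_rpow (by positivity) (by positivity),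
        Real.mul_rpow hkk (by positivity), e0]
    have e2 : (C1 * N ^ ε) ^ s ≤ C1 * N ^ ε := by
      calc (C1 * N ^ ε) ^ s ≤ (C1 * N ^ ε) ^ (1:ℝ) :=
            Real.rpow_le_rpow_of_exponent_le hCN hs01.2
        _ = _ := Real.rpow_one _
    have e3 : k₀ ^ s ≤ k₀ := by
      calc k₀ ^ s ≤ k₀ ^ (1:ℝ) := Real.rpow_le_rpow_of_exponent_le hk1 hs01.2
        _ = _ := Real.rpow_one _
    have e4 : b ^ q ≤ b := by
      calc b ^ q ≤ b ^ (1:ℝ) := Real.rpow_le_rpow_of_exponent_le hb1 hq1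
        _ = _ := Real.rpow_one _
    rw [e1]
    calc (C1 * N ^ ε) ^ s * (k₀ ^ s * (b ^ q * X ^ q))
        ≤ (C1 * N ^ ε) * (k₀ * (b * X ^ q)) := by gcongr
      _ = _ := by ring
  calc C2 * W ^ s ≤ C2 * (C1 * (b * k₀) * N ^ ε * X ^ q) := by gcongr
    _ = _ := by ring

/-- The norm inequality for families whose labels have small doubling. -/
theorem norm_doubling (hd : 0 < d) (K : ℕ) {ε : ℝ} (hε : 0 < ε) (hε1 : ε ≤ 1) :
    ∃ C : ℝ, 1 ≤ C ∧ ∀ N : ℝ, 1 ≤ N → ∀ (ι : Type) [Fintype ι] (θ : ι → Cap d) (c : ι → Sp d),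
      IsCapFamily K ε N θ →
      ((labels N θ c + labels N θ c).card : ℝ) ≤
        Real.exp ((1 + Real.log N) ^ ((1:ℝ) / 11) / ε) * (labels N θ c).card →
      ∀ p : ℝ≥0∞, 1 ≤ p → eLpNorm (mult N θ c) p volume ≤
        ENNReal.ofReal (C * N ^ ε) * eLpNorm (mult N θ (fun _ => 0)) p volume := by
  have hB : 1 ≤ 1 / ε := by rw [le_div_iff₀ hε]; linarith
  obtain ⟨C, hC, h⟩ := norm_main (d := d) hd K hB hε hε
  obtain ⟨k₀, hk₀⟩ : ∃ k₀ : ℝ, k₀ = (K + 1) * 5 ^ d := ⟨_, rfl⟩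
  have hk1 : 1 ≤ k₀ := by
    rw [hk₀]
    have : (0:ℝ) ≤ K := Nat.cast_nonneg K
    exact one_le_mul_of_one_le_of_one_le (by linarith) (one_le_pow₀ (by norm_num))
  refine ⟨C * k₀, one_le_mul_of_one_le_of_one_le hC hk1, ?_⟩
  intro N hN ι _ θ c hfam hdb p hp
  have hN0 : 0 < N := by linarith
  have hNd : 0 < N ^ d := by positivity
  have hd1 : (1:ℝ) ≤ d := by exact_mod_cast hd
  have hdbg : dbg (1 / ε) N = Real.exp ((1 + Real.log N) ^ ((1:ℝ) / 11) / ε) := by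
    unfold dbg
    congr 1
    ring
  rw [← hdbg] at hdb
  refine (h N hN ι θ c hfam (labels N θ c) subset_rfl hdb p hp).trans
    (mul_le_mul' (ENNReal.ofReal_le_ofReal ?_) le_rfl)
  obtain ⟨q, hq⟩ : ∃ q : ℝ, q = min (1 / (d * p.toReal)) (1 - 1 / p.toReal) := ⟨_, rfl⟩
  rw [← hq]
  have hq01 : 0 ≤ q ∧ q ≤ 1 := by
    by_cases hpt : p = ⊤
    · rw [hq, hpt]; simp
    · have hr1 : 1 ≤ p.toReal := by
        have := ENNReal.toReal_mono hpt hp
        simpa using this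
      have hr0 : 0 < p.toReal := by linarith
      have h7 : 1 / p.toReal ≤ 1 := by rw [div_le_one hr0]; exact hr1
      have h8 : 0 ≤ 1 / p.toReal := by positivity
      constructor
      · rw [hq]
        exact le_min (by positivity) (by linarith)
      · rw [hq]
        exact (min_le_right _ _).trans (by linarith)
  have hX : ((labels N θ c).card : ℝ) / N ^ d ≤ k₀ := by
    rw [div_le_iff₀ hNd]
    have h1 : ((labels N θ c).card : ℝ) ≤ Fintype.card ι := by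
      have : (labels N θ c).card ≤ Fintype.card ι := by
        unfold labels
        exact Finset.card_image_le.trans (Finset.card_le_univ _)
      exact_mod_cast this
    refine h1.trans ((card_le hN θ hfam.overlap).trans ?_)
    rw [hk₀]
    have h5 : (0:ℝ) ≤ 5 ^ d * N ^ d := by positivity
    nlinarith
  have hXq : (((labels N θ c).card : ℝ) / N ^ d) ^ q ≤ k₀ := by
    calc (((labels N θ c).card : ℝ) / N ^ d) ^ q ≤ k₀ ^ q :=
          Real.rpow_le_rpow (by positivity) hX hq01.1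
      _ ≤ k₀ ^ (1:ℝ) := Real.rpow_le_rpow_of_exponent_le hk1 hq01.2
      _ = k₀ := Real.rpow_one _
  calc C * N ^ ε * (((labels N θ c).card : ℝ) / N ^ d) ^ q ≤ C * N ^ ε * k₀ := by gcongr
    _ = _ := by ring

end Pool.Agent.MPac5134.CS
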