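import Pool.Agent.Lib.MP_ac5134_an.AddQ2
import Pool.Agent.Lib.MP_ac5134_an.CS.Const
import Pool.Agent.Lib.MP_ac5134_an.CS.Final
import Pool.Agent.Lib.MP_ac5134_an.CS.ProgWeak
import Pool.Agent.Lib.MP_ac5134_an.CS.Core2

/-!
The weak type estimate for all families whose labels lie in a set `H` of doubling
`exp (B (1 + log N)^(1/11))`, with no lower bound for the number of tubes: the constant is
proportional to `#H^(1/d) #ι^(1 - 1/d)`.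
-/

namespace Pool.Agent.MPac5134.CS

open MeasureTheory Matrix Pool.Agent.MPac5134 Pool.Agent.MPac5134.Lat
open scoped ENNReal Pointwise

variable {d : ℕ}

/-- the range for the doubling -/
noncomputable def dbg (B N : ℝ) : ℝ := Real.exp (B * (1 + Real.log N) ^ ((1:ℝ) / 11))

theorem card_le_labels {K : ℕ} {N : ℝ} {ι : Type*} [Fintype ι] {θ : ι → Cap d} {c : ι → Sp d}
    (hover : ∀ z : Fin d → ℤ, ∀ s : Finset ι, (∀ i ∈ s, cell N (θ i) = z) → s.card ≤ K)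
    (H : Finset (Fin d ⊕ Fin (d + 1) → ℤ)) (hH : ∀ i, label N (θ i) (c i) ∈ H) :
    Fintype.card ι ≤ K * H.card := by
  classical
  have h1 : (Finset.univ : Finset ι).card ≤
      K * ((Finset.univ : Finset ι).image (fun i => label N (θ i) (c i))).card := by
    apply Finset.card_le_mul_card_image
    intro g _
    apply hover (fun m => g (Sum.inl m))
    intro i hi
    have h3 := (Finset.mem_filter.1 hi).2
    funext m
    rw [← h3]; rfl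
  rw [Finset.card_univ] at h1
  refine h1.trans (Nat.mul_le_mul_left _ (Finset.card_le_card ?_))
  intro g hg
  obtain ⟨i, -, rfl⟩ := Finset.mem_image.1 hg
  exact hH i

theorem add_weak_cs (hd : 0 < d) (K : ℕ) {B ε : ℝ} (hB : 1 ≤ B) (hε : 0 < ε) :
    ∃ C : ℝ, 1 ≤ C ∧ ∀ N : ℝ, 1 ≤ N → ∀ (ι : Type) [Fintype ι] [Nonempty ι] (θ : ι → Cap d)
      (c : ι → Sp d), (∀ z : Fin d → ℤ, ∀ s : Finset ι, (∀ i ∈ s, cell N (θ i) = z) → s.card ≤ K) →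
      ∀ H : Finset (Fin d ⊕ Fin (d + 1) → ℤ), (∀ i, label N (θ i) (c i) ∈ H) →
      ((H + H).card : ℝ) ≤ dbg B N * H.card →
      WeakBound N (C * N ^ ε * ((H.card : ℝ) / Fintype.card ι) ^ (1 / (d:ℝ)) *
        (Fintype.card ι / N ^ d)) θ c := by
  have hε2 : 0 < ε / 2 := by positivity
  obtain ⟨a₀, ha₀, hcore⟩ := core_explicit2 d hd hε2
  have hcc1 := capConst_nonneg d K 1
  have hcc2 := capConst_nonneg d K (1 + 1)
  have hq : 0 ≤ addConst2 d K 1 1 := by unfold addConst2; positivity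
  have hK0 : (0:ℝ) ≤ K := Nat.cast_nonneg K
  obtain ⟨cc, hcc⟩ : ∃ cc : ℝ, cc = capConst d K 1 * capConst d K (1 + 1) := ⟨_, rfl⟩
  have hcc0 : 0 ≤ cc := by rw [hcc]; positivity
  obtain ⟨c5, hc5, hconst⟩ := const_bound_cs (a₀ := a₀) (s := addConst2 d K 1 1)
    (F := formBound d 1) (cc := cc) (k := (K:ℝ) + 1) ha₀ hq one_le_formBound hcc0 (by linarith)
  obtain ⟨c', hc', hpar⟩ := exists_param' hB
  obtain ⟨Ct, hCt, htow⟩ := tower_bound_cs (c := c5) (c' := c') hc5 hc' hε2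
  refine ⟨1 + Ct * Real.exp (ε / 2), by
    have : 0 < Ct * Real.exp (ε / 2) := by positivity
    linarith, ?_⟩
  intro N hN ι _ _ θ c hover H hH hHH
  have hN0 : 0 < N := by linarith
  have hNd : 0 < N ^ d := by positivity
  have hlog : 0 ≤ Real.log N := Real.log_nonneg hN
  obtain ⟨x, hx⟩ : ∃ x : ℝ, x = 1 + Real.log N := ⟨_, rfl⟩
  have hx1 : 1 ≤ x := by linarith
  obtain ⟨D, q, hD, hDL, hDq, hRx⟩ := hpar x hx1
  have hL : dbg B N = Real.exp (B * x ^ ((1:ℝ) / 11)) := by unfold dbg; rw [hx]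
  rw [hL] at hHH
  have hD' : (1:ℝ) ≤ D := by exact_mod_cast hD
  have hιpos : 0 < Fintype.card ι := Fintype.card_pos
  have hι : (0:ℝ) < Fintype.card ι := by exact_mod_cast hιpos
  have hHH' : (H + H).card ≤ D * H.card := by
    have h1 : ((H + H).card : ℝ) ≤ D * H.card := hHH.trans (by gcongr)
    exact_mod_cast h1
  obtain ⟨Δ, hΔ⟩ : ∃ Δ : ℝ, Δ = (H.card : ℝ) / Fintype.card ι := ⟨_, rfl⟩
  have hcardH : (Fintype.card ι : ℝ) ≤ K * H.card := by exact_mod_cast card_le_labels hover H hH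
  have hΔ0 : 0 ≤ Δ := by rw [hΔ]; exact div_nonneg (Nat.cast_nonneg _) hι.le
  have hΔ1 : 1 ≤ ((K:ℝ) + 1) * Δ := by
    rw [hΔ, ← mul_div_assoc, le_div_iff₀ hι]
    have : (0:ℝ) ≤ H.card := Nat.cast_nonneg _
    linarith
  obtain ⟨κ', hκ'⟩ : ∃ κ' : ℝ, κ' = Fintype.card ι / N ^ d := ⟨_, rfl⟩
  have hκ'0 : 0 < κ' := by rw [hκ']; exact div_pos hι hNd
  have hfam : IsCapFamily K κ' N θ :=
    ⟨hover, by rw [hκ', div_mul_cancel₀ _ hNd.ne']⟩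
  obtain ⟨R, hR⟩ : ∃ R : ℕ, R = rk q + 1 := ⟨_, rfl⟩
  obtain ⟨J, hJ⟩ : ∃ J : ℕ, J = D ^ 5 * (8 * R) ^ R := ⟨_, rfl⟩
  obtain ⟨A, hA⟩ : ∃ A : ℝ, A = 4 ^ R * (D:ℝ) ^ 12 := ⟨_, rfl⟩
  have hF : FreimanBound D R J A := by
    rw [hJ, hA, hR]
    intro σ _ _ G hG hGG
    exact freiman_cs D q hDq G hG hGG
  have hA0 : 0 ≤ A := by rw [hA]; positivity
  have hJr : (J:ℝ) = (D:ℝ) ^ 5 * (8 * (R:ℝ)) ^ R := by rw [hJ]; push_cast; ring
  have hR1 : (1:ℝ) ≤ R := by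
    have : 1 ≤ R := by omega
    exact_mod_cast this
  have hJ1 : (1:ℝ) ≤ J := by
    rw [hJr]
    exact one_le_mul_of_one_le_of_one_le (one_le_pow₀ hD') (one_le_pow₀ (by linarith))
  obtain ⟨A1, hA1⟩ : ∃ A1 : ℝ, A1 = (J:ℝ) * (A * H.card) / N ^ d := ⟨_, rfl⟩
  have hA10 : 0 ≤ A1 := by
    rw [hA1]
    exact div_nonneg (mul_nonneg (Nat.cast_nonneg _) (mul_nonneg hA0 (Nat.cast_nonneg _))) hNd.le
  obtain ⟨E₀, hE₀⟩ : ∃ E₀ : ℝ, E₀ = fibConst d K κ' 1 A1 := ⟨_, rfl⟩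
  have hE0 : 0 ≤ E₀ := by rw [hE₀]; unfold fibConst; positivity
  have hE₀' : E₀ = J * A * cc * Δ := by
    rw [hE₀, hA1, hκ', hΔ, hcc]
    unfold fibConst
    field_simp
  have hE₁ : E₀ + 1 ≤ (J * A * cc + (K + 1)) * Δ := by
    rw [hE₀', add_mul]
    linarith
  have hF1 : 1 ≤ formBound d 1 := one_le_formBound
  have hbase1 : 1 ≤ (J:ℝ) * A * cc + (K + 1) := by
    have : 0 ≤ (J:ℝ) * A * cc := mul_nonneg (mul_nonneg (Nat.cast_nonneg _) hA0) hcc0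
    linarith
  have hd1 : 1 / (d:ℝ) ≤ 1 := by
    have : (1:ℝ) ≤ d := by exact_mod_cast hd
    rw [div_le_one (by linarith)]; exact this
  have hd0 : 0 ≤ 1 / (d:ℝ) := by positivity
  have hE₂ : (E₀ + 1) ^ (1 / (d:ℝ)) ≤ (J * A * cc + (K + 1)) * Δ ^ (1 / (d:ℝ)) := by
    calc (E₀ + 1) ^ (1 / (d:ℝ)) ≤ ((J * A * cc + (K + 1)) * Δ) ^ (1 / (d:ℝ)) :=
          Real.rpow_le_rpow (by linarith) hE₁ hd0
      _ = (J * A * cc + (K + 1)) ^ (1 / (d:ℝ)) * Δ ^ (1 / (d:ℝ)) :=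
          Real.mul_rpow (by linarith) hΔ0
      _ ≤ (J * A * cc + (K + 1)) ^ (1:ℝ) * Δ ^ (1 / (d:ℝ)) :=
          mul_le_mul_of_nonneg_right (Real.rpow_le_rpow_of_exponent_le hbase1 hd1)
            (Real.rpow_nonneg hΔ0 _)
      _ = _ := by rw [Real.rpow_one]
  obtain ⟨P0, hP0⟩ : ∃ P0 : ℝ, P0 = (a₀ * (R + 2)) ^ (a₀ * ((R:ℝ) + 1) ^ 2) *
    formBound d 1 ^ R := ⟨_, rfl⟩
  have hP00 : 0 ≤ P0 := by
    rw [hP0]
    exact mul_nonneg (Real.rpow_nonneg (mul_nonneg (by linarith) (by linarith)) _)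
      (pow_nonneg (by linarith) _)
  obtain ⟨C0, hC0⟩ : ∃ C0 : ℝ, C0 = P0 * (E₀ + 1) ^ (1 / (d:ℝ)) := ⟨_, rfl⟩
  have hC00 : 0 ≤ C0 := by rw [hC0]; positivity
  have hcb : CoreBound R d (formBound d 1) (fibConst d K κ' 1 A1) (ε / 2) C0 := by
    rw [← hE₀, hC0, hP0]
    exact hcore R (formBound d 1) E₀ hF1 hE0
  obtain ⟨J', Q, W, Y, w, y, nn, jj, hJJ, hQ, hprog, hcount⟩ := exists_prog hF hN θ c H hH hHH'
  have hJJr : (J':ℝ) ≤ J := by exact_mod_cast hJJ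
  have h1 := prog_weak2 hd hκ'0 zero_le_one hC00 hcb hN hfam hQ hprog (by
    intro T hT
    have h2 := hcount T hT
    calc (J' * T.card : ℝ) ≤ J * (A * H.card) :=
          mul_le_mul hJJr h2 (Nat.cast_nonneg _) (Nat.cast_nonneg _)
      _ = A1 * N ^ d := by rw [hA1, div_mul_cancel₀ _ hNd.ne'])
  refine h1.mono hN0.le ?_
  have hJp : (J':ℝ) ^ (1 / (d:ℝ)) ≤ J := by
    calc (J':ℝ) ^ (1 / (d:ℝ)) ≤ (J:ℝ) ^ (1 / (d:ℝ)) :=
          Real.rpow_le_rpow (Nat.cast_nonneg _) hJJr (by positivity)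
      _ ≤ (J:ℝ) ^ (1:ℝ) := Real.rpow_le_rpow_of_exponent_le hJ1 hd1
      _ = J := Real.rpow_one _
  have h2 := hconst D q hD hDq R hR J A hJr hA
  rw [← hP0] at h2
  have h3 : (R:ℝ) + 2 ≤ c' * x ^ ((5:ℝ) / 11) := by
    rw [hR]; exact hRx
  have h4 := htow x hx1 (R + 2) (by linarith) h3
  have h5 : Real.exp (ε / 2 * x) = Real.exp (ε / 2) * N ^ (ε / 2) := by
    rw [hx, mul_add, mul_one, Real.exp_add, Real.rpow_def_of_pos hN0, mul_comm (Real.log N)]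
  have hNp : 0 ≤ N ^ (ε / 2) := by positivity
  have h6 : N ^ (ε / 2) * N ^ (ε / 2) = N ^ ε := by
    rw [← Real.rpow_add hN0]; congr 1; ring
  have hNε : 0 ≤ N ^ ε := by positivity
  have hadd0 : 0 ≤ addConst2 d K 1 C0 := by
    rw [addConst2_eq]
    exact mul_nonneg hq hC00
  have hfrac : 0 ≤ (Fintype.card ι : ℝ) / N ^ d := by rw [← hκ']; exact hκ'0.le
  have hΔp : 0 ≤ Δ ^ (1 / (d:ℝ)) := Real.rpow_nonneg hΔ0 _
  rw [← hΔ]
  refine mul_le_mul_of_nonneg_right ?_ hfrac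
  have h7 : addConst2 d K 1 C0 * J ≤ (Ct * Real.exp (ε / 2 * x)) * Δ ^ (1 / (d:ℝ)) := by
    calc addConst2 d K 1 C0 * J = addConst2 d K 1 1 * (P0 * (E₀ + 1) ^ (1 / (d:ℝ))) * J := by
          rw [addConst2_eq d K 1 C0, hC0]
      _ ≤ addConst2 d K 1 1 * (P0 * ((J * A * cc + (K + 1)) * Δ ^ (1 / (d:ℝ)))) * J := by
          refine mul_le_mul_of_nonneg_right ?_ (by linarith)
          exact mul_le_mul_of_nonneg_left (mul_le_mul_of_nonneg_left hE₂ hP00) hq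
      _ = (addConst2 d K 1 1 * (P0 * (J * A * cc + (K + 1))) * J) * Δ ^ (1 / (d:ℝ)) := by ring
      _ ≤ (c5 * (R + 2)) ^ (c5 * ((R:ℝ) + 2) ^ 2) * Δ ^ (1 / (d:ℝ)) :=
          mul_le_mul_of_nonneg_right h2 hΔp
      _ ≤ _ := mul_le_mul_of_nonneg_right h4 hΔp
  calc addConst2 d K 1 C0 * N ^ (ε / 2) * (J':ℝ) ^ (1 / (d:ℝ))
      ≤ addConst2 d K 1 C0 * N ^ (ε / 2) * J :=
        mul_le_mul_of_nonneg_left hJp (mul_nonneg hadd0 hNp)
    _ = (addConst2 d K 1 C0 * J) * N ^ (ε / 2) := by ring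
    _ ≤ ((Ct * Real.exp (ε / 2 * x)) * Δ ^ (1 / (d:ℝ))) * N ^ (ε / 2) :=
        mul_le_mul_of_nonneg_right h7 hNp
    _ = (Ct * Real.exp (ε / 2)) * N ^ ε * Δ ^ (1 / (d:ℝ)) := by rw [h5, ← h6]; ring
    _ ≤ _ := by
        refine mul_le_mul_of_nonneg_right ?_ hΔp
        apply mul_le_mul_of_nonneg_right _ hNε
        linarith

end Pool.Agent.MPac5134.CS
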